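import Pool.Agent.P.MP_9f4f5e_mp.LT.Base

set_option autoImplicit false
set_option linter.unusedSectionVars false

open MeasureTheory Matrix
open scoped ENNReal ComplexOrder ComplexConjugate RealInnerProductSpace FourierTransform

noncomputable section

namespace Pool.Agent.P.MP_9f4f5e_mp.LT

variable {ι : Type} [Fintype ι] [DecidableEq ι]

theorem a2_convex (k : ℕ) : ConvexOn ℝ Set.univ fun x : ℝ => max x 0 ^ k := by
  have h1 : ConvexOn ℝ Set.univ fun x : ℝ => max x 0 :=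
    (convexOn_id convex_univ).sup (convexOn_const 0 convex_univ)
  exact h1.pow (fun x _ => le_max_right _ _) k

/-- Monotonicity. Hint: Spec M U l, Spec N W m; l i = qf M (U *ᵥ Pi.single i 1) ≤ qf N (same)
= ∑ j, m j * s i j with s i j = ‖(Wᴴ * U) j i‖^2 doubly stochastic (Wᴴ * U is unitary: use
Spec.row_sum, Spec.col_sum or Spec.parseval); x ↦ max x 0 ^ k is monotone and convex
(ConvexOn.map_sum_le); sum over i. -/
theorem tp_mono {M N : Matrix ι ι ℂ} (hM : M.IsHermitian) (hN : N.IsHermitian)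
    (h : (N - M).PosSemidef) {k : ℕ} (hk : k ≠ 0) : tp k M ≤ tp k N := by
  obtain ⟨U, l, hU⟩ := exists_spec hM
  obtain ⟨W, m, hW⟩ := exists_spec hN
  have hX : Spec ((Uᴴ * W) * dg m * (Uᴴ * W)ᴴ) (Uᴴ * W) m := by
    refine ⟨?_, ?_, rfl⟩
    · rw [Matrix.conjTranspose_mul, Matrix.conjTranspose_conjTranspose]
      calc Uᴴ * W * (Wᴴ * U) = Uᴴ * (W * Wᴴ) * U := by simp only [Matrix.mul_assoc]
        _ = 1 := by rw [hW.mul_ct, Matrix.mul_one, hU.ct_mul]
    · rw [Matrix.conjTranspose_mul, Matrix.conjTranspose_conjTranspose]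
      calc Wᴴ * U * (Uᴴ * W) = Wᴴ * (U * Uᴴ) * W := by simp only [Matrix.mul_assoc]
        _ = 1 := by rw [hU.mul_ct, Matrix.mul_one, hW.ct_mul]
  have e1 : Uᴴ * (N - M) * U = (Uᴴ * W) * dg m * (Uᴴ * W)ᴴ - dg l := by
    rw [Matrix.mul_sub, Matrix.sub_mul, hU.diag, Matrix.conjTranspose_mul,
      Matrix.conjTranspose_conjTranspose]
    congr 1
    conv_lhs => rw [hW.eq]
    simp only [Matrix.mul_assoc]
  have e2 : ∀ i, l i ≤ ∑ j, ‖(Uᴴ * W) i j‖ ^ 2 * m j := by
    intro i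
    have h1 := (h.conjTranspose_mul_mul_same U).diag_nonneg (i := i)
    rw [e1, Matrix.sub_apply, Spec.conj_apply, dg_apply, if_pos rfl, ← Complex.ofReal_sub] at h1
    exact sub_nonneg.1 (Complex.zero_le_real.1 h1)
  have e3 : ∀ i, max (l i) 0 ^ k ≤ ∑ j, ‖(Uᴴ * W) i j‖ ^ 2 * max (m j) 0 ^ k := by
    intro i
    have h1 := (a2_convex k).map_sum_le (t := Finset.univ) (w := fun j => ‖(Uᴴ * W) i j‖ ^ 2)
      (p := m) (fun j _ => by positivity) (hX.row_sum i) fun j _ => Set.mem_univ _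
    simp only [smul_eq_mul] at h1
    exact (pow_le_pow_left₀ (le_max_right _ _) (max_le_max_right 0 (e2 i)) k).trans h1
  rw [hU.tp_eq, hW.tp_eq]
  refine (Finset.sum_le_sum fun i _ => e3 i).trans (le_of_eq ?_)
  rw [Finset.sum_comm]
  refine Finset.sum_congr rfl fun j _ => ?_
  rw [← Finset.sum_mul, hX.col_sum, one_mul]

/-- Hint: the eigenvalues are nonpositive. -/
theorem tp_eq_zero {M : Matrix ι ι ℂ} (hM : (-M).PosSemidef) {k : ℕ} (hk : k ≠ 0) :
    tp k M = 0 := by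
  have hH : M.IsHermitian := by simpa using hM.isHermitian.neg
  obtain ⟨U, l, hU⟩ := exists_spec hH
  rw [hU.tp_eq]
  refine Finset.sum_eq_zero fun i _ => ?_
  have h1 := (hM.conjTranspose_mul_mul_same U).diag_nonneg (i := i)
  rw [Matrix.mul_neg, Matrix.neg_mul, hU.diag, Matrix.neg_apply, dg_apply, if_pos rfl,
    ← Complex.ofReal_neg] at h1
  have h2 : l i ≤ 0 := neg_nonneg.1 (Complex.zero_le_real.1 h1)
  rw [max_eq_right h2, zero_pow hk]

/-- Hint: tp_mono and tp_of_posSemidef. -/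
theorem tp_one_le_trace {M Z : Matrix ι ι ℂ} (hM : M.IsHermitian) (hZ : Z.PosSemidef)
    (h : (Z - M).PosSemidef) : tp 1 M ≤ Z.trace.re := by
  have h1 := tp_mono hM hZ.isHermitian h one_ne_zero
  rwa [tp_of_posSemidef hZ, pow_one] at h1

end Pool.Agent.P.MP_9f4f5e_mp.LT
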