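import Pool.Agent.P.MP_9f4f5e_mp.LT.A2

set_option autoImplicit false
set_option linter.unusedSectionVars false

open MeasureTheory Matrix
open scoped ENNReal ComplexOrder ComplexConjugate RealInnerProductSpace FourierTransform

noncomputable section

namespace Pool.Agent.P.MP_9f4f5e_mp.LT

variable {ι : Type} [Fintype ι] [DecidableEq ι]

/-- Hint: posSemidef_of_qf, qf_sub, qf_dg; ‖c i‖ * ‖c j‖ ≤ ∑ ‖c i‖^2. -/
theorem le_entry_sum {M : Matrix ι ι ℂ} (hM : M.IsHermitian) :
    ((dg fun _ => ∑ i, ∑ j, ‖M i j‖) - M).PosSemidef := by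
  refine posSemidef_of_qf ((dg_isHermitian _).sub hM) fun c => ?_
  rw [qf_sub, qf_dg, sub_nonneg, ← Finset.mul_sum]
  have hc : ∀ i j, ‖c i‖ * ‖c j‖ ≤ ∑ i, ‖c i‖ ^ 2 := fun i j => by
    have h1 : ∀ i, ‖c i‖ ^ 2 ≤ ∑ i, ‖c i‖ ^ 2 := fun i =>
      Finset.single_le_sum (f := fun i => ‖c i‖ ^ 2) (fun _ _ => sq_nonneg _) (Finset.mem_univ i)
    nlinarith [h1 i, h1 j, sq_nonneg (‖c i‖ - ‖c j‖)]
  refine (Complex.re_le_norm _).trans ?_
  rw [dotProduct, Finset.sum_mul]
  refine (norm_sum_le _ _).trans (Finset.sum_le_sum fun i _ => ?_)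
  rw [Matrix.mulVec, dotProduct, Finset.mul_sum, Finset.sum_mul]
  refine (norm_sum_le _ _).trans (Finset.sum_le_sum fun j _ => ?_)
  rw [norm_mul, norm_mul, Pi.star_apply, norm_star, mul_left_comm]
  exact mul_le_mul_of_nonneg_left (hc i j) (norm_nonneg _)

/-- Continuity on Hermitian families. Hint: fix x0, Spec (F x0) U l, η x = ∑ i j, ‖(F x - F x0) i j‖
→ 0; by le_entry_sum (for F x - F x0 and its negative), tp_mono and Spec.shift:
∑ max (l i - η x) 0 ^ k ≤ tp k (F x) ≤ ∑ max (l i + η x) 0 ^ k; squeeze. -/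
theorem continuous_tp {X : Type*} [TopologicalSpace X] {F : X → Matrix ι ι ℂ} (hF : Continuous F)
    (hH : ∀ x, (F x).IsHermitian) {k : ℕ} (hk : k ≠ 0) : Continuous fun x => tp k (F x) := by
  rw [continuous_iff_continuousAt]
  intro x0
  obtain ⟨U, l, hs⟩ := exists_spec (hH x0)
  set η : X → ℝ := fun x => ∑ i, ∑ j, ‖(F x - F x0) i j‖ with hη
  have hηc : Continuous η := by
    refine continuous_finsetSum _ fun i _ => continuous_finsetSum _ fun j _ => ?_
    exact ((hF.sub continuous_const).matrix_elem i j).norm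
  have hη0 : η x0 = 0 := by simp [hη]
  have hlo : ∀ x, ∑ i, max (l i - η x) 0 ^ k ≤ tp k (F x) := fun x => by
    rw [← (hs.shift (η x)).tp_eq]
    refine tp_mono (hs.shift (η x)).isHermitian (hH x) ?_ hk
    have h1 := le_entry_sum ((hH x).sub (hH x0)).neg
    simp only [Matrix.neg_apply, norm_neg] at h1
    have h2 : F x - (F x0 - dg fun _ => η x) = (dg fun _ => η x) - -(F x - F x0) := by abel
    rw [h2]
    exact h1
  have hhi : ∀ x, tp k (F x) ≤ ∑ i, max (l i - -η x) 0 ^ k := fun x => by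
    rw [← (hs.shift (-η x)).tp_eq]
    refine tp_mono (hH x) (hs.shift (-η x)).isHermitian ?_ hk
    have h1 := le_entry_sum ((hH x).sub (hH x0))
    have h3 : (dg fun _ : ι => -η x) = -dg fun _ : ι => η x := by
      rw [dg_const, dg_const, Complex.ofReal_neg, neg_smul]
    have h2 : (F x0 - dg fun _ => -η x) - F x = (dg fun _ => η x) - (F x - F x0) := by
      rw [h3]
      abel
    rw [h2]
    exact h1
  have c1 : Continuous fun x => ∑ i, max (l i - η x) 0 ^ k := by fun_prop
  have c2 : Continuous fun x => ∑ i, max (l i - -η x) 0 ^ k := by fun_prop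
  have t1 := c1.tendsto x0
  have t2 := c2.tendsto x0
  simp only [hη0, neg_zero, sub_zero, ← hs.tp_eq] at t1 t2
  exact tendsto_of_tendsto_of_tendsto_of_le_of_le t1 t2 hlo hhi

/-- the form used below -/
theorem continuous_tp_sub_dg {X : Type*} [TopologicalSpace X] {V : Matrix ι ι ℂ}
    (hV : V.IsHermitian) {d : X → ι → ℝ} (hd : ∀ i, Continuous fun x => d x i) {k : ℕ}
    (hk : k ≠ 0) : Continuous fun x => tp k (V - dg (d x)) := by
  exact continuous_tp (continuous_const.sub (continuous_dg hd))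
    (fun x => hV.sub (dg_isHermitian _)) hk

end Pool.Agent.P.MP_9f4f5e_mp.LT
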