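import Pool.Agent.P.MP_9f4f5e_mp.LT.Base

set_option autoImplicit false
set_option linter.unusedSectionVars false

open MeasureTheory Matrix
open scoped ENNReal ComplexOrder ComplexConjugate RealInnerProductSpace FourierTransform

noncomputable section

namespace Pool.Agent.P.MP_9f4f5e_mp.LT

variable {ι : Type} [Fintype ι] [DecidableEq ι]

theorem a5_trace_sq {W : Matrix ι ι ℂ} (hW : W.IsHermitian) :
    ∑ i, (W i i).re ^ 2 ≤ (W * W).trace.re := by
  rw [Matrix.trace, Complex.re_sum]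
  refine Finset.sum_le_sum fun i _ => ?_
  rw [Matrix.diag_apply, Matrix.mul_apply, Complex.re_sum]
  have h1 : ∀ j, (W i j * W j i).re = ‖W i j‖ ^ 2 := by
    intro j
    have : W j i = conj (W i j) := by
      rw [← hW.apply j i]
      rfl
    rw [this, Complex.mul_conj, Complex.normSq_eq_norm_sq, Complex.ofReal_re]
  simp only [h1]
  calc (W i i).re ^ 2 ≤ ‖W i i‖ ^ 2 := by
        rw [← sq_abs]
        exact pow_le_pow_left₀ (abs_nonneg _) (Complex.abs_re_le_norm _) 2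
    _ ≤ ∑ j, ‖W i j‖ ^ 2 :=
        Finset.single_le_sum (f := fun j => ‖W i j‖ ^ 2) (fun j _ => sq_nonneg _)
          (Finset.mem_univ i)

theorem a5_trace_dg (W : Matrix ι ι ℂ) (v : ι → ℝ) :
    (W * dg v).trace.re = ∑ i, (W i i).re * v i := by
  rw [Matrix.trace, Complex.re_sum]
  refine Finset.sum_congr rfl fun i _ => ?_
  rw [Matrix.diag_apply, dg, Matrix.mul_diagonal, Complex.re_mul_ofReal]

theorem a5_conj_mul {M U : Matrix ι ι ℂ} {l : ι → ℝ} (h : Spec M U l) (d e : ι → ℝ) :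
    U * dg d * Uᴴ * (U * dg e * Uᴴ) = U * dg (fun i => d i * e i) * Uᴴ := by
  calc U * dg d * Uᴴ * (U * dg e * Uᴴ)
      = U * (dg d * (Uᴴ * U) * dg e) * Uᴴ := by simp only [Matrix.mul_assoc]
    _ = _ := by rw [h.ct_mul, Matrix.mul_one, dg_mul]

/-- Hint: Spec N U v, Z' = Uᴴ * Z * U is PosSemidef; (Z * N).trace.re = ∑ (Z' i i).re * v i,
(Z * Z).trace.re = (Z' * Z').trace.re = ∑ i j, ‖Z' i j‖^2 ≥ ∑ (Z' i i).re ^ 2;
2 z v - z^2 ≤ max v 0 ^ 2 for z ≥ 0. -/
theorem two_trace_le {Z N : Matrix ι ι ℂ} (hZ : Z.PosSemidef) (hN : N.IsHermitian) :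
    2 * (Z * N).trace.re - (Z * Z).trace.re ≤ tp 2 N := by
  obtain ⟨U, v, h⟩ := exists_spec hN
  have hW : (Uᴴ * Z * U).PosSemidef := hZ.conjTranspose_mul_mul_same U
  have h1 : (Z * N).trace = (Uᴴ * Z * U * dg v).trace := by
    conv_lhs => rw [h.eq]
    rw [← Matrix.mul_assoc, Matrix.trace_mul_comm]
    simp only [Matrix.mul_assoc]
  have h2 : (Z * Z).trace = (Uᴴ * Z * U * (Uᴴ * Z * U)).trace := by
    have h3 : Uᴴ * Z * U * (Uᴴ * Z * U) = Uᴴ * (Z * (U * Uᴴ) * Z) * U := by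
      simp only [Matrix.mul_assoc]
    rw [h3, h.mul_ct, Matrix.mul_one, Matrix.trace_mul_comm _ U, ← Matrix.mul_assoc, h.mul_ct,
      Matrix.one_mul]
  have h4 := a5_trace_sq hW.isHermitian
  rw [h1, h2, a5_trace_dg, h.tp_eq]
  have h5 : ∑ i, (2 * (((Uᴴ * Z * U) i i).re * v i) - ((Uᴴ * Z * U) i i).re ^ 2)
      ≤ ∑ i, max (v i) 0 ^ 2 := by
    refine Finset.sum_le_sum fun i _ => ?_
    have hz : 0 ≤ ((Uᴴ * Z * U) i i).re := (Complex.nonneg_iff.1 (hW.diag_nonneg (i := i))).1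
    have hm : v i ≤ max (v i) 0 := le_max_left _ _
    nlinarith [sq_nonneg (((Uᴴ * Z * U) i i).re - max (v i) 0), mul_le_mul_of_nonneg_left hm hz]
  rw [Finset.sum_sub_distrib, ← Finset.mul_sum] at h5
  linarith

theorem pp_diag_nonneg {M : Matrix ι ι ℂ} (hM : M.IsHermitian) (n : ι) : 0 ≤ (pp M n n).re := by
  exact (Complex.nonneg_iff.1 ((pp_posSemidef hM).diag_nonneg (i := n))).1

/-- Hint: Spec.pp_eq, Spec.conj_apply, Spec.row_sum, Cauchy-Schwarz or Jensen. -/
theorem pp_diag_sq_le {M : Matrix ι ι ℂ} (hM : M.IsHermitian) (n : ι) :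
    (pp M n n).re ^ 2 ≤ tp 2 M := by
  have h1 := a5_trace_sq (pp_posSemidef hM).isHermitian
  have h2 : tp 2 M = (pp M * pp M).trace.re := by
    rw [← tp_pp hM, tp_of_posSemidef (pp_posSemidef hM), sq]
  rw [h2]
  exact le_trans (Finset.single_le_sum (f := fun i => (pp M i i).re ^ 2)
    (fun j _ => sq_nonneg _) (Finset.mem_univ n)) h1

/-- Subgradient inequality. Hint: two_trace_le with Z = pp M; (pp M * M).trace = (pp M * pp M).trace
has real part tp 2 M. -/
theorem tp_two_sub {M : Matrix ι ι ℂ} (hM : M.IsHermitian) (n : ι) (c : ℝ) :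
    tp 2 M - 2 * c * (pp M n n).re ≤ tp 2 (M - dg (Pi.single n c)) := by
  have h1 := two_trace_le (pp_posSemidef hM) (hM.sub (dg_isHermitian (Pi.single n c)))
  have h2 : tp 2 M = (pp M * pp M).trace.re := by
    rw [← tp_pp hM, tp_of_posSemidef (pp_posSemidef hM), sq]
  have h3 : pp M * M = pp M * pp M := by
    obtain ⟨U, l, h⟩ := exists_spec hM
    rw [h.pp_eq]
    conv_lhs => enter [2]; rw [h.eq]
    rw [a5_conj_mul h, a5_conj_mul h]
    congr 3
    funext i
    rcases le_total (l i) 0 with hl | hl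
    · simp [max_eq_right hl]
    · simp [max_eq_left hl]
  have h4 : ∑ i, (pp M i i).re * (Pi.single n c : ι → ℝ) i = (pp M n n).re * c := by
    rw [Finset.sum_eq_single n]
    · simp
    · intro j _ hj
      simp [hj]
    · simp
  rw [Matrix.mul_sub, Matrix.trace_sub, Complex.sub_re, a5_trace_dg, h4, h3, ← h2] at h1
  linarith

/-- a positive semidefinite matrix is its own positive part -/
theorem pp_of_posSemidef {V : Matrix ι ι ℂ} (hV : V.PosSemidef) : pp V = V := by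
  obtain ⟨U, l, h⟩ := exists_spec hV.isHermitian
  rw [h.pp_eq]
  conv_rhs => rw [h.eq]
  congr 3
  funext i
  exact max_eq_left (h.nonneg_of_posSemidef hV i)

end Pool.Agent.P.MP_9f4f5e_mp.LT
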