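import Pool.Agent.P.MP_9f4f5e_mp.LT.Base

set_option autoImplicit false
set_option linter.unusedSectionVars false

open MeasureTheory Matrix
open scoped ENNReal ComplexOrder ComplexConjugate RealInnerProductSpace FourierTransform

noncomputable section

namespace Pool.Agent.P.MP_9f4f5e_mp.LT

variable {ι : Type} [Fintype ι] [DecidableEq ι]

/-- Hint: W = V - dg (single n ε), Spec W U l; W + ε is PosSemidef (Spec.shift with s = -ε and
Spec.nonneg_of_posSemidef), so -ε ≤ l i and max (l i) 0 ^ 3 ≤ l i ^ 3 + ε ^ 3;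
∑ l i ^ 3 = (W ^ 3).trace.re (Spec.pow_eq); expand with E = dg (single n 1), E * E = E,
trace cyclicity, (A * E).trace = A n n; tp_of_posSemidef. -/
theorem tp_three_sub {V : Matrix ι ι ℂ} (hV : V.PosSemidef) (n : ι) {ε : ℝ} (hε : 0 ≤ ε) :
    tp 3 (V - dg (Pi.single n ε)) ≤ tp 3 V - 3 * ε * ((V * V) n n).re
      + 3 * ε ^ 2 * (V n n).re + Fintype.card ι * ε ^ 3 := by
  obtain ⟨U, l, h⟩ := exists_spec (hV.isHermitian.sub (dg_isHermitian (Pi.single n ε)))
  have l0 : ∀ i, 0 ≤ l i - -ε := (h.shift (-ε)).nonneg_of_posSemidef (by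
    rw [sub_sub, dg_add, sub_eq_add_neg, ← zero_sub, show (0 : Matrix ι ι ℂ) = dg fun _ => 0 by
      simp [dg], dg_sub]
    refine hV.add (dg_posSemidef fun i => ?_)
    by_cases e : i = n <;> simp [e, hε])
  have t : ∀ A : Matrix ι ι ℂ, (A * dg (Pi.single n ε)).trace = ε * A n n := fun A => by
    simp only [dg, Matrix.trace, Matrix.diag, Matrix.mul_diagonal]
    rw [Finset.sum_eq_single n (fun i _ e => by simp [e]) (by simp), Pi.single_eq_same, mul_comm]
  have d : ∀ A : Matrix ι ι ℂ, (A * dg (Pi.single n ε)) n n = ε * A n n := fun A => by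
    simp [dg, mul_comm]
  set E := dg (Pi.single n ε : ι → ℝ) with hE
  have e : ((V - E) ^ 3).trace = (V ^ 3).trace - 3 * ε * (V * V) n n + 3 * ε ^ 2 * V n n - ε ^ 3 := by
    have c1 : (V * E * V).trace = ε * (V * V) n n := by rw [trace_mul_cycle, t]
    have c2 : (E * V * V).trace = ε * (V * V) n n := by rw [trace_mul_cycle, c1]
    have c3 : (V * E * E).trace = ε * (ε * V n n) := by rw [t, d]
    have c4 : (E * E * V).trace = ε * (ε * V n n) := by rw [trace_mul_cycle, c3]
    have c5 : (E * V * E).trace = ε * (ε * V n n) := by rw [trace_mul_cycle, c4]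
    have c6 : (E * E * E).trace = ε * (ε * ε) := by rw [t, d, hE, dg_apply]; simp
    rw [show (V - E) ^ 3 = V ^ 3 - (V * V * E + V * E * V + E * V * V) +
      (V * E * E + E * V * E + E * E * V) - E * E * E by noncomm_ring]
    simp only [trace_sub, trace_add, t (V * V), c1, c2, c3, c4, c5, c6]
    ring
  have s : ∑ i, l i ^ 3 = tp 3 V - 3 * ε * ((V * V) n n).re + 3 * ε ^ 2 * (V n n).re - ε ^ 3 := by
    rw [tp_of_posSemidef hV, ← Complex.ofReal_re (∑ i, l i ^ 3), ← h.trace_conj, ← h.pow_eq, e]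
    simp [← Complex.ofReal_pow]
  have b : ∑ i, max (l i) 0 ^ 3 ≤ ∑ i, (l i ^ 3 + ε ^ 3) := Finset.sum_le_sum fun i _ => by
    obtain h | h := le_total (l i) 0
    · have := pow_le_pow_left₀ (neg_nonneg.2 h) (show -l i ≤ ε by linarith [l0 i]) 3
      rw [max_eq_right h]
      nlinarith
    · rw [max_eq_left h]
      linarith [pow_nonneg hε 3]
  rw [Finset.sum_add_distrib, s, Finset.sum_const, Finset.card_univ, nsmul_eq_mul] at b
  rw [h.tp_eq]
  linarith [pow_nonneg hε 3]

end Pool.Agent.P.MP_9f4f5e_mp.LT
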