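import Pool.Agent.P.MP_9f4f5e_mp.LT.A3

set_option autoImplicit false
set_option linter.unusedSectionVars false

open MeasureTheory Matrix
open scoped ENNReal ComplexOrder ComplexConjugate RealInnerProductSpace FourierTransform

noncomputable section

namespace Pool.Agent.P.MP_9f4f5e_mp.LT

variable {ι : Type} [Fintype ι] [DecidableEq ι]

/-- Hint: continuous (continuous_tp_sub_dg) with compact support: for
|t| ≥ ∑ |a i| + ∑ i j ‖V i j‖ the negative of the matrix is PosSemidef (le_entry_sum,
dg_posSemidef), then tp_eq_zero. -/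
theorem integrable_tp {V : Matrix ι ι ℂ} (hV : V.IsHermitian) (a : ι → ℝ) {k : ℕ} (hk : k ≠ 0) :
    Integrable fun t : ℝ => tp k (V - dg fun i => |a i - t|) := by
  have hc : Continuous fun t : ℝ => tp k (V - dg fun i => |a i - t|) :=
    continuous_tp_sub_dg hV (d := fun t i => |a i - t|)
      (fun i => (continuous_const.sub continuous_id).abs) hk
  refine hc.integrable_of_hasCompactSupport ?_
  set S : ℝ := ∑ i, ∑ j, ‖V i j‖ with hS
  set R : ℝ := ∑ i, |a i| + S with hR
  refine HasCompactSupport.intro (isCompact_Icc (a := -R) (b := R)) fun t ht => ?_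
  have hRt : R ≤ |t| := by
    by_contra hlt
    exact ht (Set.mem_Icc.2 (abs_le.1 (not_le.1 hlt).le))
  refine tp_eq_zero ?_ hk
  have h1 : -(V - dg fun i => |a i - t|)
      = (dg fun i => |a i - t| - S) + ((dg fun _ => S) - V) := by
    rw [← dg_sub]
    abel
  rw [h1]
  refine (dg_posSemidef fun i => ?_).add (le_entry_sum hV)
  have h2 : |a i| ≤ ∑ j, |a j| :=
    Finset.single_le_sum (f := fun j => |a j|) (fun j _ => abs_nonneg _) (Finset.mem_univ i)
  have h3 : |t| - |a i| ≤ |a i - t| := by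
    rw [abs_sub_comm]
    exact abs_sub_abs_le_abs_sub t (a i)
  linarith

/-- passage to the lower integral -/
theorem lintegral_tp_eq {V : Matrix ι ι ℂ} (hV : V.IsHermitian) (a : ι → ℝ) {k : ℕ}
    (hk : k ≠ 0) : ∫⁻ t : ℝ, ENNReal.ofReal (tp k (V - dg fun i => |a i - t|))
      = ENNReal.ofReal (∫ t : ℝ, tp k (V - dg fun i => |a i - t|)) := by
  refine (ofReal_integral_eq_lintegral_ofReal (integrable_tp hV a hk) ?_).symm
  exact Filter.Eventually.of_forall fun t => tp_nonneg (hV.sub (dg_isHermitian _)) k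

/-- scalar integral -/
theorem integral_Ioi_max_pow (x : ℝ) {k : ℕ} (hk : k ≠ 0) :
    IntegrableOn (fun s : ℝ => max (x - s) 0 ^ k) (Set.Ioi 0) ∧
      ∫ s in Set.Ioi (0 : ℝ), max (x - s) 0 ^ k = max x 0 ^ (k + 1) / (k + 1) := by
  have hc : Continuous fun s : ℝ => max (x - s) 0 ^ k :=
    ((continuous_const.sub continuous_id).max continuous_const).pow k
  set y : ℝ := max x 0 with hy
  have hy0 : 0 ≤ y := le_max_right _ _
  have hzero : ∀ s ∈ Set.Ioi y, max (x - s) 0 ^ k = 0 := by
    intro s hs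
    have h1 : x - s ≤ 0 := by
      have h2 : x ≤ y := le_max_left _ _
      have h3 : y < s := hs
      linarith
    rw [max_eq_right h1, zero_pow hk]
  have hsplit : Set.Ioi (0 : ℝ) = Set.Ioc 0 y ∪ Set.Ioi y := (Set.Ioc_union_Ioi_eq_Ioi hy0).symm
  have hi1 : IntegrableOn (fun s : ℝ => max (x - s) 0 ^ k) (Set.Ioc 0 y) :=
    (hc.integrableOn_Icc (a := 0) (b := y)).mono_set Set.Ioc_subset_Icc_self
  have hi2 : IntegrableOn (fun s : ℝ => max (x - s) 0 ^ k) (Set.Ioi y) :=
    (integrableOn_zero (μ := volume) (s := Set.Ioi y)).congr_fun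
      (fun s hs => (hzero s hs).symm) measurableSet_Ioi
  refine ⟨hsplit ▸ hi1.union hi2, ?_⟩
  rw [hsplit, setIntegral_union (Set.Ioc_disjoint_Ioi le_rfl) measurableSet_Ioi hi1 hi2,
    setIntegral_eq_zero_of_forall_eq_zero hzero, add_zero]
  have h4 : ∫ s in Set.Ioc (0 : ℝ) y, max (x - s) 0 ^ k = ∫ s in Set.Ioc (0 : ℝ) y, (y - s) ^ k := by
    refine setIntegral_congr_fun measurableSet_Ioc fun s hs => ?_
    have h5 : x = y := by
      rcases le_total x 0 with h | h
      · have h6 : y = 0 := max_eq_right h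
        exact absurd (hs.1.trans_le hs.2) (by rw [h6]; exact lt_irrefl _)
      · exact (max_eq_left h).symm
    change max (x - s) 0 ^ k = (y - s) ^ k
    rw [h5, max_eq_left (sub_nonneg.2 hs.2)]
  rw [h4, ← intervalIntegral.integral_of_le hy0,
    intervalIntegral.integral_comp_sub_left (fun s => s ^ k) y, integral_pow]
  simp

end Pool.Agent.P.MP_9f4f5e_mp.LT
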