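import Pool.Agent.P.MP_9f4f5e_mp.LT.B1

set_option autoImplicit false
set_option linter.unusedSectionVars false

open MeasureTheory Matrix
open scoped ENNReal ComplexOrder ComplexConjugate RealInnerProductSpace FourierTransform

noncomputable section

namespace Pool.Agent.P.MP_9f4f5e_mp.LT

variable {ι : Type} [Fintype ι] [DecidableEq ι]

/-- Layer cake formula. Hint: Spec.shift, Spec.tp_eq, integral_Ioi_max_pow. -/
theorem lintegral_tp_shift {M : Matrix ι ι ℂ} (hM : M.IsHermitian) {k : ℕ} (hk : k ≠ 0) :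
    ∫⁻ s in Set.Ioi (0 : ℝ), ENNReal.ofReal (tp k (M - dg fun _ => s))
      = ENNReal.ofReal (tp (k + 1) M / (k + 1)) := by
  obtain ⟨U, l, h⟩ := exists_spec hM
  have h1 : ∀ s : ℝ, tp k (M - dg fun _ => s) = ∑ i, max (l i - s) 0 ^ k :=
    fun s => (h.shift s).tp_eq k
  simp_rw [h1]
  have hi : IntegrableOn (fun s : ℝ => ∑ i, max (l i - s) 0 ^ k) (Set.Ioi 0) :=
    integrable_finsetSum _ fun i _ => (integral_Ioi_max_pow (l i) hk).1
  rw [← ofReal_integral_eq_lintegral_ofReal hi (ae_of_all _ fun s =>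
    Finset.sum_nonneg fun i _ => pow_nonneg (le_max_right _ _) _),
    integral_finsetSum _ fun i _ => (integral_Ioi_max_pow (l i) hk).1, h.tp_eq, Finset.sum_div]
  congr 1
  exact Finset.sum_congr rfl fun i _ => (integral_Ioi_max_pow (l i) hk).2

theorem b2_scalar (x b : ℝ) : Integrable (fun t : ℝ => max (x - |b - t|) 0 ^ 2) ∧
    ∫ t : ℝ, max (x - |b - t|) 0 ^ 2 = 2 / 3 * max x 0 ^ 3 := by
  constructor
  · refine Continuous.integrable_of_hasCompactSupport (by fun_prop) ?_
    refine HasCompactSupport.intro (isCompact_Icc (a := b - |x|) (b := b + |x|)) fun t ht => ?_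
    have h1 : x - |b - t| ≤ 0 := by
      have h2 := le_abs_self x
      have h3 := le_abs_self (b - t)
      have h4 := neg_abs_le (b - t)
      rw [Set.mem_Icc, not_and_or, not_le, not_le] at ht
      rcases ht with ht | ht <;> linarith
    rw [max_eq_right h1]
    norm_num
  · rw [integral_sub_left_eq_self (fun t : ℝ => max (x - |t|) 0 ^ 2) volume b,
      integral_comp_abs (f := fun s : ℝ => max (x - s) 0 ^ 2),
      (integral_Ioi_max_pow x two_ne_zero).2]
    push_cast
    ring

/-- All points equal. Hint: Spec.shift; ∫ t, max (x - |b - t|) 0 ^ 2 = 2 * max x 0 ^ 3 / 3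
(integral_sub_left_eq_self, integral_comp_abs, integral_Ioi_max_pow). -/
theorem integral_tp_const {V : Matrix ι ι ℂ} (hV : V.IsHermitian) (b : ℝ) :
    ∫ t : ℝ, tp 2 (V - dg fun _ => |b - t|) = 2 / 3 * tp 3 V := by
  obtain ⟨U, l, h⟩ := exists_spec hV
  have h1 : ∀ t : ℝ, tp 2 (V - dg fun _ => |b - t|) = ∑ i, max (l i - |b - t|) 0 ^ 2 :=
    fun t => (h.shift _).tp_eq 2
  simp_rw [h1]
  rw [integral_finsetSum _ fun i _ => (b2_scalar (l i) b).1, h.tp_eq, Finset.mul_sum]
  exact Finset.sum_congr rfl fun i _ => (b2_scalar (l i) b).2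

end Pool.Agent.P.MP_9f4f5e_mp.LT
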