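import Pool.Agent.P.MP_9f4f5e_mp.LT.B1

set_option autoImplicit false
set_option linter.unusedSectionVars false

open MeasureTheory Matrix
open scoped ENNReal ComplexOrder ComplexConjugate RealInnerProductSpace FourierTransform

noncomputable section

namespace Pool.Agent.P.MP_9f4f5e_mp.LT

variable {ι : Type} [Fintype ι] [DecidableEq ι]

theorem b3_shift (x b : ℝ) :
    IntegrableOn (fun t : ℝ => max (x - (t - b)) 0) (Set.Ioi b) ∧
      ∫ t in Set.Ioi b, max (x - (t - b)) 0 = max x 0 ^ 2 / 2 := by
  obtain ⟨h1, h2⟩ := integral_Ioi_max_pow x (k := 1) one_ne_zero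
  have hp : MeasurePreserving (fun t : ℝ => t - b) volume volume :=
    measurePreserving_sub_right volume b
  have he : MeasurableEmbedding fun t : ℝ => t - b :=
    (Homeomorph.subRight b).measurableEmbedding
  have hs : (fun t : ℝ => t - b) ⁻¹' Set.Ioi 0 = Set.Ioi b := by
    ext t
    simp
  simp only [pow_one] at h1 h2
  refine ⟨?_, ?_⟩
  · have h3 := (hp.integrableOn_comp_preimage he (f := fun s : ℝ => max (x - s) 0)
      (s := Set.Ioi 0)).2 h1
    rw [hs] at h3
    exact h3
  · have h3 := hp.setIntegral_preimage_emb he (fun s : ℝ => max (x - s) 0) (Set.Ioi 0)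
    rw [hs] at h3
    rw [h3, h2]
    norm_num

theorem b3_sq (V : Matrix ι ι ℂ) (a : ι → ℝ) (n : ι) :
    ((V + dg fun i => a i - a n) ^ 2) n n = (V * V) n n := by
  rw [pow_two, Matrix.mul_apply, Matrix.mul_apply]
  refine Finset.sum_congr rfl fun j _ => ?_
  simp only [Matrix.add_apply, dg_apply]
  by_cases h : n = j
  · subst h
    simp
  · simp [h, Ne.symm h]

/-- The region above the top point. Hint: B = V + dg a, Spec B U b; for t > a n the matrix is
B - dg (fun _ => t) and by Spec.shift, Spec.pp_eq, Spec.conj_apply the entry is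
∑ k, ‖U n k‖^2 * max (b k - t) 0; integrate (integral_Ioi_max_pow with k = 1 after the shift
t = a n + s), max x 0 ^ 2 ≤ x ^ 2, and ∑ k, ‖U n k‖^2 * (b k - a n)^2 is the (n,n) entry of C * C,
C = B - dg (fun _ => a n), whose n-th row and n-th column agree with those of V. -/
theorem tail_le {V : Matrix ι ι ℂ} (hV : V.IsHermitian) (a : ι → ℝ) (n : ι)
    (hn : ∀ i, a i ≤ a n) :
    IntegrableOn (fun t : ℝ => (pp (V - dg fun i => |a i - t|) n n).re) (Set.Ioi (a n)) ∧
      ∫ t in Set.Ioi (a n), (pp (V - dg fun i => |a i - t|) n n).re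
        ≤ 1 / 2 * ((V * V) n n).re := by
  have hC : (V + dg fun i => a i - a n).IsHermitian := hV.add (dg_isHermitian _)
  obtain ⟨U, c, hS⟩ := exists_spec hC
  have h1 : ∀ t ∈ Set.Ioi (a n), (pp (V - dg fun i => |a i - t|) n n).re
      = ∑ k, ‖U n k‖ ^ 2 * max (c k - (t - a n)) 0 := by
    intro t ht
    have h2 : (V - dg fun i => |a i - t|)
        = (V + dg fun i => a i - a n) - dg fun _ => t - a n := by
      have h3 : (fun i => |a i - t|) = fun i => (t - a n) - (a i - a n) := by
        funext i
        have h4 := hn i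
        have h5 : a n < t := ht
        rw [abs_of_nonpos (by linarith)]
        ring
      rw [h3, ← dg_sub (fun _ => t - a n) (fun i => a i - a n)]
      abel
    rw [h2, (hS.shift (t - a n)).pp_eq, Spec.conj_apply, Complex.ofReal_re]
  have h6 : ∀ k, IntegrableOn (fun t : ℝ => ‖U n k‖ ^ 2 * max (c k - (t - a n)) 0)
      (Set.Ioi (a n)) := fun k => (b3_shift (c k) (a n)).1.const_mul _
  refine ⟨?_, ?_⟩
  · refine IntegrableOn.congr_fun ?_ (fun t ht => (h1 t ht).symm) measurableSet_Ioi
    exact integrable_finsetSum _ fun k _ => h6 k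
  · rw [setIntegral_congr_fun measurableSet_Ioi h1, integral_finsetSum _ fun k _ => h6 k,
      ← b3_sq V a n, hS.pow_eq, Spec.conj_apply, Complex.ofReal_re, Finset.mul_sum]
    refine Finset.sum_le_sum fun k _ => ?_
    rw [integral_const_mul, (b3_shift (c k) (a n)).2]
    have h7 : max (c k) 0 ^ 2 ≤ c k ^ 2 := by
      rcases le_total (c k) 0 with h | h
      · rw [max_eq_right h]
        nlinarith [sq_nonneg (c k)]
      · rw [max_eq_left h]
    have h8 := mul_le_mul_of_nonneg_left h7 (sq_nonneg ‖U n k‖)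
    linarith

end Pool.Agent.P.MP_9f4f5e_mp.LT
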