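import Pool.Agent.P.MP_9f4f5e_mp.LT.A5
import Pool.Agent.P.MP_9f4f5e_mp.LT.A6
import Pool.Agent.P.MP_9f4f5e_mp.LT.B3

set_option autoImplicit false
set_option linter.unusedSectionVars false

open MeasureTheory Matrix
open scoped ENNReal ComplexOrder ComplexConjugate RealInnerProductSpace FourierTransform

noncomputable section

namespace Pool.Agent.P.MP_9f4f5e_mp.LT

variable {ι : Type} [Fintype ι] [DecidableEq ι]

/-- Effect of the simultaneous move on the integral. Hint: with Y t = V - dg |a - t|, the new matrix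
is Y t - dg (single n (c t)), c t = ε + |a n - ε - t| - |a n - t|, c t = 0 for t ≤ a n - ε,
0 ≤ c t ≤ 2 ε. By tp_two_sub, pp_diag_nonneg, pp_diag_sq_le and tp_mono (Y t ≤ V):
tp 2 (Y t) - g t ≤ tp 2 (new), g = indicator (Ioc (a n - ε) (a n)) (4 ε K)
+ indicator (Ioi (a n)) (4 ε (pp (Y t) n n).re); integral_mono, integrable_tp, tail_le. -/
theorem move_integral {V : Matrix ι ι ℂ} (hV : V.PosSemidef) (a : ι → ℝ) (n : ι)
    (hn : ∀ i, a i ≤ a n) {ε K : ℝ} (hε : 0 ≤ ε) (hK : 0 ≤ K) (hVK : tp 2 V ≤ K ^ 2) :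
    (∫ t : ℝ, tp 2 (V - dg fun i => |a i - t|)) - 4 * ε ^ 2 * K - 2 * ε * ((V * V) n n).re
      ≤ ∫ t : ℝ, tp 2 (V - dg (Pi.single n ε)
        - dg fun i => |a i - (Pi.single n ε : ι → ℝ) i - t|) := by
  set Y : ℝ → Matrix ι ι ℂ := fun t => V - dg fun i => |a i - t| with hY
  have hYH : ∀ t, (Y t).IsHermitian := fun t => hV.isHermitian.sub (dg_isHermitian _)
  have hYK : ∀ t, (pp (Y t) n n).re ≤ K := fun t => by
    have h1 : tp 2 (Y t) ≤ tp 2 V := tp_mono (hYH t) hV.isHermitian
      (by simpa [hY] using dg_posSemidef (d := fun i => |a i - t|) fun i => abs_nonneg _)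
      (by norm_num)
    exact (abs_le_of_sq_le_sq' ((pp_diag_sq_le (hYH t) n).trans (h1.trans hVK)) hK).2
  obtain ⟨hi, ht⟩ := tail_le hV.isHermitian a n hn
  set g : ℝ → ℝ := fun t => (Set.Ioc (a n - ε) (a n)).indicator (fun _ => 4 * ε * K) t +
    (Set.Ioi (a n)).indicator (fun t => 4 * ε * (pp (Y t) n n).re) t with hg
  have hg1 : Integrable ((Set.Ioc (a n - ε) (a n)).indicator (fun _ : ℝ => 4 * ε * K)) :=
    (integrable_indicator_iff measurableSet_Ioc).2 (integrableOn_const (by simp))
  have hg2 : Integrable ((Set.Ioi (a n)).indicator (fun t => 4 * ε * (pp (Y t) n n).re)) :=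
    (integrable_indicator_iff measurableSet_Ioi).2 (Integrable.const_mul hi _)
  have hgi : ∫ t, g t ≤ 4 * ε ^ 2 * K + 2 * ε * ((V * V) n n).re := by
    rw [hg, integral_add hg1 hg2, integral_indicator measurableSet_Ioc,
      integral_indicator measurableSet_Ioi, integral_const_mul, integral_const_mul]
    have h1 : ∫ _ in Set.Ioc (a n - ε) (a n), K = ε * K := by
      simp [Measure.real, Real.volume_Ioc, hε]
    have h2 := mul_le_mul_of_nonneg_left ht (by positivity : 0 ≤ 4 * ε)
    rw [h1]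
    simp only [hY]
    linarith
  have hpt : ∀ t, tp 2 (Y t) - g t ≤ tp 2 (V - dg (Pi.single n ε)
      - dg fun i => |a i - (Pi.single n ε : ι → ℝ) i - t|) := by
    intro t
    set c := ε + |a n - ε - t| - |a n - t| with hc
    have e : V - dg (Pi.single n ε) - (dg fun i => |a i - (Pi.single n ε : ι → ℝ) i - t|) =
        Y t - dg (Pi.single n c) := by
      simp only [hY, sub_sub, dg_add]
      congr 2
      funext i
      by_cases h : i = n
      · subst h
        simp only [Pi.single_eq_same, hc, sub_sub]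
        ring
      · simp [Pi.single_eq_of_ne h]
    rw [e]
    refine le_trans ?_ (tp_two_sub (hYH t) n c)
    have h0 := pp_diag_nonneg (hYH t) n
    have h1 := hYK t
    have h2 : c ≤ 2 * ε := by
      have := abs_sub_abs_le_abs_sub (a n - ε - t) (a n - t)
      rw [show a n - ε - t - (a n - t) = -ε by ring, abs_neg, abs_of_nonneg hε] at this
      linarith
    have h3 := mul_le_mul_of_nonneg_right h2 h0
    simp only [hg, Set.indicator_apply, Set.mem_Ioc, Set.mem_Ioi]
    by_cases c1 : a n < t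
    · rw [if_neg (fun h => absurd c1 (not_lt.2 h.2)), if_pos c1]
      linarith
    · rw [if_neg c1]
      by_cases c2 : a n - ε < t
      · rw [if_pos ⟨c2, not_lt.1 c1⟩]
        linarith [mul_le_mul_of_nonneg_left h1 hε]
      · rw [if_neg (fun h => c2 h.1)]
        have : c = 0 := by
          rw [hc, abs_of_nonneg (by linarith), abs_of_nonneg (by linarith)]
          ring
        rw [this]
        simp
  have hI1 := integrable_tp hV.isHermitian a (k := 2) (by norm_num)
  have hI2 := integrable_tp (hV.isHermitian.sub (dg_isHermitian (Pi.single n ε)))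
    (fun i => a i - (Pi.single n ε : ι → ℝ) i) (k := 2) (by norm_num)
  have h := integral_mono (hI1.sub (hg1.add hg2)) hI2 hpt
  have e := integral_sub hI1 (hg1.add hg2)
  simp only [Pi.sub_apply, Pi.add_apply] at h e
  rw [e] at h
  simp only [hg] at hgi
  linarith

/-- One step. Hint: move_integral, tp_mono with pp_sub_posSemidef, tp_pp, tp_three_sub,
(V n n).re ≤ K from pp_of_posSemidef and pp_diag_sq_le. -/
theorem step {V : Matrix ι ι ℂ} (hV : V.PosSemidef) (a : ι → ℝ) (n : ι)
    (hn : ∀ i, a i ≤ a n) {ε K : ℝ} (hε : 0 ≤ ε) (hK : 0 ≤ K) (hVK : tp 2 V ≤ K ^ 2) :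
    tp 2 (pp (V - dg (Pi.single n ε))) ≤ K ^ 2 ∧
    (∫ t : ℝ, tp 2 (V - dg fun i => |a i - t|)) - 2 / 3 * tp 3 V
      ≤ (∫ t : ℝ, tp 2 (pp (V - dg (Pi.single n ε))
          - dg fun i => |a i - (Pi.single n ε : ι → ℝ) i - t|))
        - 2 / 3 * tp 3 (pp (V - dg (Pi.single n ε))) + (6 * K + Fintype.card ι * ε) * ε ^ 2 := by
  have hW : (V - dg (Pi.single n ε)).IsHermitian := hV.isHermitian.sub (dg_isHermitian _)
  have hP := (pp_posSemidef hW).isHermitian
  constructor
  · rw [tp_pp hW]
    refine (tp_mono hW hV.isHermitian ?_ (by norm_num)).trans hVK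
    rw [sub_sub_cancel]
    refine dg_posSemidef fun i => ?_
    by_cases h : i = n
    · subst h; simpa using hε
    · simp [Pi.single_eq_of_ne h]
  have h1 := move_integral hV a n hn hε hK hVK
  have h2 : (∫ t : ℝ, tp 2 (V - dg (Pi.single n ε)
      - dg fun i => |a i - (Pi.single n ε : ι → ℝ) i - t|)) ≤
      ∫ t : ℝ, tp 2 (pp (V - dg (Pi.single n ε))
        - dg fun i => |a i - (Pi.single n ε : ι → ℝ) i - t|) :=
    integral_mono (integrable_tp hW (fun i => a i - (Pi.single n ε : ι → ℝ) i) (by norm_num))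
      (integrable_tp hP (fun i => a i - (Pi.single n ε : ι → ℝ) i) (by norm_num)) fun t =>
      tp_mono (hW.sub (dg_isHermitian _)) (hP.sub (dg_isHermitian _))
        (by rw [sub_sub_sub_cancel_right]; exact pp_sub_posSemidef hW) (by norm_num)
  have h3 := tp_three_sub hV n hε
  have h4 : (V n n).re ≤ K := by
    have := pp_diag_sq_le hV.isHermitian n
    rw [pp_of_posSemidef hV] at this
    exact (abs_le_of_sq_le_sq' (this.trans hVK) hK).2
  have h5 := mul_le_mul_of_nonneg_left h4 (sq_nonneg ε)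
  have h6 : 0 ≤ (Fintype.card ι : ℝ) * ε ^ 3 := by positivity
  rw [tp_pp hW]
  nlinarith

end Pool.Agent.P.MP_9f4f5e_mp.LT
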