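import Pool.Agent.P.MP_9f4f5e_mp.LT.B2
import Pool.Agent.P.MP_9f4f5e_mp.LT.B4

set_option autoImplicit false
set_option linter.unusedSectionVars false

open MeasureTheory Matrix
open scoped ENNReal ComplexOrder ComplexConjugate RealInnerProductSpace FourierTransform

noncomputable section

namespace Pool.Agent.P.MP_9f4f5e_mp.LT

variable {ι : Type} [Fintype ι] [DecidableEq ι]

theorem b5_ind (b : ℝ) {K η : ℝ} (hK : 0 ≤ K) (hη : 0 < η) (hη1 : η ≤ 1) (N : ℕ) :
    ∀ a : ι → ℝ, (∀ i, b ≤ a i) → ∑ i, ⌈(a i - b) / η⌉₊ ≤ N → ∀ V : Matrix ι ι ℂ, V.PosSemidef →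
      tp 2 V ≤ K ^ 2 → (∫ t : ℝ, tp 2 (V - dg fun i => |a i - t|)) - 2 / 3 * tp 3 V
        ≤ (6 * K + Fintype.card ι) * η * ∑ i, (a i - b) := by
  have hconst : ∀ a : ι → ℝ, (∀ i, a i = b) → ∀ V : Matrix ι ι ℂ, V.PosSemidef →
      (∫ t : ℝ, tp 2 (V - dg fun i => |a i - t|)) - 2 / 3 * tp 3 V
        ≤ (6 * K + Fintype.card ι) * η * ∑ i, (a i - b) := by
    intro a h V hV
    simp only [h, sub_self, Finset.sum_const_zero, mul_zero]
    rw [integral_tp_const hV.isHermitian b, sub_self]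
  induction N with
  | zero =>
    intro a ha hN V hV _
    refine hconst a (fun i => ?_) V hV
    have h1 : ⌈(a i - b) / η⌉₊ ≤ 0 :=
      (Finset.single_le_sum (f := fun i => ⌈(a i - b) / η⌉₊) (fun _ _ => Nat.zero_le _)
        (Finset.mem_univ i)).trans hN
    have h2 : (a i - b) / η ≤ 0 := by simpa using Nat.ceil_le.1 h1
    have h3 : a i - b ≤ 0 := by
      rw [div_le_iff₀ hη] at h2
      simpa using h2
    linarith [ha i]
  | succ N ih =>
    intro a ha hN V hV hVK
    by_cases h : ∀ i, a i = b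
    · exact hconst a h V hV
    obtain ⟨j, hj⟩ := not_forall.1 h
    have : Nonempty ι := ⟨j⟩
    obtain ⟨n, hn⟩ := Finite.exists_max a
    have hb : b < a n := (lt_of_le_of_ne (ha j) (Ne.symm hj)).trans_le (hn j)
    obtain ⟨ε, hε0, hεη, hεa, hεc⟩ : ∃ ε : ℝ, 0 < ε ∧ ε ≤ η ∧ ε ≤ a n - b ∧
        ⌈(a n - ε - b) / η⌉₊ < ⌈(a n - b) / η⌉₊ := by
      have hc : 0 < ⌈(a n - b) / η⌉₊ := Nat.ceil_pos.2 (div_pos (by linarith) hη)
      rcases le_total η (a n - b) with h1 | h1
      · refine ⟨η, hη, le_rfl, h1, ?_⟩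
        obtain ⟨c, hc'⟩ : ∃ c, ⌈(a n - b) / η⌉₊ = c + 1 := ⟨_, (Nat.succ_pred_eq_of_pos hc).symm⟩
        have h2 := Nat.le_ceil ((a n - b) / η)
        rw [hc'] at h2 ⊢
        refine Nat.lt_succ_of_le (Nat.ceil_le.2 ?_)
        push_cast at h2
        rw [div_le_iff₀ hη] at h2 ⊢
        linarith
      · refine ⟨a n - b, by linarith, h1, le_rfl, ?_⟩
        rw [show a n - (a n - b) - b = 0 by ring, zero_div, Nat.ceil_zero]
        exact hc
    obtain ⟨h1, h2⟩ := step hV a n hn hε0.le hK hVK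
    have hH : (V - dg (Pi.single n ε)).IsHermitian := hV.isHermitian.sub (dg_isHermitian _)
    have h3 := ih (fun i => a i - (Pi.single n ε : ι → ℝ) i) (fun i => ?_) ?_ _
      (pp_posSemidef hH) h1
    · have h4 : ∑ i, (a i - (Pi.single n ε : ι → ℝ) i - b) = ∑ i, (a i - b) - ε := by
        simp only [sub_right_comm _ _ b]
        rw [Finset.sum_sub_distrib]
        simp
      rw [h4] at h3
      have hc : (0 : ℝ) ≤ Fintype.card ι := Nat.cast_nonneg _
      have h5 : (6 * K + Fintype.card ι * ε) * ε ^ 2 ≤ (6 * K + Fintype.card ι) * η * ε := by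
        have e1 : (Fintype.card ι : ℝ) * ε ≤ Fintype.card ι :=
          mul_le_of_le_one_right hc (hεη.trans hη1)
        have e2 : ε ^ 2 ≤ η * ε := by nlinarith
        rw [mul_assoc]
        exact mul_le_mul (by linarith) e2 (sq_nonneg _) (by linarith)
      linarith
    · by_cases hi : i = n
      · subst hi
        simp only [Pi.single_eq_same]
        linarith
      · simp only [Pi.single_eq_of_ne hi, sub_zero]
        exact ha i
    · refine Nat.le_of_lt_succ (lt_of_lt_of_le (Finset.sum_lt_sum (fun i _ => ?_)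
        ⟨n, Finset.mem_univ n, ?_⟩) hN)
      · by_cases hi : i = n
        · subst hi
          simp only [Pi.single_eq_same]
          exact hεc.le
        · simp only [Pi.single_eq_of_ne hi, sub_zero, le_refl]
      · simp only [Pi.single_eq_same]
        exact hεc

theorem b5_psd {V : Matrix ι ι ℂ} (hV : V.PosSemidef) (a : ι → ℝ) :
    ∫ t : ℝ, tp 2 (V - dg fun i => |a i - t|) ≤ 2 / 3 * tp 3 V := by
  obtain ⟨b, hb⟩ := (Set.finite_range a).bddBelow
  have ha : ∀ i, b ≤ a i := fun i => hb ⟨i, rfl⟩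
  have h0 := tp_nonneg hV.isHermitian 2
  have hK : tp 2 V ≤ √(tp 2 V) ^ 2 := (Real.sq_sqrt h0).ge
  have hS : 0 ≤ ∑ i, (a i - b) := Finset.sum_nonneg fun i _ => sub_nonneg.2 (ha i)
  obtain ⟨C, hC, hC0⟩ : ∃ C : ℝ, C = (6 * √(tp 2 V) + Fintype.card ι) * ∑ i, (a i - b) ∧ 0 ≤ C :=
    ⟨_, rfl, by positivity⟩
  refine le_of_forall_pos_le_add fun δ hδ => ?_
  have hη : 0 < min 1 (δ / (C + 1)) := lt_min one_pos (by positivity)
  have h1 := b5_ind b (Real.sqrt_nonneg _) hη (min_le_left _ _) _ a ha le_rfl V hV hK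
  rw [mul_right_comm, ← hC] at h1
  have h2 : C * min 1 (δ / (C + 1)) ≤ δ := by
    refine (mul_le_mul_of_nonneg_left (min_le_right _ _) hC0).trans ?_
    rw [← mul_div_assoc, div_le_iff₀ (by positivity)]
    nlinarith
  linarith

/-- The sharp inequality. Hint: fix b ≤ all a i, K, 0 < η ≤ 1. Induction on N: for all a ≥ b with
∑ ⌈(a i - b) / η⌉₊ ≤ N and all PosSemidef V with tp 2 V ≤ K^2:
J a V ≤ (6 K + card) * η * ∑ (a i - b). If a = fun _ => b use integral_tp_const; else take n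
maximising a (Finite.exists_max), ε = min η (a n - b) > 0, apply step; the ceiling at n drops by
one. Let η → 0. For Hermitian V use pp V (tp_mono, tp_pp, integral_mono). -/
theorem lt_two {V : Matrix ι ι ℂ} (hV : V.IsHermitian) (a : ι → ℝ) :
    ∫ t : ℝ, tp 2 (V - dg fun i => |a i - t|) ≤ 2 / 3 * tp 3 V := by
  have hP := pp_posSemidef hV
  rw [← tp_pp hV 3]
  refine le_trans (integral_mono (integrable_tp hV a two_ne_zero)
    (integrable_tp hP.isHermitian a two_ne_zero) fun t => ?_) (b5_psd hP a)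
  refine tp_mono (hV.sub (dg_isHermitian _)) (hP.isHermitian.sub (dg_isHermitian _)) ?_ two_ne_zero
  rw [sub_sub_sub_cancel_right]
  exact pp_sub_posSemidef hV

end Pool.Agent.P.MP_9f4f5e_mp.LT
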