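import Pool.Agent.P.MP_9f4f5e_mp.LT.B5

set_option autoImplicit false
set_option linter.unusedSectionVars false

open MeasureTheory Matrix
open scoped ENNReal ComplexOrder ComplexConjugate RealInnerProductSpace FourierTransform

noncomputable section

namespace Pool.Agent.P.MP_9f4f5e_mp.LT

variable {ι : Type} [Fintype ι] [DecidableEq ι]

/-- Hint: lintegral_tp_eq and lt_two. -/
theorem lt_two' {V : Matrix ι ι ℂ} (hV : V.IsHermitian) (a : ι → ℝ) :
    ∫⁻ t : ℝ, ENNReal.ofReal (tp 2 (V - dg fun i => |a i - t|))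
      ≤ ENNReal.ofReal (2 / 3 * tp 3 V) := by
  rw [lintegral_tp_eq hV a two_ne_zero]
  exact ENNReal.ofReal_le_ofReal (lt_two hV a)

/-- Aizenman-Lieb. Hint: lintegral_tp_shift with k = 2 inside, lintegral_lintegral_swap
(measurable by continuous_tp), lt_two' for V - dg (fun _ => s), lintegral_tp_shift with k = 3. -/
theorem lt_three {V : Matrix ι ι ℂ} (hV : V.IsHermitian) (a : ι → ℝ) :
    ∫⁻ t : ℝ, ENNReal.ofReal (tp 3 (V - dg fun i => |a i - t|))
      ≤ ENNReal.ofReal (1 / 2 * tp 4 V) := by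
  have h1 : ∀ t : ℝ, ENNReal.ofReal (tp 3 (V - dg fun i => |a i - t|))
      = ENNReal.ofReal 3 * ∫⁻ s in Set.Ioi (0 : ℝ),
        ENNReal.ofReal (tp 2 (V - dg fun i => |a i - t| + s)) := fun t => by
    have h := lintegral_tp_shift (hV.sub (dg_isHermitian fun i => |a i - t|)) (k := 2) two_ne_zero
    simp only [sub_sub, dg_add] at h
    rw [h, ← ENNReal.ofReal_mul (by norm_num)]
    congr 1
    push_cast
    ring
  have hm : Measurable fun p : ℝ × ℝ =>
      ENNReal.ofReal (tp 2 (V - dg fun i => |a i - p.1| + p.2)) :=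
    (continuous_tp_sub_dg hV (d := fun (p : ℝ × ℝ) i => |a i - p.1| + p.2)
      (fun i => by fun_prop) two_ne_zero).measurable.ennreal_ofReal
  have h2 : ∀ s : ℝ, ∫⁻ t : ℝ, ENNReal.ofReal (tp 2 (V - dg fun i => |a i - t| + s))
      ≤ ENNReal.ofReal (2 / 3) * ENNReal.ofReal (tp 3 (V - dg fun _ => s)) := fun s => by
    have h := lt_two' (hV.sub (dg_isHermitian fun _ => s)) a
    simp only [sub_sub, dg_add] at h
    rw [← ENNReal.ofReal_mul (by norm_num)]
    simpa only [add_comm] using h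
  simp only [h1]
  rw [lintegral_const_mul' _ _ ENNReal.ofReal_ne_top, lintegral_lintegral_swap hm.aemeasurable]
  refine (mul_le_mul_right (lintegral_mono h2) _).trans_eq ?_
  rw [lintegral_const_mul' _ _ ENNReal.ofReal_ne_top, lintegral_tp_shift hV (k := 3) (by norm_num),
    ← ENNReal.ofReal_mul (by norm_num), ← ENNReal.ofReal_mul (by norm_num)]
  congr 1
  push_cast
  ring

end Pool.Agent.P.MP_9f4f5e_mp.LT
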