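import Pool.Agent.P.MP_9f4f5e_mp.LT.Defs

/-! Spectral data and elementary facts. -/

set_option autoImplicit false
set_option linter.unusedSectionVars false

open MeasureTheory Matrix
open scoped ENNReal ComplexOrder ComplexConjugate RealInnerProductSpace

noncomputable section

namespace Pool.Agent.P.MP_9f4f5e_mp.LT

variable {ι : Type} [Fintype ι] [DecidableEq ι]

theorem dg_isHermitian (d : ι → ℝ) : (dg d).IsHermitian := by
  unfold dg
  rw [Matrix.IsHermitian, Matrix.diagonal_conjTranspose]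
  congr 1
  funext i
  simp

theorem dg_apply (d : ι → ℝ) (i j : ι) : dg d i j = if i = j then (d i : ℂ) else 0 := by
  simp [dg, Matrix.diagonal_apply]

theorem dg_mul (d e : ι → ℝ) : dg d * dg e = dg fun i => d i * e i := by
  simp [dg, Matrix.diagonal_mul_diagonal]

theorem dg_sub (d e : ι → ℝ) : dg d - dg e = dg fun i => d i - e i := by
  simp [dg, Matrix.diagonal_sub]

theorem dg_add (d e : ι → ℝ) : dg d + dg e = dg fun i => d i + e i := by
  simp [dg, Matrix.diagonal_add]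

theorem dg_const (s : ℝ) : (dg fun _ : ι => s) = (s : ℂ) • (1 : Matrix ι ι ℂ) := by
  ext i j
  by_cases h : i = j <;> simp [dg_apply, h]

theorem dg_posSemidef {d : ι → ℝ} (hd : ∀ i, 0 ≤ d i) : (dg d).PosSemidef := by
  unfold dg
  rw [Matrix.posSemidef_diagonal_iff]
  intro i
  exact Complex.zero_le_real.2 (hd i)

theorem trace_dg (d : ι → ℝ) : (dg d).trace = ((∑ i, d i : ℝ) : ℂ) := by
  simp [dg, Matrix.trace_diagonal]

theorem continuous_dg {X : Type*} [TopologicalSpace X] {d : X → ι → ℝ}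
    (hd : ∀ i, Continuous fun x => d x i) : Continuous fun x => dg (d x) := by
  refine continuous_matrix fun i j => ?_
  simp only [dg_apply]
  split_ifs
  · exact Complex.continuous_ofReal.comp (hd i)
  · exact continuous_const

theorem exists_spec {M : Matrix ι ι ℂ} (hM : M.IsHermitian) : ∃ U l, Spec M U l := by
  refine ⟨hM.eigenvectorUnitary, hM.eigenvalues, ?_, ?_, ?_⟩
  · exact (Unitary.mem_iff.1 hM.eigenvectorUnitary.2).2
  · exact (Unitary.mem_iff.1 hM.eigenvectorUnitary.2).1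
  · conv_lhs => rw [hM.spectral_theorem, Unitary.conjStarAlgAut_apply]
    rfl

namespace Spec

variable {M U : Matrix ι ι ℂ} {l : ι → ℝ}

theorem conj_isHermitian (U : Matrix ι ι ℂ) (d : ι → ℝ) : (U * dg d * Uᴴ).IsHermitian :=
  Matrix.isHermitian_mul_mul_conjTranspose U (dg_isHermitian d)

theorem isHermitian (h : Spec M U l) : M.IsHermitian := h.eq ▸ conj_isHermitian U l

theorem map (h : Spec M U l) (d : ι → ℝ) : Spec (U * dg d * Uᴴ) U d := ⟨h.mul_ct, h.ct_mul, rfl⟩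

theorem diag (h : Spec M U l) : Uᴴ * M * U = dg l := by
  rw [h.eq]
  calc Uᴴ * (U * dg l * Uᴴ) * U = (Uᴴ * U) * dg l * (Uᴴ * U) := by
        simp only [Matrix.mul_assoc]
    _ = dg l := by rw [h.ct_mul, Matrix.one_mul, Matrix.mul_one]

theorem cfc_eq (h : Spec M U l) (f : ℝ → ℝ) : cfc f M = U * dg (fun i => f (l i)) * Uᴴ := by
  have hM := h.isHermitian
  set W : Matrix ι ι ℂ := (hM.eigenvectorUnitary : Matrix ι ι ℂ) with hW
  have hW1 : W * Wᴴ = 1 := (Unitary.mem_iff.1 hM.eigenvectorUnitary.2).2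
  have hW2 : Wᴴ * W = 1 := (Unitary.mem_iff.1 hM.eigenvectorUnitary.2).1
  have hMW : M = W * dg hM.eigenvalues * Wᴴ := by
    conv_lhs => rw [hM.spectral_theorem, Unitary.conjStarAlgAut_apply]
    rfl
  have hc : cfc f M = W * dg (fun i => f (hM.eigenvalues i)) * Wᴴ := by
    rw [hM.cfc_eq, Matrix.IsHermitian.cfc, Unitary.conjStarAlgAut_apply]
    rfl
  have h1 : dg l * (Uᴴ * W) = (Uᴴ * W) * dg hM.eigenvalues := by
    calc dg l * (Uᴴ * W) = Uᴴ * M * (U * Uᴴ) * W := by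
          rw [← h.diag]; simp only [Matrix.mul_assoc]
      _ = Uᴴ * (W * dg hM.eigenvalues * Wᴴ) * W := by rw [h.mul_ct, Matrix.mul_one, ← hMW]
      _ = (Uᴴ * W) * dg hM.eigenvalues * (Wᴴ * W) := by simp only [Matrix.mul_assoc]
      _ = _ := by rw [hW2, Matrix.mul_one]
  have h2 : dg (fun i => f (l i)) * (Uᴴ * W)
      = (Uᴴ * W) * dg (fun i => f (hM.eigenvalues i)) := by
    ext i j
    have h3 := congrFun (congrFun h1 i) j
    simp only [dg, Matrix.diagonal_mul, Matrix.mul_diagonal] at h3 ⊢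
    by_cases h0 : (Uᴴ * W) i j = 0
    · simp [h0]
    · have h4 : (l i : ℂ) = hM.eigenvalues j := by
        rw [mul_comm] at h3
        exact mul_left_cancel₀ h0 h3
      rw [Complex.ofReal_inj.1 h4, mul_comm]
  calc cfc f M = (U * Uᴴ) * W * dg (fun i => f (hM.eigenvalues i)) * Wᴴ := by
        rw [hc, h.mul_ct, Matrix.one_mul]
    _ = U * ((Uᴴ * W) * dg (fun i => f (hM.eigenvalues i))) * Wᴴ := by
        simp only [Matrix.mul_assoc]
    _ = U * dg (fun i => f (l i)) * Uᴴ * (W * Wᴴ) := by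
        rw [← h2]; simp only [Matrix.mul_assoc]
    _ = _ := by rw [hW1, Matrix.mul_one]

theorem trace_conj (h : Spec M U l) (d : ι → ℝ) :
    (U * dg d * Uᴴ).trace = ((∑ i, d i : ℝ) : ℂ) := by
  rw [Matrix.trace_mul_comm, ← Matrix.mul_assoc, h.ct_mul, Matrix.one_mul, trace_dg]

theorem tp_eq (h : Spec M U l) (k : ℕ) : tp k M = ∑ i, max (l i) 0 ^ k := by
  rw [tp, h.cfc_eq, h.trace_conj, Complex.ofReal_re]

theorem pp_eq (h : Spec M U l) : pp M = U * dg (fun i => max (l i) 0) * Uᴴ := h.cfc_eq _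

theorem pp_spec (h : Spec M U l) : Spec (pp M) U fun i => max (l i) 0 :=
  h.pp_eq ▸ h.map _

theorem shift (h : Spec M U l) (s : ℝ) : Spec (M - dg fun _ => s) U fun i => l i - s := by
  refine ⟨h.mul_ct, h.ct_mul, ?_⟩
  rw [← dg_sub, Matrix.mul_sub, Matrix.sub_mul, ← h.eq, dg_const, Matrix.mul_smul,
    Matrix.mul_one, Matrix.smul_mul, h.mul_ct]

/-- diagonal entries in the original basis -/
theorem conj_apply (U : Matrix ι ι ℂ) (d : ι → ℝ) (n : ι) :
    (U * dg d * Uᴴ) n n = ((∑ i, ‖U n i‖ ^ 2 * d i : ℝ) : ℂ) := by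
  rw [Matrix.mul_apply]
  push_cast
  refine Finset.sum_congr rfl fun i _ => ?_
  rw [dg, Matrix.mul_diagonal, Matrix.conjTranspose_apply, mul_right_comm, Complex.star_def,
    Complex.mul_conj, Complex.normSq_eq_norm_sq]
  push_cast
  ring

theorem row_sum (h : Spec M U l) (n : ι) : ∑ i, ‖U n i‖ ^ 2 = 1 := by
  have h1 := conj_apply U (fun _ => 1) n
  rw [dg_const, Complex.ofReal_one, one_smul, Matrix.mul_one, h.mul_ct, Matrix.one_apply_eq] at h1
  simp only [mul_one] at h1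
  exact_mod_cast h1.symm

theorem col_sum (h : Spec M U l) (n : ι) : ∑ i, ‖U i n‖ ^ 2 = 1 := by
  have h0 : Spec (Uᴴ * dg l * Uᴴᴴ) Uᴴ l :=
    ⟨by rw [Matrix.conjTranspose_conjTranspose, h.ct_mul],
      by rw [Matrix.conjTranspose_conjTranspose, h.mul_ct], rfl⟩
  simpa [Matrix.conjTranspose_apply] using h0.row_sum n

/-- the quadratic form in the eigenbasis -/
theorem qf_conj (U : Matrix ι ι ℂ) (d : ι → ℝ) (c : ι → ℂ) :
    qf (U * dg d * Uᴴ) c = ∑ i, d i * ‖(Uᴴ *ᵥ c) i‖ ^ 2 := by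
  have h1 : star c ⬝ᵥ (U * dg d * Uᴴ) *ᵥ c = star (Uᴴ *ᵥ c) ⬝ᵥ dg d *ᵥ (Uᴴ *ᵥ c) := by
    rw [Matrix.star_mulVec, Matrix.conjTranspose_conjTranspose, ← Matrix.mulVec_mulVec,
      ← Matrix.mulVec_mulVec, Matrix.dotProduct_mulVec (star c) U]
  rw [qf, h1, dotProduct, Complex.re_sum]
  refine Finset.sum_congr rfl fun i _ => ?_
  rw [dg, Matrix.mulVec_diagonal, Pi.star_apply, Complex.star_def, mul_left_comm,
    Complex.conj_mul', Complex.re_ofReal_mul]
  norm_cast

/-- Parseval -/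
theorem parseval (h : Spec M U l) (c : ι → ℂ) : ∑ i, ‖(Uᴴ *ᵥ c) i‖ ^ 2 = ∑ i, ‖c i‖ ^ 2 := by
  have h1 := qf_conj U (fun _ => 1) c
  have h2 := qf_conj (1 : Matrix ι ι ℂ) (fun _ => 1) c
  rw [dg_const, Complex.ofReal_one, one_smul, Matrix.mul_one] at h1 h2
  rw [h.mul_ct] at h1
  rw [Matrix.conjTranspose_one, Matrix.mul_one] at h2
  simp only [one_mul, Matrix.one_mulVec] at h1 h2
  rw [← h1, ← h2]

theorem nonneg_of_posSemidef (h : Spec M U l) (hM : M.PosSemidef) (i : ι) : 0 ≤ l i := by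
  have h1 := (hM.conjTranspose_mul_mul_same U).diag_nonneg (i := i)
  rw [h.diag, dg_apply, if_pos rfl] at h1
  exact Complex.zero_le_real.1 h1

theorem conj_posSemidef (U : Matrix ι ι ℂ) {d : ι → ℝ} (hd : ∀ i, 0 ≤ d i) :
    (U * dg d * Uᴴ).PosSemidef := (dg_posSemidef hd).mul_mul_conjTranspose_same U

theorem pow_eq (h : Spec M U l) (k : ℕ) : M ^ k = U * dg (fun i => l i ^ k) * Uᴴ := by
  induction k with
  | zero =>
    simp only [pow_zero]
    rw [dg_const, Complex.ofReal_one, one_smul, Matrix.mul_one, h.mul_ct]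
  | succ k ih =>
    rw [pow_succ, ih]
    conv_lhs => rw [h.eq]
    calc U * dg (fun i => l i ^ k) * Uᴴ * (U * dg l * Uᴴ)
        = U * (dg (fun i => l i ^ k) * (Uᴴ * U) * dg l) * Uᴴ := by simp only [Matrix.mul_assoc]
      _ = _ := by
          rw [h.ct_mul, Matrix.mul_one, dg_mul]
          simp only [pow_succ]

end Spec

theorem tp_nonneg {M : Matrix ι ι ℂ} (hM : M.IsHermitian) (k : ℕ) : 0 ≤ tp k M := by
  obtain ⟨U, l, h⟩ := exists_spec hM
  rw [h.tp_eq]
  exact Finset.sum_nonneg fun i _ => pow_nonneg (le_max_right _ _) _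

theorem pp_posSemidef {M : Matrix ι ι ℂ} (hM : M.IsHermitian) : (pp M).PosSemidef := by
  obtain ⟨U, l, h⟩ := exists_spec hM
  rw [h.pp_eq]
  exact Spec.conj_posSemidef U fun i => le_max_right _ _

theorem pp_sub_posSemidef {M : Matrix ι ι ℂ} (hM : M.IsHermitian) : (pp M - M).PosSemidef := by
  obtain ⟨U, l, h⟩ := exists_spec hM
  rw [h.pp_eq]
  conv => enter [1, 2]; rw [h.eq]
  rw [← Matrix.sub_mul, ← Matrix.mul_sub, dg_sub]
  exact Spec.conj_posSemidef U fun i => sub_nonneg.2 (le_max_left _ _)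

theorem tp_pp {M : Matrix ι ι ℂ} (hM : M.IsHermitian) (k : ℕ) : tp k (pp M) = tp k M := by
  obtain ⟨U, l, h⟩ := exists_spec hM
  rw [h.pp_spec.tp_eq, h.tp_eq]
  simp

theorem tp_of_posSemidef {V : Matrix ι ι ℂ} (hV : V.PosSemidef) (k : ℕ) :
    tp k V = (V ^ k).trace.re := by
  obtain ⟨U, l, h⟩ := exists_spec hV.isHermitian
  rw [h.tp_eq, h.pow_eq, h.trace_conj, Complex.ofReal_re]
  exact Finset.sum_congr rfl fun i _ => by rw [max_eq_left (h.nonneg_of_posSemidef hV i)]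

theorem qf_nonneg {V : Matrix ι ι ℂ} (hV : V.PosSemidef) (c : ι → ℂ) : 0 ≤ qf V c :=
  (Complex.nonneg_iff.1 (hV.dotProduct_mulVec_nonneg c)).1

theorem posSemidef_of_qf {V : Matrix ι ι ℂ} (hV : V.IsHermitian) (h : ∀ c, 0 ≤ qf V c) :
    V.PosSemidef := by
  obtain ⟨U, l, hs⟩ := exists_spec hV
  rw [hs.eq]
  refine Spec.conj_posSemidef U fun i => ?_
  have h1 := h (U *ᵥ Pi.single i 1)
  rw [hs.eq, Spec.qf_conj, Matrix.mulVec_mulVec, hs.ct_mul, Matrix.one_mulVec,
    Finset.sum_eq_single i] at h1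
  · simpa using h1
  · intro j _ hj
    simp [hj]
  · simp

theorem qf_sub (M N : Matrix ι ι ℂ) (c : ι → ℂ) : qf (M - N) c = qf M c - qf N c := by
  simp [qf, Matrix.sub_mulVec, dotProduct_sub]

theorem qf_dg (d : ι → ℝ) (c : ι → ℂ) : qf (dg d) c = ∑ i, d i * ‖c i‖ ^ 2 := by
  simpa using Spec.qf_conj (1 : Matrix ι ι ℂ) d c

theorem ec_add (r s : ℝ) : ec (r + s) = ec r * ec s := by
  simp [ec, AddChar.map_add_eq_mul]

theorem ec_zero : ec 0 = 1 := by simp [ec]

theorem norm_ec (r : ℝ) : ‖ec r‖ = 1 := by simp [ec]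

theorem ec_neg (r : ℝ) : ec (-r) = conj (ec r) := by
  simp [ec, AddChar.map_neg_eq_inv]

theorem ec_eq (r : ℝ) : ec r = Complex.exp (((2 * Real.pi * r : ℝ) : ℂ) * Complex.I) :=
  Real.fourierChar_apply r

@[fun_prop] theorem continuous_ec : Continuous ec :=
  continuous_subtype_val.comp Real.continuous_fourierChar

@[simp] theorem part_glue_zero {n : ℕ} (x : E3) (y : EN n) : part (glue x y) 0 = x := rfl

theorem sw_glue {n : ℕ} (i j : Fin n) (x : E3) (y : EN n) :
    sw i.succ j.succ (glue x y) = glue x (sw i j y) := by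
  ext ⟨p, k⟩
  refine Fin.cases ?_ (fun q => ?_) p
  · simp [sw, glue, Equiv.swap_apply_of_ne_of_ne (Fin.succ_ne_zero i).symm
      (Fin.succ_ne_zero j).symm]
  · have h1 : Equiv.swap i.succ j.succ q.succ = (Equiv.swap i j q).succ :=
      ((Fin.succ_injective n).map_swap i j q).symm
    simp [sw, glue, h1]

theorem sw_glue_glue {n : ℕ} (x x' : E3) (y : EN n) :
    sw 0 1 (glue x (glue x' y)) = glue x' (glue x y) := by
  ext ⟨p, k⟩
  refine Fin.cases ?_ (fun q => ?_) p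
  · simp only [sw, Equiv.swap_apply_left]
    rfl
  · refine Fin.cases ?_ (fun r => ?_) q
    · have h1 : Equiv.swap (0 : Fin (n + 2)) 1 (Fin.succ 0) = 0 := Equiv.swap_apply_right _ _
      simp only [sw, h1]
      rfl
    · have h1 : Equiv.swap (0 : Fin (n + 2)) 1 r.succ.succ = r.succ.succ :=
        Equiv.swap_apply_of_ne_of_ne (Fin.succ_ne_zero _)
          (fun h => Fin.succ_ne_zero r (Fin.succ_injective _ h))
      simp only [sw, h1]
      rfl

theorem part_sw {n : ℕ} (i j k : Fin n) (z : EN n) :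
    part (sw i j z) k = part z (Equiv.swap i j k) := rfl

/-- the exchange of two particles is a linear isometry -/
theorem exists_swIso {n : ℕ} (i j : Fin n) :
    ∃ L : EN n ≃ₗᵢ[ℝ] EN n, ∀ z, L z = sw i j z := by
  refine ⟨LinearIsometryEquiv.piLpCongrLeft 2 ℝ ℝ
    ((Equiv.swap i j).prodCongr (Equiv.refl (Fin 3))), fun z => ?_⟩
  ext ⟨p, k⟩
  simp [sw, LinearIsometryEquiv.piLpCongrLeft_apply, Equiv.piCongrLeft'_apply]

theorem mp_sw {n : ℕ} (i j : Fin n) :
    MeasurePreserving (sw i j : EN n → EN n) volume volume := by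
  obtain ⟨L, hL⟩ := exists_swIso i j
  have h : (sw i j : EN n → EN n) = L := funext fun z => (hL z).symm
  rw [h]
  exact L.measurePreserving

end Pool.Agent.P.MP_9f4f5e_mp.LT
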