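import Pool.Agent.P.MP_9f4f5e_mp.LT.Base

set_option autoImplicit false
set_option linter.unusedSectionVars false

open MeasureTheory Matrix
open scoped ENNReal ComplexOrder ComplexConjugate RealInnerProductSpace FourierTransform

noncomputable section

namespace Pool.Agent.P.MP_9f4f5e_mp.LT

/-- basic integral. Hint: Real.integral_rpow_mul_exp_neg_mul_Ioi or
integral_pow_mul_exp / Real.Gamma_nat_eq_factorial; integrableOn_rpow_mul_exp_neg_mul_rpow. -/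
theorem integral_pow_exp (k : ℕ) {c : ℝ} (hc : 0 < c) :
    IntegrableOn (fun s : ℝ => s ^ k * Real.exp (-(c * s))) (Set.Ioi 0) ∧
      ∫ s in Set.Ioi (0 : ℝ), s ^ k * Real.exp (-(c * s)) = k.factorial / c ^ (k + 1) := by
  have hk : (0 : ℝ) ≤ k := Nat.cast_nonneg k
  constructor
  · have h := integrableOn_rpow_mul_exp_neg_mul_rpow (s := (k : ℝ)) (p := 1) (b := c)
      (by linarith) one_pos hc
    simpa only [Real.rpow_natCast, Real.rpow_one, neg_mul] using h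
  · have h := Real.integral_rpow_mul_exp_neg_mul_Ioi (a := (k : ℝ) + 1) (r := c) (by linarith) hc
    simp only [add_sub_cancel_right, Real.rpow_natCast, Real.Gamma_nat_eq_factorial] at h
    rw [h, ← Nat.cast_succ, Real.rpow_natCast, one_div, inv_pow, div_eq_inv_mul]

theorem c1_poly (e : ℕ → ℝ) (n : ℕ) {c : ℝ} (hc : 0 < c) :
    IntegrableOn (fun s : ℝ => (∑ k ∈ Finset.range n, e k * s ^ k) * Real.exp (-(c * s)))
      (Set.Ioi 0) ∧
    ∫ s in Set.Ioi (0 : ℝ), (∑ k ∈ Finset.range n, e k * s ^ k) * Real.exp (-(c * s)) =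
      ∑ k ∈ Finset.range n, e k * (k.factorial / c ^ (k + 1)) := by
  have h : (fun s : ℝ => (∑ k ∈ Finset.range n, e k * s ^ k) * Real.exp (-(c * s))) =
      fun s : ℝ => ∑ k ∈ Finset.range n, e k * (s ^ k * Real.exp (-(c * s))) := by
    funext s
    rw [Finset.sum_mul]
    exact Finset.sum_congr rfl fun k _ => mul_assoc _ _ _
  have hi : ∀ k ∈ Finset.range n, Integrable (fun s : ℝ => e k * (s ^ k * Real.exp (-(c * s))))
      (volume.restrict (Set.Ioi 0)) := fun k _ => (integral_pow_exp k hc).1.const_mul _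
  rw [h]
  refine ⟨integrable_finsetSum _ hi, ?_⟩
  rw [integral_finsetSum _ hi]
  exact Finset.sum_congr rfl fun k _ => by rw [integral_const_mul, (integral_pow_exp k hc).2]

theorem c1_two (p0 p1 p2 p3 q0 q1 q2 q3 : ℝ) {a b x y w : ℝ} (hc : 0 < a + b)
    (hw : w = (a + b)⁻¹) (hx : x = a * w) (hy : y = b * w) {f : ℝ → ℝ}
    (hf : ∀ s, f s = (p0 + p1 * (a * s) + p2 * (a * s) ^ 2 + p3 * (a * s) ^ 3) * Real.exp (-(a * s)) *
      ((q0 + q1 * (b * s) + q2 * (b * s) ^ 2 + q3 * (b * s) ^ 3) * Real.exp (-(b * s)))) :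
    IntegrableOn f (Set.Ioi 0) ∧ ∫ s in Set.Ioi (0 : ℝ), f s =
      w * (p0 * x ^ 0 * (1 * q0 * y ^ 0 + 1 * q1 * y ^ 1 + 2 * q2 * y ^ 2 + 6 * q3 * y ^ 3) +
        p1 * x ^ 1 * (1 * q0 * y ^ 0 + 2 * q1 * y ^ 1 + 6 * q2 * y ^ 2 + 24 * q3 * y ^ 3) +
        p2 * x ^ 2 * (2 * q0 * y ^ 0 + 6 * q1 * y ^ 1 + 24 * q2 * y ^ 2 + 120 * q3 * y ^ 3) +
        p3 * x ^ 3 * (6 * q0 * y ^ 0 + 24 * q1 * y ^ 1 + 120 * q2 * y ^ 2 + 720 * q3 * y ^ 3)) := by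
  obtain ⟨h1, h2⟩ := c1_poly (fun m => [p0 * q0 * (a ^ 0 * b ^ 0),
    p0 * q1 * (a ^ 0 * b ^ 1) + p1 * q0 * (a ^ 1 * b ^ 0),
    p0 * q2 * (a ^ 0 * b ^ 2) + p1 * q1 * (a ^ 1 * b ^ 1) + p2 * q0 * (a ^ 2 * b ^ 0),
    p0 * q3 * (a ^ 0 * b ^ 3) + p1 * q2 * (a ^ 1 * b ^ 2) + p2 * q1 * (a ^ 2 * b ^ 1) + p3 * q0 * (a ^ 3 * b ^ 0),
    p1 * q3 * (a ^ 1 * b ^ 3) + p2 * q2 * (a ^ 2 * b ^ 2) + p3 * q1 * (a ^ 3 * b ^ 1),
    p2 * q3 * (a ^ 2 * b ^ 3) + p3 * q2 * (a ^ 3 * b ^ 2),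
    p3 * q3 * (a ^ 3 * b ^ 3)].getD m 0) 7 hc
  have e : f = fun s : ℝ => (∑ m ∈ Finset.range 7, [p0 * q0 * (a ^ 0 * b ^ 0),
    p0 * q1 * (a ^ 0 * b ^ 1) + p1 * q0 * (a ^ 1 * b ^ 0),
    p0 * q2 * (a ^ 0 * b ^ 2) + p1 * q1 * (a ^ 1 * b ^ 1) + p2 * q0 * (a ^ 2 * b ^ 0),
    p0 * q3 * (a ^ 0 * b ^ 3) + p1 * q2 * (a ^ 1 * b ^ 2) + p2 * q1 * (a ^ 2 * b ^ 1) + p3 * q0 * (a ^ 3 * b ^ 0),
    p1 * q3 * (a ^ 1 * b ^ 3) + p2 * q2 * (a ^ 2 * b ^ 2) + p3 * q1 * (a ^ 3 * b ^ 1),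
    p2 * q3 * (a ^ 2 * b ^ 3) + p3 * q2 * (a ^ 3 * b ^ 2),
    p3 * q3 * (a ^ 3 * b ^ 3)].getD m 0 * s ^ m) *
      Real.exp (-((a + b) * s)) := by
    funext s
    have h3 : Real.exp (-((a + b) * s)) = Real.exp (-(a * s)) * Real.exp (-(b * s)) := by
      rw [← Real.exp_add]
      congr 1
      ring
    rw [hf, h3]
    simp only [Finset.sum_range_succ, Finset.sum_range_zero, List.getD_cons_zero,
      List.getD_cons_succ]
    ring
  rw [e]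
  refine ⟨h1, h2.trans ?_⟩
  simp only [Finset.sum_range_succ, Finset.sum_range_zero, List.getD_cons_zero,
    List.getD_cons_succ, div_eq_mul_inv, ← inv_pow, ← hw, Nat.factorial, Nat.succ_eq_add_one]
  rw [hx, hy]
  push_cast
  ring

/-- Hint: prove once a lemma for a polynomial of degree 6 with coefficients c0..c6 times
exp (-(c s)) and use it three times. -/
theorem integral_ph_sq {ε : ℝ} (hε : 0 < ε) :
    IntegrableOn (fun s : ℝ => ph (s / ε) ^ 2) (Set.Ioi 0) ∧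
      ∫ s in Set.Ioi (0 : ℝ), ph (s / ε) ^ 2 = 14237 / 17956 * ε := by
  have hi : 0 < ε⁻¹ := inv_pos.2 hε
  obtain ⟨h1, h2⟩ := c1_two (100 / 67) (-57 / 67) (36 / 67) (-8 / 67) (100 / 67) (-57 / 67)
    (36 / 67) (-8 / 67) (a := ε⁻¹) (b := ε⁻¹) (x := 1 / 2) (y := 1 / 2) (w := ε / 2)
    (by linarith) (by field_simp; norm_num) (by field_simp) (by field_simp)
    (f := fun s : ℝ => ph (s / ε) ^ 2) fun s => by
      rw [ph, div_eq_inv_mul s ε]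
      ring
  refine ⟨h1, h2.trans ?_⟩
  ring

theorem integral_ff_sq {d : ℝ} (hd : 0 < d) :
    IntegrableOn (fun s : ℝ => ff (s / d) ^ 2) (Set.Ioi 0) ∧
      ∫ s in Set.Ioi (0 : ℝ), ff (s / d) ^ 2 = 62509 / 80000 * d := by
  have hi : 0 < d⁻¹ := inv_pos.2 hd
  obtain ⟨h1, h2⟩ := c1_two 1 (85 / 100) (-57 / 100) (13 / 100) 1 (85 / 100) (-57 / 100)
    (13 / 100) (a := d⁻¹) (b := d⁻¹) (x := 1 / 2) (y := 1 / 2) (w := d / 2)
    (by linarith) (by field_simp; norm_num) (by field_simp) (by field_simp)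
    (f := fun s : ℝ => ff (s / d) ^ 2) fun s => by
      rw [ff, div_eq_inv_mul s d]
      ring
  refine ⟨h1, h2.trans ?_⟩
  ring

/-- Hint: c = 1/ε + 1/d; the final identity is field_simp; ring (checked with exact arithmetic:
the value is ε ∑ p_k q_l (k+l)! y^(k+1) (1-y)^l, y = d/(d+ε)). -/
theorem integral_ph_ff {ε d : ℝ} (hε : 0 < ε) (hd : 0 < d) :
    IntegrableOn (fun s : ℝ => ph (s / ε) * ff (s / d)) (Set.Ioi 0) ∧
      ∫ s in Set.Ioi (0 : ℝ), ph (s / ε) * ff (s / d) = ε * gt (d / ε) := by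
  have hi : 0 < ε⁻¹ := inv_pos.2 hε
  have hj : 0 < d⁻¹ := inv_pos.2 hd
  have hs : 0 < ε + d := by linarith
  obtain ⟨h1, h2⟩ := c1_two (100 / 67) (-57 / 67) (36 / 67) (-8 / 67) 1 (85 / 100) (-57 / 100)
    (13 / 100) (a := ε⁻¹) (b := d⁻¹) (x := 1 - (1 + d / ε)⁻¹) (y := (1 + d / ε)⁻¹)
    (w := ε * (1 - (1 + d / ε)⁻¹))
    (by linarith) (by field_simp; ring) (by field_simp) (by field_simp; ring)
    (f := fun s : ℝ => ph (s / ε) * ff (s / d)) fun s => by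
      rw [ph, ff, div_eq_inv_mul s ε, div_eq_inv_mul s d]
      ring
  refine ⟨h1, h2.trans ?_⟩
  rw [gt]
  generalize (1 + d / ε)⁻¹ = u
  ring

end Pool.Agent.P.MP_9f4f5e_mp.LT
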