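import Pool.Agent.P.MP_9f4f5e_mp.LT.Base

set_option autoImplicit false
set_option linter.unusedSectionVars false

open MeasureTheory Matrix
open scoped ENNReal ComplexOrder ComplexConjugate RealInnerProductSpace FourierTransform

noncomputable section

namespace Pool.Agent.P.MP_9f4f5e_mp.LT

theorem c2_pow (k : ℕ) :
    IntegrableOn (fun x : ℝ => (1 + x)⁻¹ ^ (k + 2)) (Set.Ioi 0) ∧
      ∫ x in Set.Ioi (0 : ℝ), (1 + x)⁻¹ ^ (k + 2) = 1 / ((k : ℝ) + 1) := by
  have hk : (k : ℝ) + 1 ≠ 0 := by positivity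
  have hd : ∀ x ∈ Set.Ici (0 : ℝ), HasDerivAt (fun x : ℝ => -(1 / ((k : ℝ) + 1)) * (1 + x)⁻¹ ^ (k + 1))
      ((1 + x)⁻¹ ^ (k + 2)) x := fun x hx => by
    have h0 : (1 + x) ≠ 0 := by have : (0 : ℝ) ≤ x := hx; positivity
    have h1 := ((((hasDerivAt_id' x).const_add 1).fun_inv h0).fun_pow (k + 1)).const_mul
      (-(1 / ((k : ℝ) + 1)))
    refine h1.congr_deriv ?_
    simp only [Nat.add_sub_cancel, div_eq_mul_inv (-1 : ℝ), ← inv_pow]
    generalize (1 + x)⁻¹ = u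
    push_cast
    field_simp
    ring
  have ht : Filter.Tendsto (fun x : ℝ => -(1 / ((k : ℝ) + 1)) * (1 + x)⁻¹ ^ (k + 1)) Filter.atTop
      (nhds 0) := by
    have a : Filter.Tendsto (fun x : ℝ => (1 + x)⁻¹) Filter.atTop (nhds 0) :=
      tendsto_inv_atTop_zero.comp (Filter.tendsto_atTop_add_const_left _ _ Filter.tendsto_id)
    simpa using (a.pow (k + 1)).const_mul (-(1 / ((k : ℝ) + 1)))
  have hn : ∀ x ∈ Set.Ioi (0 : ℝ), 0 ≤ (1 + x)⁻¹ ^ (k + 2) := fun x hx => by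
    have : (0 : ℝ) < x := hx
    positivity
  refine ⟨integrableOn_Ioi_deriv_of_nonneg' hd hn ht, ?_⟩
  rw [integral_Ioi_of_hasDerivAt_of_nonneg' hd hn ht]
  simp

/-- the coefficients of one minus gt -/
def c2_co : Fin 7 → ℝ :=
  ![3 / 134, -(10873 / 3350), 83979 / 3350, -(200499 / 3350), 121134 / 1675, -(14904 / 335),
    3744 / 335]

theorem c2_sq (x : ℝ) : (1 - gt x) ^ 2 =
    ∑ j : Fin 7, ∑ k : Fin 7, c2_co j * c2_co k * (1 + x)⁻¹ ^ ((j : ℕ) + (k : ℕ) + 2) := by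
  have : 1 - gt x = ∑ j : Fin 7, c2_co j * (1 + x)⁻¹ ^ ((j : ℕ) + 1) := by
    unfold gt
    generalize (1 + x)⁻¹ = u
    simp [Fin.sum_univ_succ, c2_co]
    ring
  rw [this, sq, Finset.sum_mul_sum]
  exact Finset.sum_congr rfl fun j _ => Finset.sum_congr rfl fun k _ => by ring

/-- Hint: (1 - gt x)^2 = ∑ e_k (1+x)⁻¹^k, k = 2..14, and ∫ x in Ioi 0, (1+x)⁻¹^(k+2) = 1/(k+1)
(integral_Ioi_of_hasDerivAt_of_tendsto or integral_Ioi_rpow_of_lt after a shift). -/
theorem integral_one_sub_gt :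
    IntegrableOn (fun x : ℝ => (1 - gt x) ^ 2) (Set.Ioi 0) ∧
      ∫ x in Set.Ioi (0 : ℝ), (1 - gt x) ^ 2 = 117916079 / 370342500 := by
  have a : ∀ j k : Fin 7, Integrable (fun x : ℝ => c2_co j * c2_co k *
      (1 + x)⁻¹ ^ ((j : ℕ) + (k : ℕ) + 2)) (volume.restrict (Set.Ioi 0)) := fun j k =>
    (c2_pow _).1.const_mul _
  simp only [c2_sq]
  refine ⟨integrable_finsetSum _ fun j _ => integrable_finsetSum _ fun k _ => a j k, ?_⟩
  rw [integral_finsetSum _ fun j _ => integrable_finsetSum _ fun k _ => a j k]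
  simp only [integral_finsetSum _ fun k _ => a _ k, integral_const_mul, (c2_pow _).2]
  simp [Fin.sum_univ_succ, c2_co]
  norm_num

/-- Hint: translate, reflect (integral_comp_abs; integrability on Iic 0 by reflection), scale
(integral_comp_div or integral_comp_mul_left_Ioi); 2 * 117916079 / 370342500 ≤ 637/1000. -/
theorem integral_one_sub_gt_abs (a : ℝ) {ε : ℝ} (hε : 0 < ε) :
    Integrable (fun t : ℝ => (1 - gt (|a - t| / ε)) ^ 2) ∧
      ∫ t : ℝ, (1 - gt (|a - t| / ε)) ^ 2 ≤ 637 / 1000 * ε := by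
  obtain ⟨i0, e0⟩ := integral_one_sub_gt
  let F : ℝ → ℝ := fun x => (1 - gt |x|) ^ 2
  have i1 : IntegrableOn F (Set.Ioi 0) :=
    i0.congr_fun (fun x hx => by simp only [F, abs_of_pos (show 0 < x from hx)]) measurableSet_Ioi
  have i2 : IntegrableOn F (Set.Iic 0) := by
    rw [← Measure.map_neg_eq_self (volume : Measure ℝ)]
    let m : MeasurableEmbedding fun x : ℝ => -x := (Homeomorph.neg ℝ).measurableEmbedding
    rw [m.integrableOn_map_iff]
    simp_rw [Function.comp_def, F, abs_neg, Set.neg_preimage, Set.neg_Iic, neg_zero]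
    exact Iff.mpr integrableOn_Ici_iff_integrableOn_Ioi i1
  have i3 : Integrable F := by
    rw [← integrableOn_univ, ← Set.Iic_union_Ioi (a := (0 : ℝ))]
    exact i2.union i1
  have e3 : ∫ x, F x = 2 * (117916079 / 370342500) := by
    rw [← e0]
    exact integral_comp_abs (f := fun x => (1 - gt x) ^ 2)
  have e : ∀ t : ℝ, (1 - gt (|a - t| / ε)) ^ 2 = F ((a - t) / ε) := fun t => by
    simp only [F, abs_div, abs_of_pos hε]
  simp only [e]
  refine ⟨(i3.comp_div hε.ne').comp_sub_left a, ?_⟩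
  rw [integral_sub_left_eq_self (fun t => F (t / ε)) volume a, Measure.integral_comp_div, e3,
    abs_of_pos hε, smul_eq_mul]
  linarith

end Pool.Agent.P.MP_9f4f5e_mp.LT
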