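import Pool.Agent.P.MP_9f4f5e_mp.LT.C1

set_option autoImplicit false
set_option linter.unusedSectionVars false

open MeasureTheory Matrix
open scoped ENNReal ComplexOrder ComplexConjugate RealInnerProductSpace FourierTransform

noncomputable section

namespace Pool.Agent.P.MP_9f4f5e_mp.LT

variable {ι : Type} [Fintype ι] [DecidableEq ι]

theorem c3_cs {μ : Measure ℝ} {f g : ℝ → ℝ} (hf : MemLp f 2 μ) (hg : MemLp g 2 μ)
    (hA : 0 < ∫ s, f s ^ 2 ∂μ) :
    (∫ s, f s * g s ∂μ) ^ 2 ≤ (∫ s, f s ^ 2 ∂μ) * ∫ s, g s ^ 2 ∂μ := by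
  have h1 : Integrable (fun s => f s ^ 2) μ := hf.integrable_sq
  have h2 : Integrable (fun s => g s ^ 2) μ := hg.integrable_sq
  have h3 : Integrable (fun s => f s * g s) μ := hf.integrable_mul hg
  have key : ∀ a b : ℝ, 0 ≤ a ^ 2 * (∫ s, g s ^ 2 ∂μ) - 2 * a * b * (∫ s, f s * g s ∂μ) +
      b ^ 2 * ∫ s, f s ^ 2 ∂μ := by
    intro a b
    have h4 : Integrable (fun s => a ^ 2 * g s ^ 2 - 2 * a * b * (f s * g s)) μ :=
      (h2.const_mul _).sub (h3.const_mul _)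
    rw [← integral_const_mul, ← integral_const_mul, ← integral_const_mul,
      ← integral_sub (h2.const_mul _) (h3.const_mul _), ← integral_add h4 (h1.const_mul _)]
    refine integral_nonneg fun s => ?_
    have h5 : a ^ 2 * g s ^ 2 - 2 * a * b * (f s * g s) + b ^ 2 * f s ^ 2 =
        (a * g s - b * f s) ^ 2 := by ring
    simp only [Pi.zero_apply, h5]
    positivity
  have h6 := key (∫ s, f s ^ 2 ∂μ) (∫ s, f s * g s ∂μ)
  generalize (∫ s, f s ^ 2 ∂μ) = A at hA h6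
  generalize (∫ s, f s * g s ∂μ) = I at h6
  generalize (∫ s, g s ^ 2 ∂μ) = B at h6
  have h7 : A ^ 2 * B - 2 * A * I * I + I ^ 2 * A = A * (A * B - I ^ 2) := by ring
  rw [h7] at h6
  exact sub_nonneg.1 (nonneg_of_mul_nonneg_right h6 hA)

theorem c3_ff_cont (d : ℝ) : Continuous fun s : ℝ => ff (s / d) := by
  unfold ff
  fun_prop

theorem c3_ph_cont (d : ℝ) : Continuous fun s : ℝ => ph (s / d) := by
  unfold ph
  fun_prop

theorem c3_ff_mem {d : ℝ} (hd : 0 < d) :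
    MemLp (fun s : ℝ => ff (s / d)) 2 (volume.restrict (Set.Ioi 0)) :=
  (memLp_two_iff_integrable_sq (c3_ff_cont d).aestronglyMeasurable).2 (integral_ff_sq hd).1

theorem c3_ph_mem {d : ℝ} (hd : 0 < d) :
    MemLp (fun s : ℝ => ph (s / d)) 2 (volume.restrict (Set.Ioi 0)) :=
  (memLp_two_iff_integrable_sq (c3_ph_cont d).aestronglyMeasurable).2 (integral_ph_sq hd).1

/-- Cauchy-Schwarz in the energy variable. Hint: with F s = ∑ i, c i * ff (s / d i),
ε * ∑ i, c i * gt (d i / ε) = ∫ s in Ioi 0, ph (s / ε) * F s (integral_ph_ff); the norm of it is at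
most ∫ |ph (s/ε)| * ‖F s‖; use integral_mul_le_Lp_mul_Lq_of_nonneg, or for all r > 0
2 |x| |y| ≤ r x^2 + y^2 / r and a discriminant argument; integral_ph_sq. -/
theorem kernel_cs (d : ι → ℝ) (hd : ∀ i, 0 < d i) (c : ι → ℂ) {ε : ℝ} (hε : 0 < ε) :
    IntegrableOn (fun s : ℝ => ‖∑ i, c i * (ff (s / d i) : ℂ)‖ ^ 2) (Set.Ioi 0) ∧
      ε * ‖∑ i, c i * (gt (d i / ε) : ℂ)‖ ^ 2
        ≤ 14237 / 17956 * ∫ s in Set.Ioi (0 : ℝ), ‖∑ i, c i * (ff (s / d i) : ℂ)‖ ^ 2 := by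
  have hF : MemLp (fun s : ℝ => ∑ i, c i * (ff (s / d i) : ℂ)) 2
      (volume.restrict (Set.Ioi 0)) :=
    memLp_finsetSum _ fun i _ => ((c3_ff_mem (hd i)).ofReal (K := ℂ)).const_mul (c i)
  refine ⟨hF.norm.integrable_sq, ?_⟩
  have h1 : (ε : ℂ) * ∑ i, c i * (gt (d i / ε) : ℂ) =
      ∫ s in Set.Ioi (0 : ℝ), (ph (s / ε) : ℂ) * ∑ i, c i * (ff (s / d i) : ℂ) := by
    have h2 : ∀ s : ℝ, (ph (s / ε) : ℂ) * ∑ i, c i * (ff (s / d i) : ℂ) =
        ∑ i, c i * ((ph (s / ε) * ff (s / d i) : ℝ) : ℂ) := by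
      intro s
      rw [Finset.mul_sum]
      refine Finset.sum_congr rfl fun i _ => ?_
      push_cast
      ring
    simp only [h2]
    have h8 : ∀ i, Integrable (fun s : ℝ => c i * ((ph (s / ε) * ff (s / d i) : ℝ) : ℂ))
        (volume.restrict (Set.Ioi 0)) := fun i =>
      ((integral_ph_ff hε (hd i)).1.ofReal (𝕜 := ℂ)).const_mul _
    rw [integral_finsetSum _ fun i _ => h8 i, Finset.mul_sum]
    refine Finset.sum_congr rfl fun i _ => ?_
    rw [integral_const_mul, integral_complex_ofReal, (integral_ph_ff hε (hd i)).2]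
    push_cast
    ring
  have h3 : ε * ‖∑ i, c i * (gt (d i / ε) : ℂ)‖ ≤
      ∫ s in Set.Ioi (0 : ℝ), ‖ph (s / ε)‖ * ‖∑ i, c i * (ff (s / d i) : ℂ)‖ := by
    have h4 := norm_integral_le_integral_norm (μ := volume.restrict (Set.Ioi (0 : ℝ)))
      fun s : ℝ => (ph (s / ε) : ℂ) * ∑ i, c i * (ff (s / d i) : ℂ)
    rw [← h1, norm_mul, Complex.norm_real, Real.norm_of_nonneg hε.le] at h4
    simpa only [norm_mul, Complex.norm_real] using h4
  have h5 : ∫ s in Set.Ioi (0 : ℝ), ‖ph (s / ε)‖ ^ 2 = 14237 / 17956 * ε := by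
    simp only [Real.norm_eq_abs, sq_abs]
    exact (integral_ph_sq hε).2
  have h6 := c3_cs (c3_ph_mem hε).norm hF.norm (by rw [h5]; positivity)
  rw [h5] at h6
  have h7 := (pow_le_pow_left₀ (by positivity) h3 2).trans h6
  refine le_of_mul_le_mul_left ?_ hε
  calc ε * (ε * ‖∑ i, c i * (gt (d i / ε) : ℂ)‖ ^ 2)
      = (ε * ‖∑ i, c i * (gt (d i / ε) : ℂ)‖) ^ 2 := by ring
    _ ≤ _ := h7
    _ = _ := by ring

/-- Sum over an orthonormal basis. Hint: kernel_cs with c i = conj (u i) * U i j (terms with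
ε j = 0 vanish), integral_finset_sum, Spec.parseval applied to i ↦ u i * ff (s / d i) (take
conjugates), integral_ff_sq, 14237/17956 * (62509/80000) ≤ 31/50. -/
theorem kernel_sum {W U : Matrix ι ι ℂ} {l : ι → ℝ} (h : Spec W U l) (d : ι → ℝ)
    (hd : ∀ i, 0 < d i) (ε : ι → ℝ) (hε : ∀ j, 0 ≤ ε j) (u : ι → ℂ) :
    ∑ j, ε j * ‖∑ i, conj (u i) * U i j * (gt (d i / ε j) : ℂ)‖ ^ 2
      ≤ 31 / 50 * ∑ i, d i * ‖u i‖ ^ 2 := by
  have h1 : ∀ j, ε j * ‖∑ i, conj (u i) * U i j * (gt (d i / ε j) : ℂ)‖ ^ 2 ≤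
      14237 / 17956 * ∫ s in Set.Ioi (0 : ℝ),
        ‖∑ i, conj (u i) * U i j * (ff (s / d i) : ℂ)‖ ^ 2 := by
    intro j
    rcases (hε j).eq_or_lt with h0 | h0
    · rw [← h0, zero_mul]
      exact mul_nonneg (by norm_num) (integral_nonneg fun s => by positivity)
    · exact (kernel_cs d hd (fun i => conj (u i) * U i j) h0).2
  have h2 : ∀ s : ℝ, ∑ j, ‖∑ i, conj (u i) * U i j * (ff (s / d i) : ℂ)‖ ^ 2 =
      ∑ i, ‖u i‖ ^ 2 * ff (s / d i) ^ 2 := by
    intro s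
    have h3 := h.parseval fun i => u i * (ff (s / d i) : ℂ)
    have h4 : ∀ j, ‖∑ i, conj (u i) * U i j * (ff (s / d i) : ℂ)‖ =
        ‖(Uᴴ *ᵥ fun i => u i * (ff (s / d i) : ℂ)) j‖ := by
      intro j
      rw [← Complex.norm_conj, map_sum]
      congr 1
      simp only [Matrix.mulVec, dotProduct, Matrix.conjTranspose_apply, Complex.star_def, map_mul,
        Complex.conj_conj, Complex.conj_ofReal]
      exact Finset.sum_congr rfl fun i _ => by ring
    simp only [h4, h3]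
    refine Finset.sum_congr rfl fun i _ => ?_
    rw [norm_mul, mul_pow, Complex.norm_real, Real.norm_eq_abs, sq_abs]
  refine (Finset.sum_le_sum fun j _ => h1 j).trans ?_
  rw [← Finset.mul_sum, ← integral_finsetSum _ fun j _ =>
    (kernel_cs d hd (fun i => conj (u i) * U i j) one_pos).1]
  simp only [h2]
  rw [integral_finsetSum _ fun i _ => (integral_ff_sq (hd i)).1.const_mul _, Finset.mul_sum,
    Finset.mul_sum]
  refine Finset.sum_le_sum fun i _ => ?_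
  rw [integral_const_mul, (integral_ff_sq (hd i)).2]
  have h5 : 0 ≤ d i * ‖u i‖ ^ 2 := mul_nonneg (hd i).le (sq_nonneg _)
  linarith

end Pool.Agent.P.MP_9f4f5e_mp.LT
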