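import Pool.Agent.P.MP_9f4f5e_mp.LT.A2
import Pool.Agent.P.MP_9f4f5e_mp.LT.C3

set_option autoImplicit false
set_option linter.unusedSectionVars false

open MeasureTheory Matrix
open scoped ENNReal ComplexOrder ComplexConjugate RealInnerProductSpace FourierTransform

noncomputable section

namespace Pool.Agent.P.MP_9f4f5e_mp.LT

variable {ι : Type} [Fintype ι] [DecidableEq ι]

theorem c4_norm (B : Matrix ι ι ℂ) (u : ι → ℂ) (j : ι) :
    ‖(Bᴴ *ᵥ u) j‖ = ‖∑ i, conj (u i) * B i j‖ := by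
  rw [← Complex.norm_conj]
  congr 1
  simp only [Matrix.mulVec, dotProduct, Matrix.conjTranspose_apply, Complex.star_def, map_sum,
    map_mul, Complex.conj_conj]
  exact Finset.sum_congr rfl fun i _ => mul_comm _ _

theorem c4_par (x y : ℂ) : ‖x + y‖ ^ 2 ≤ 2 * ‖x‖ ^ 2 + 2 * ‖y‖ ^ 2 := by
  have h1 := norm_add_le x y
  have h2 := norm_nonneg (x + y)
  nlinarith [sq_nonneg (‖x‖ - ‖y‖), norm_nonneg x, norm_nonneg y]

/-- Pointwise Rumin bound. Hint: w j = max (l j) 0, ε j = 31/25 * w j,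
B = Matrix.of fun i j => U i j * (1 - gt (d i / ε j)), Z = B * dg (2 w) * Bᴴ (Spec.conj_posSemidef,
Spec.qf_conj, Spec.conj_apply hold for any matrix B). For every u:
qf W u ≤ ∑ w j ‖x j + y j‖^2 ≤ ∑ 2 w j (‖x j‖^2 + ‖y j‖^2), the x part is at most qf (dg d) u by
kernel_sum, the y part is qf Z u. Then posSemidef_of_qf and tp_one_le_trace. -/
theorem rumin_pointwise {W U : Matrix ι ι ℂ} {l : ι → ℝ} (h : Spec W U l) (d : ι → ℝ)
    (hd : ∀ i, 0 < d i) :
    tp 1 (W - dg d) ≤ ∑ j, 2 * max (l j) 0 *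
      ∑ i, ‖U i j‖ ^ 2 * (1 - gt (d i / (31 / 25 * max (l j) 0))) ^ 2 := by
  set w : ι → ℝ := fun j => max (l j) 0 with hw
  have hw0 : ∀ j, 0 ≤ w j := fun j => le_max_right _ _
  set ε : ι → ℝ := fun j => 31 / 25 * w j with hε
  have hε0 : ∀ j, 0 ≤ ε j := fun j => mul_nonneg (by norm_num) (hw0 j)
  set B : Matrix ι ι ℂ := Matrix.of fun i j => U i j * ((1 - gt (d i / ε j) : ℝ) : ℂ) with hB
  set Z : Matrix ι ι ℂ := B * dg (fun j => 2 * w j) * Bᴴ with hZ
  have hZp : Z.PosSemidef := Spec.conj_posSemidef B fun j => mul_nonneg (by norm_num) (hw0 j)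
  have hM : (W - dg d).IsHermitian := h.isHermitian.sub (dg_isHermitian d)
  have key : (Z - (W - dg d)).PosSemidef := by
    refine posSemidef_of_qf (hZp.isHermitian.sub hM) fun u => ?_
    rw [qf_sub, qf_sub, qf_dg, hZ, Spec.qf_conj]
    have e1 : qf W u = ∑ j, l j * ‖(Uᴴ *ᵥ u) j‖ ^ 2 := by
      conv_lhs => rw [h.eq]
      exact Spec.qf_conj U l u
    have k := kernel_sum h d hd ε hε0 u
    have e2 : ∑ j, l j * ‖(Uᴴ *ᵥ u) j‖ ^ 2 ≤
        ∑ j, (50 / 31 * (ε j * ‖∑ i, conj (u i) * U i j * (gt (d i / ε j) : ℂ)‖ ^ 2) +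
          2 * w j * ‖(Bᴴ *ᵥ u) j‖ ^ 2) := by
      refine Finset.sum_le_sum fun j _ => ?_
      rw [c4_norm, c4_norm]
      have e3 : ∑ i, conj (u i) * U i j =
          ∑ i, conj (u i) * U i j * (gt (d i / ε j) : ℂ) + ∑ i, conj (u i) * B i j := by
        rw [← Finset.sum_add_distrib]
        refine Finset.sum_congr rfl fun i _ => ?_
        simp only [hB, Matrix.of_apply]
        push_cast
        ring
      have e4 := c4_par (∑ i, conj (u i) * U i j * (gt (d i / ε j) : ℂ))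
        (∑ i, conj (u i) * B i j)
      rw [← e3] at e4
      have e5 : l j * ‖∑ i, conj (u i) * U i j‖ ^ 2 ≤ w j * ‖∑ i, conj (u i) * U i j‖ ^ 2 :=
        mul_le_mul_of_nonneg_right (le_max_left _ _) (sq_nonneg _)
      have e6 := mul_le_mul_of_nonneg_left e4 (hw0 j)
      have e7 : ε j = 31 / 25 * w j := rfl
      generalize ‖∑ i, conj (u i) * U i j * (gt (d i / ε j) : ℂ)‖ ^ 2 = X at e6 ⊢
      rw [e7]
      linarith
    rw [Finset.sum_add_distrib, ← Finset.mul_sum] at e2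
    rw [e1]
    linarith
  refine (tp_one_le_trace hM hZp key).trans (le_of_eq ?_)
  rw [Matrix.trace, Complex.re_sum]
  have e8 : ∀ n, (Z.diag n).re = ∑ j, ‖B n j‖ ^ 2 * (2 * w j) := fun n => by
    rw [Matrix.diag_apply, hZ, Spec.conj_apply, Complex.ofReal_re]
  rw [Finset.sum_congr rfl fun n _ => e8 n, Finset.sum_comm]
  refine Finset.sum_congr rfl fun j _ => ?_
  rw [Finset.mul_sum]
  refine Finset.sum_congr rfl fun i _ => ?_
  simp only [hB, Matrix.of_apply, norm_mul, Complex.norm_real, Real.norm_eq_abs, mul_pow, sq_abs]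
  ring

end Pool.Agent.P.MP_9f4f5e_mp.LT
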