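import Pool.Agent.P.MP_9f4f5e_mp.LT.C2
import Pool.Agent.P.MP_9f4f5e_mp.LT.C4

set_option autoImplicit false
set_option linter.unusedSectionVars false

open MeasureTheory Matrix
open scoped ENNReal ComplexOrder ComplexConjugate RealInnerProductSpace FourierTransform

noncomputable section

namespace Pool.Agent.P.MP_9f4f5e_mp.LT

variable {ι : Type} [Fintype ι] [DecidableEq ι]

theorem c5_term (a c : ι → ℝ) (hc : ∀ i, 0 ≤ c i) (hs : ∑ i, c i = 1) {w : ℝ} (hw : 0 ≤ w) :
    Integrable (fun t : ℝ => 2 * w * ∑ i, c i * (1 - gt (|a i - t| / (31 / 25 * w))) ^ 2) ∧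
      ∫ t : ℝ, 2 * w * ∑ i, c i * (1 - gt (|a i - t| / (31 / 25 * w))) ^ 2 ≤ 79 / 50 * w ^ 2 := by
  rcases hw.eq_or_lt with rfl | hw'
  · simp
  have hε : 0 < 31 / 25 * w := by positivity
  have h1 : ∀ i, Integrable (fun t : ℝ => c i * (1 - gt (|a i - t| / (31 / 25 * w))) ^ 2) :=
    fun i => (integral_one_sub_gt_abs (a i) hε).1.const_mul _
  refine ⟨(integrable_finsetSum _ fun i _ => h1 i).const_mul _, ?_⟩
  rw [integral_const_mul, integral_finsetSum _ fun i _ => h1 i]
  have h2 : ∑ i, ∫ t : ℝ, c i * (1 - gt (|a i - t| / (31 / 25 * w))) ^ 2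
      ≤ ∑ i, c i * (637 / 1000 * (31 / 25 * w)) := by
    refine Finset.sum_le_sum fun i _ => ?_
    rw [integral_const_mul]
    exact mul_le_mul_of_nonneg_left (integral_one_sub_gt_abs (a i) hε).2 (hc i)
  rw [← Finset.sum_mul, hs, one_mul] at h2
  have h3 := mul_le_mul_of_nonneg_left h2 (by positivity : 0 ≤ 2 * w)
  nlinarith [sq_nonneg w]

/-- Hint: for a.e. t all |a i - t| are positive (finite set is null); rumin_pointwise; the bound
is integrable in t (terms with max (l j) 0 = 0 vanish identically; else integral_one_sub_gt_abs),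
Spec.col_sum, 2 * (31/25) * (637/1000) ≤ 79/50, Spec.tp_eq. -/
theorem lt_one {W : Matrix ι ι ℂ} (hW : W.IsHermitian) (a : ι → ℝ) :
    ∫⁻ t : ℝ, ENNReal.ofReal (tp 1 (W - dg fun i => |a i - t|))
      ≤ ENNReal.ofReal (79 / 50 * tp 2 W) := by
  obtain ⟨U, l, h⟩ := exists_spec hW
  have h1 := fun j => c5_term a (fun i => ‖U i j‖ ^ 2) (fun i => sq_nonneg _) (h.col_sum j)
    (le_max_right (l j) 0)
  have h2 : ∀ᵐ t : ℝ, t ∉ Set.range a := (Set.finite_range a).countable.ae_notMem _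
  have h3 := integrable_finsetSum Finset.univ fun j _ => (h1 j).1
  calc ∫⁻ t : ℝ, ENNReal.ofReal (tp 1 (W - dg fun i => |a i - t|))
      ≤ ∫⁻ t : ℝ, ENNReal.ofReal (∑ j, 2 * max (l j) 0 *
          ∑ i, ‖U i j‖ ^ 2 * (1 - gt (|a i - t| / (31 / 25 * max (l j) 0))) ^ 2) := by
        refine lintegral_mono_ae (h2.mono fun t ht => ENNReal.ofReal_le_ofReal ?_)
        exact rumin_pointwise h _ fun i => abs_pos.2 (sub_ne_zero.2 fun e => ht ⟨i, e⟩)
    _ = ENNReal.ofReal (∫ t : ℝ, ∑ j, 2 * max (l j) 0 *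
          ∑ i, ‖U i j‖ ^ 2 * (1 - gt (|a i - t| / (31 / 25 * max (l j) 0))) ^ 2) := by
        refine (ofReal_integral_eq_lintegral_ofReal h3 (Filter.Eventually.of_forall fun t => ?_)).symm
        refine Finset.sum_nonneg fun j _ => mul_nonneg (by positivity) ?_
        exact Finset.sum_nonneg fun i _ => by positivity
    _ ≤ ENNReal.ofReal (79 / 50 * tp 2 W) := by
        refine ENNReal.ofReal_le_ofReal ?_
        rw [integral_finsetSum _ fun j _ => (h1 j).1, h.tp_eq, Finset.mul_sum]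
        exact Finset.sum_le_sum fun j _ => (h1 j).2

end Pool.Agent.P.MP_9f4f5e_mp.LT
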