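import Pool.Agent.P.MP_9f4f5e_mp.LT.B6
import Pool.Agent.P.MP_9f4f5e_mp.LT.C5

set_option autoImplicit false
set_option linter.unusedSectionVars false

open MeasureTheory Matrix
open scoped ENNReal ComplexOrder ComplexConjugate RealInnerProductSpace FourierTransform

noncomputable section

namespace Pool.Agent.P.MP_9f4f5e_mp.LT

variable {ι : Type} [Fintype ι] [DecidableEq ι]

/-- iterated integral. Hint: PiLp.volume_preserving_toLp, then Fin 3 → ℝ to ℝ × ℝ × ℝ
(volume_preserving_piFinSuccAbove, volume_preserving_finTwoArrow), lintegral_prod. -/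
theorem lintegral_E3 {G : ℝ → ℝ → ℝ → ℝ≥0∞}
    (hG : Measurable fun p : ℝ × ℝ × ℝ => G p.1 p.2.1 p.2.2) :
    ∫⁻ t : E3, G (t 0) (t 1) (t 2) = ∫⁻ x, ∫⁻ y, ∫⁻ z, G x y z := by
  have h := (((MeasurePreserving.id (volume : Measure ℝ)).prod (volume_preserving_finTwoArrow ℝ)).comp
    (volume_preserving_piFinSuccAbove (fun _ : Fin 3 => ℝ) 0)).comp
      (PiLp.volume_preserving_ofLp (Fin 3))
  refine (h.lintegral_comp hG).trans ?_
  rw [lintegral_prod _ hG.aemeasurable]
  exact lintegral_congr fun x => lintegral_prod _ (hG.comp measurable_prodMk_left).aemeasurable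

/-- Lifting. Hint: Fin.sum_univ_three, dg_add; V - dg (A + B + C) = V - dg A - dg B - dg C;
lintegral_E3 (measurable by continuous_tp_sub_dg), then lt_one in z, lt_two' in y, lt_three in x;
79/50 * (2/3) * (1/2) = 79/150. -/
theorem lt_l1 {V : Matrix ι ι ℂ} (hV : V.IsHermitian) (b : ι → E3) :
    ∫⁻ t : E3, ENNReal.ofReal (tp 1 (V - dg fun i => ∑ k, |b i k - t k|))
      ≤ ENNReal.ofReal (79 / 150 * tp 4 V) := by
  have e := lintegral_E3 (G := fun x y z => ENNReal.ofReal
    (tp 1 (V - dg fun i => |b i 0 - x| + |b i 1 - y| + |b i 2 - z|)))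
    (continuous_tp_sub_dg hV (fun i => by fun_prop) one_ne_zero).measurable.ennreal_ofReal
  simp only [Fin.sum_univ_three]
  rw [e]
  have m : ∀ (c : ℝ) (f : ℝ → ℝ), 0 ≤ c → ∫⁻ x, ENNReal.ofReal (c * f x) =
      ENNReal.ofReal c * ∫⁻ x, ENNReal.ofReal (f x) := fun c f hc => by
    simp only [ENNReal.ofReal_mul hc]
    exact lintegral_const_mul' _ _ ENNReal.ofReal_ne_top
  calc _ ≤ ∫⁻ x, ENNReal.ofReal (79 / 75 * tp 3 (V - dg fun i => |b i 0 - x|)) := by
        refine lintegral_mono fun x => ?_
        have h1 := hV.sub (dg_isHermitian fun i => |b i 0 - x|)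
        calc _ ≤ ∫⁻ y, ENNReal.ofReal (79 / 50 *
              tp 2 ((V - dg fun i => |b i 0 - x|) - dg fun i => |b i 1 - y|)) := by
              refine lintegral_mono fun y => ?_
              simp only [← dg_add, ← sub_sub]
              exact lt_one (h1.sub (dg_isHermitian _)) _
          _ ≤ _ := by
              rw [m _ _ (by norm_num)]
              refine (mul_le_mul_right (lt_two' h1 _) _).trans_eq ?_
              rw [← ENNReal.ofReal_mul (by norm_num), ← mul_assoc]
              norm_num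
    _ ≤ _ := by
        rw [m _ _ (by norm_num)]
        refine (mul_le_mul_right (lt_three hV _) _).trans_eq ?_
        rw [← ENNReal.ofReal_mul (by norm_num), ← mul_assoc]
        norm_num

end Pool.Agent.P.MP_9f4f5e_mp.LT
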