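import Pool.Agent.P.MP_9f4f5e_mp.LT.Base
import Pool.Agent.P.MP_edb112_gt.Basic

set_option autoImplicit false
set_option linter.unusedSectionVars false

open MeasureTheory Matrix
open scoped ENNReal ComplexOrder ComplexConjugate RealInnerProductSpace FourierTransform

noncomputable section

namespace Pool.Agent.P.MP_9f4f5e_mp.LT

theorem d2_r3 : ∫ y in Set.Ioi (0 : ℝ), y ^ 2 * (y * Real.exp (-y ^ 2)) = 1 / 2 := by
  have h := integral_rpow_mul_exp_neg_rpow (p := 2) (q := 3) (by norm_num) (by norm_num)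
  have e : ((3 : ℝ) + 1) / 2 = 2 := by norm_num
  rw [e, Real.Gamma_two, mul_one] at h
  rw [← h]
  refine setIntegral_congr_fun measurableSet_Ioi fun x _ => ?_
  have e2 : x ^ (2 : ℝ) = x ^ 2 := by exact_mod_cast Real.rpow_natCast x 2
  have e3 : x ^ (3 : ℝ) = x ^ 3 := by exact_mod_cast Real.rpow_natCast x 3
  simp only [e2, e3]
  ring

theorem d2_r1 : ∫ y : ℝ, |y| * Real.exp (-y ^ 2) = 1 := by
  have h := integral_rpow_mul_exp_neg_rpow (p := 2) (q := 1) (by norm_num) (by norm_num)
  have e : ((1 : ℝ) + 1) / 2 = 1 := by norm_num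
  rw [e, Real.Gamma_one, mul_one] at h
  have h2 := integral_comp_abs (f := fun y : ℝ => y * Real.exp (-y ^ 2))
  simp only [sq_abs] at h2
  rw [h2]
  have h3 : ∫ y in Set.Ioi (0 : ℝ), y * Real.exp (-y ^ 2) = 1 / 2 := by
    rw [← h]
    refine setIntegral_congr_fun measurableSet_Ioi fun x _ => ?_
    have e2 : x ^ (2 : ℝ) = x ^ 2 := by exact_mod_cast Real.rpow_natCast x 2
    simp only [e2, Real.rpow_one]
  rw [h3]
  norm_num

theorem d2_r0 : ∫ y : ℝ, Real.exp (-y ^ 2) = √Real.pi := by
  have h := integral_gaussian 1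
  simpa using h

theorem d2_norm : ∫ p : E3, ‖p‖ * Real.exp (-‖p‖ ^ 2) = 2 * Real.pi := by
  have h := integral_fun_norm_addHaar (volume : Measure E3)
    (fun y : ℝ => y * Real.exp (-y ^ 2))
  rw [h, finrank_euclideanSpace_fin, Measure.real, EuclideanSpace.volume_ball_fin_three]
  simp only [smul_eq_mul, nsmul_eq_mul]
  have e : (3 : ℕ) - 1 = 2 := rfl
  rw [e, d2_r3, ENNReal.ofReal_one, one_pow, one_mul,
    ENNReal.toReal_ofReal (by positivity)]
  push_cast
  ring

theorem d2_coord (k : Fin 3) : ∫ p : E3, |p k| * Real.exp (-‖p‖ ^ 2) = Real.pi := by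
  have h1 := (PiLp.volume_preserving_toLp (Fin 3)).integral_comp
    (MeasurableEquiv.toLp 2 (Fin 3 → ℝ)).measurableEmbedding
    (fun p : E3 => |p k| * Real.exp (-‖p‖ ^ 2))
  rw [← h1]
  have h2 := integral_fintype_prod_volume_eq_prod (ι := Fin 3) (E := fun _ => ℝ) (𝕜 := ℝ)
    (fun i y => (if i = k then |y| else 1) * Real.exp (-y ^ 2))
  have h3 : ∀ x : Fin 3 → ℝ, |(WithLp.toLp 2 x : E3) k| *
      Real.exp (-‖(WithLp.toLp 2 x : E3)‖ ^ 2) =
      ∏ i, (if i = k then |x i| else 1) * Real.exp (-x i ^ 2) := by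
    intro x
    rw [Finset.prod_mul_distrib, Finset.prod_ite_eq', ← Real.exp_sum,
      EuclideanSpace.real_norm_sq_eq, Finset.sum_neg_distrib]
    simp
  simp only [h3]
  rw [h2]
  have h4 : ∀ i : Fin 3, ∫ y : ℝ, (if i = k then |y| else 1) * Real.exp (-y ^ 2) =
      if i = k then 1 else √Real.pi := by
    intro i
    by_cases hi : i = k
    · simp only [hi, if_true, d2_r1]
    · simp only [hi, if_false, one_mul, d2_r0]
  simp only [h4]
  have h5 : √Real.pi * √Real.pi = Real.pi := Real.mul_self_sqrt Real.pi_pos.le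
  rw [Fin.prod_univ_three]
  fin_cases k <;> simp [h5]

open Pool.Agent.BL in
theorem d2_hom (k : Fin 3) (p : E3) :
    ∫ g : G E3, |ap g p k| ∂(haar E3) = ‖p‖ * ∫ y : E3, |y k| ∂(sph E3) := by
  by_cases hp : p = 0
  · subst hp
    simp [ap]
  · have hn : 0 < ‖p‖ := norm_pos_iff.2 hp
    have hu : ‖(‖p‖⁻¹ • p : E3)‖ = 1 := by
      rw [norm_smul, norm_inv, norm_norm, inv_mul_cancel₀ hn.ne']
    have hc : Continuous fun y : E3 => |y k| := by fun_prop
    rw [← integral_ap hu hc.aestronglyMeasurable, ← integral_const_mul]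
    refine integral_congr_ae (Filter.Eventually.of_forall fun g => ?_)
    simp only [ap_smul, PiLp.smul_apply, smul_eq_mul, abs_mul, abs_inv, abs_norm]
    rw [← mul_assoc, mul_inv_cancel₀ hn.ne', one_mul]

open Pool.Agent.BL in
theorem d2_half (k : Fin 3) : ∫ y : E3, |y k| ∂(sph E3) = 1 / 2 := by
  have i1 : Integrable (fun p : E3 => ‖p‖ * Real.exp (-‖p‖ ^ 2)) :=
    Integrable.of_integral_ne_zero (by rw [d2_norm]; positivity)
  have hc : Continuous fun z : G E3 × E3 => |ap z.1 z.2 k| * Real.exp (-‖z.2‖ ^ 2) := by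
    have h0 : Continuous fun z : G E3 × E3 => ap z.1 z.2 :=
      continuous_ap continuous_fst continuous_snd
    have h1 : Continuous fun y : E3 => |y k| := by fun_prop
    exact (h1.comp h0).mul (by fun_prop)
  have i2 : Integrable (fun z : G E3 × E3 => |ap z.1 z.2 k| * Real.exp (-‖z.2‖ ^ 2))
      ((haar E3).prod volume) := by
    refine ((integrable_const (1 : ℝ)).mul_prod i1).mono' hc.aestronglyMeasurable
      (Filter.Eventually.of_forall fun z => ?_)
    rw [one_mul, Real.norm_of_nonneg (by positivity)]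
    refine mul_le_mul_of_nonneg_right ?_ (Real.exp_pos _).le
    rw [← norm_ap z.1 z.2, ← Real.norm_eq_abs]
    exact PiLp.norm_apply_le _ k
  have sw := integral_integral_swap
    (f := fun (g : G E3) (p : E3) => |ap g p k| * Real.exp (-‖p‖ ^ 2)) i2
  have l1 : ∀ g : G E3, ∫ p : E3, |ap g p k| * Real.exp (-‖p‖ ^ 2) = Real.pi := by
    intro g
    have h1 := (toIso g).measurePreserving.integral_comp
      (toIso g).toHomeomorph.measurableEmbedding
      (fun p : E3 => |p k| * Real.exp (-‖p‖ ^ 2))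
    rw [d2_coord] at h1
    rw [← h1]
    simp only [toIso_apply, norm_ap]
  have l2 : ∀ p : E3, ∫ g : G E3, |ap g p k| * Real.exp (-‖p‖ ^ 2) ∂(haar E3) =
      (∫ y : E3, |y k| ∂(sph E3)) * (‖p‖ * Real.exp (-‖p‖ ^ 2)) := by
    intro p
    rw [integral_mul_const, d2_hom]
    ring
  simp only [l1, l2] at sw
  rw [integral_const_mul, d2_norm, integral_const, probReal_univ, one_smul] at sw
  have hpi := Real.pi_pos
  have : ((∫ y : E3, |y k| ∂(sph E3)) - 1 / 2) * Real.pi = 0 := by linarith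
  rcases mul_eq_zero.1 this with h | h
  · linarith
  · exact absurd h hpi.ne'

open Pool.Agent.BL in
/-- Mean of the l1 norm over rotations. Hint: c k = ∫ y, |y k| ∂(sph E3); ∫ g, |ap g p k| ∂haar
= ‖p‖ * c k (map_ap for the unit vector in direction p). Integrate this identity against
exp (-‖p‖^2) dp; by Fubini and invariance of volume under ap g the left side is
∫ p, |p k| * exp (-‖p‖^2) = π (product of one-dimensional integrals 1, √π, √π), while
∫ p, ‖p‖ * exp (-‖p‖^2) = 2 π (integral_fun_norm_addHaar, EuclideanSpace.volume_ball_fin_three,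
∫ r in Ioi 0, r^3 exp (-r^2) = 1/2). So c k = 1/2. -/
theorem haar_l1 (p : E3) :
    Integrable (fun g : G E3 => ∑ k, |ap g p k|) (haar E3) ∧
      ∫ g : G E3, ∑ k, |ap g p k| ∂(haar E3) ≤ 3 / 2 * ‖p‖ := by
  have hi : ∀ k : Fin 3, Integrable (fun g : G E3 => |ap g p k|) (haar E3) := by
    intro k
    have h0 : Continuous fun g : G E3 => ap g p := continuous_ap continuous_id continuous_const
    have h1 : Continuous fun y : E3 => |y k| := by fun_prop
    exact integrable_haar (h1.comp h0)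
  refine ⟨integrable_finsetSum _ fun k _ => hi k, ?_⟩
  rw [integral_finsetSum _ fun k _ => hi k]
  simp only [d2_hom, d2_half, Fin.sum_univ_three]
  linarith

end Pool.Agent.P.MP_9f4f5e_mp.LT
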