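import Pool.Agent.P.MP_9f4f5e_mp.LT.A4
import Pool.Agent.P.MP_9f4f5e_mp.LT.D1
import Pool.Agent.P.MP_9f4f5e_mp.LT.D2

set_option autoImplicit false
set_option linter.unusedSectionVars false

open MeasureTheory Matrix
open scoped ENNReal ComplexOrder ComplexConjugate RealInnerProductSpace FourierTransform

noncomputable section

namespace Pool.Agent.P.MP_9f4f5e_mp.LT

variable {ι : Type} [Fintype ι] [DecidableEq ι]

/-- Rotated and scaled form. Hint: lt_l1 for b i = (2/3) • L (a i); the map t ↦ (2/3) • L t;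
L.measurePreserving, Measure.map_addHaar_smul or lintegral_comp_smul-type lemma with factor
(3/2)^3; 79/150 * (27/8) = 711/400. -/
theorem lt_rot {V : Matrix ι ι ℂ} (hV : V.IsHermitian) (a : ι → E3) (L : E3 ≃ₗᵢ[ℝ] E3) :
    ∫⁻ t : E3, ENNReal.ofReal (tp 1 (V - dg fun i => 2 / 3 * ∑ k, |L (a i - t) k|))
      ≤ ENNReal.ofReal (711 / 400 * tp 4 V) := by
  set b : ι → E3 := fun i => (2 / 3 : ℝ) • L (a i) with hb
  set F : E3 → ℝ≥0∞ := fun s => ENNReal.ofReal (tp 1 (V - dg fun i => ∑ k, |b i k - s k|)) with hF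
  have hFm : Measurable F :=
    (continuous_tp_sub_dg hV (d := fun (s : E3) i => ∑ k, |b i k - s k|)
      (fun i => by fun_prop) one_ne_zero).measurable.ennreal_ofReal
  have h1 : ∀ t : E3, ENNReal.ofReal (tp 1 (V - dg fun i => 2 / 3 * ∑ k, |L (a i - t) k|))
      = F ((2 / 3 : ℝ) • L t) := by
    intro t
    have h2 : (fun i => 2 / 3 * ∑ k, |L (a i - t) k|)
        = fun i => ∑ k, |b i k - ((2 / 3 : ℝ) • L t) k| := by
      funext i
      rw [Finset.mul_sum]
      refine Finset.sum_congr rfl fun k _ => ?_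
      rw [hb, map_sub]
      simp only [PiLp.sub_apply, PiLp.smul_apply, smul_eq_mul]
      rw [← mul_sub, abs_mul, abs_of_pos (by norm_num : (0 : ℝ) < 2 / 3)]
    rw [h2]
  have hsm : Measurable fun s : E3 => (2 / 3 : ℝ) • s := by fun_prop
  have h3 : ∫⁻ t : E3, F ((2 / 3 : ℝ) • L t) = ∫⁻ s : E3, F ((2 / 3 : ℝ) • s) :=
    L.measurePreserving.lintegral_comp (hFm.comp hsm)
  have h4 : ∫⁻ s : E3, F ((2 / 3 : ℝ) • s) = ENNReal.ofReal (27 / 8) * ∫⁻ s : E3, F s := by
    rw [← lintegral_map hFm hsm, Measure.map_addHaar_smul _ (by norm_num : (2 / 3 : ℝ) ≠ 0),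
      lintegral_smul_measure, finrank_euclideanSpace_fin, smul_eq_mul]
    norm_num
  simp only [h1]
  rw [h3, h4]
  calc _ ≤ ENNReal.ofReal (27 / 8) * ENNReal.ofReal (79 / 150 * tp 4 V) := by
        gcongr
        exact lt_l1 hV b
    _ = _ := by
        rw [← ENNReal.ofReal_mul (by norm_num)]
        congr 1
        ring

/-- The matrix inequality in three dimensions. Hint: tp_one_le_lintegral with haar_l1 at each t,
lintegral_lintegral_swap (continuous_tp_sub_dg, Pool.Agent.BL.continuous_ap; G E3 is second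
countable as a subtype), lt_rot with L = toIso g. -/
theorem lt_main {V : Matrix ι ι ℂ} (hV : V.IsHermitian) (a : ι → E3) :
    ∫⁻ t : E3, ENNReal.ofReal (tp 1 (V - dg fun i => ‖a i - t‖))
      ≤ ENNReal.ofReal (711 / 400 * tp 4 V) := by
  have h1 : ∀ t : E3, ENNReal.ofReal (tp 1 (V - dg fun i => ‖a i - t‖)) ≤
      ∫⁻ g : BL.G E3, ENNReal.ofReal (tp 1 (V - dg fun i => 2 / 3 * ∑ k, |BL.ap g (a i - t) k|))
        ∂(BL.haar E3) := by
    intro t
    refine tp_one_le_lintegral (BL.haar E3) hV (fun i => ‖a i - t‖)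
      (fun g i => 2 / 3 * ∑ k, |BL.ap g (a i - t) k|)
      (fun i => (haar_l1 (a i - t)).1.const_mul _) fun i => ?_
    rw [integral_const_mul]
    linarith [(haar_l1 (a i - t)).2]
  have : SecondCountableTopology (BL.G E3) :=
    TopologicalSpace.Subtype.secondCountableTopology _
  have hm : Measurable fun p : E3 × BL.G E3 =>
      ENNReal.ofReal (tp 1 (V - dg fun i => 2 / 3 * ∑ k, |BL.ap p.2 (a i - p.1) k|)) :=
    (continuous_tp_sub_dg hV
      (d := fun (p : E3 × BL.G E3) i => 2 / 3 * ∑ k, |BL.ap p.2 (a i - p.1) k|)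
      (fun i => by fun_prop) one_ne_zero).measurable.ennreal_ofReal
  refine (lintegral_mono h1).trans ?_
  rw [lintegral_lintegral_swap hm.aemeasurable]
  calc _ ≤ ∫⁻ _ : BL.G E3, ENNReal.ofReal (711 / 400 * tp 4 V) ∂(BL.haar E3) :=
        lintegral_mono fun g => lt_rot hV a (BL.toIso g)
    _ = _ := by rw [lintegral_const, measure_univ, mul_one]

end Pool.Agent.P.MP_9f4f5e_mp.LT
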