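import Mathlib

/-! Definitions for the lower bound on the relativistic kinetic energy constant. -/

set_option autoImplicit false
set_option linter.unusedSectionVars false

open MeasureTheory Matrix
open scoped ENNReal ComplexOrder ComplexConjugate RealInnerProductSpace

noncomputable section

namespace Pool.Agent.P.MP_9f4f5e_mp.LT

/-- one-particle space -/
abbrev E3 : Type := EuclideanSpace ℝ (Fin 3)

/-- configuration space of n particles -/
abbrev EN (n : ℕ) : Type := EuclideanSpace ℝ (Fin n × Fin 3)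

/-- the position (or momentum) of particle i -/
def part {n : ℕ} (z : EN n) (i : Fin n) : E3 := WithLp.toLp 2 fun k => z (i, k)

/-- exchange of particles i and j -/
def sw {n : ℕ} (i j : Fin n) (z : EN n) : EN n :=
  WithLp.toLp 2 fun p => z (Equiv.swap i j p.1, p.2)

/-- the configuration whose first particle is at x and whose other particles are given by y -/
def glue {n : ℕ} (x : E3) (y : EN n) : EN (n + 1) :=
  WithLp.toLp 2 fun p => Fin.cases (motive := fun _ => ℝ) (x p.2) (fun i => y (i, p.2)) p.1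

section matrices

variable {ι : Type} [Fintype ι] [DecidableEq ι]

/-- positive part of a Hermitian matrix -/
def pp (M : Matrix ι ι ℂ) : Matrix ι ι ℂ := cfc (fun x : ℝ => max x 0) M

/-- trace of the k-th power of the positive part -/
def tp (k : ℕ) (M : Matrix ι ι ℂ) : ℝ := (cfc (fun x : ℝ => max x 0 ^ k) M).trace.re

/-- real diagonal matrix -/
def dg (d : ι → ℝ) : Matrix ι ι ℂ := Matrix.diagonal fun i => (d i : ℂ)

/-- quadratic form of a matrix -/
def qf (M : Matrix ι ι ℂ) (c : ι → ℂ) : ℝ := (star c ⬝ᵥ M *ᵥ c).re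

/-- spectral data: M = U diag(l) U^* with U unitary -/
structure Spec (M U : Matrix ι ι ℂ) (l : ι → ℝ) : Prop where
  mul_ct : U * Uᴴ = 1
  ct_mul : Uᴴ * U = 1
  eq : M = U * dg l * Uᴴ

end matrices

/-- first test function of the Rumin step -/
def ph (s : ℝ) : ℝ := (100 - 57 * s + 36 * s ^ 2 - 8 * s ^ 3) / 67 * Real.exp (-s)

/-- second test function of the Rumin step -/
def ff (s : ℝ) : ℝ := (100 + 85 * s - 57 * s ^ 2 + 13 * s ^ 3) / 100 * Real.exp (-s)

/-- multiplicative convolution of ph and ff -/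
def gt (x : ℝ) : ℝ :=
  1 - (3 / 134 * (1 + x)⁻¹ - 10873 / 3350 * (1 + x)⁻¹ ^ 2 + 83979 / 3350 * (1 + x)⁻¹ ^ 3
    - 200499 / 3350 * (1 + x)⁻¹ ^ 4 + 121134 / 1675 * (1 + x)⁻¹ ^ 5
    - 14904 / 335 * (1 + x)⁻¹ ^ 6 + 3744 / 335 * (1 + x)⁻¹ ^ 7)

/-- the character exp(2 pi i r) -/
def ec (r : ℝ) : ℂ := ((Real.fourierChar r : Circle) : ℂ)

/-- what the transfer argument uses about an N-fermion state: Φ is the Fourier transform
(times the square root of N) with the first momentum split off, ρ is the density -/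
structure Data {Y : Type} [MeasurableSpace Y] (ν : Measure Y) (Φ : E3 × Y → ℂ) (ρ : E3 → ℝ) :
    Prop where
  meas : Measurable Φ
  l2 : Integrable (fun p => ‖Φ p‖ ^ 2) ((volume : Measure E3).prod ν)
  kin : Integrable (fun p => ‖p.1‖ * ‖Φ p‖ ^ 2) ((volume : Measure E3).prod ν)
  pauli : ∀ f : E3 → ℂ, MemLp f 2 volume →
    ∫ y, ‖∫ ξ, conj (f ξ) * Φ (ξ, y)‖ ^ 2 ∂ν ≤ ∫ ξ, ‖f ξ‖ ^ 2
  rho_meas : Measurable ρ
  rho_nonneg : ∀ z, 0 ≤ ρ z
  rho_int : Integrable ρ
  corr : ∀ k : E3, ∫ p, Φ (p.1 + k, p.2) * conj (Φ p) ∂((volume : Measure E3).prod ν)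
    = ∫ z, (ρ z : ℂ) * ec (-⟪k, z⟫)

/-- integral of Φ over the translate p + Q in the first variable -/
def uu {Y : Type} (Q : Set E3) (Φ : E3 × Y → ℂ) (p : E3) (y : Y) : ℂ :=
  ∫ s in Q, Φ (p + s, y)

/-- Fourier transform of the indicator of Q -/
def ww (Q : Set E3) (z : E3) : ℂ := ∫ s in Q, ec (-⟪s, z⟫)

/-- the momentum cube of side h -/
def cube (h : ℝ) : Set E3 := {s | ∀ k, s k ∈ Set.Ico 0 h}

/-- the position cell of side 1/h -/
def cell (h : ℝ) : Set E3 := {x | ∀ k, |x k| < 1 / (2 * h)}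

/-- lattice points -/
def lat (h : ℝ) {m : ℕ} (i : Fin 3 → Fin m) : E3 := WithLp.toLp 2 fun k => h * ((i k : ℕ) : ℝ)

/-- one-dimensional Fejer kernel -/
def fej (m : ℕ) (y : ℝ) : ℝ := ‖∑ j : Fin m, ec (((j : ℕ) : ℝ) * y)‖ ^ 2 / m

/-- three-dimensional Fejer kernel on the cell of side 1/h -/
def ker (m : ℕ) (h : ℝ) (y : E3) : ℝ := h ^ 3 * ∏ k, fej m (h * y k)

end Pool.Agent.P.MP_9f4f5e_mp.LT
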