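import Pool.Agent.P.MP_9f4f5e_mp.LT.Base

set_option autoImplicit false
set_option linter.unusedSectionVars false

open MeasureTheory Matrix
open scoped ENNReal ComplexOrder ComplexConjugate RealInnerProductSpace FourierTransform

noncomputable section

namespace Pool.Agent.P.MP_9f4f5e_mp.LT

variable {V : Type} [NormedAddCommGroup V] [InnerProductSpace ℝ V] [FiniteDimensional ℝ V]
  [MeasurableSpace V] [BorelSpace V]

theorem e1_comp_toLp (L : V ≃ₗᵢ[ℝ] V) (f : SchwartzMap V ℂ) :
    (Lp.compMeasurePreserving L L.measurePreserving (f.toLp 2 (volume : Measure V)) :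
      Lp ℂ 2 (volume : Measure V)) =
      (SchwartzMap.compCLMOfContinuousLinearEquiv ℂ L.toContinuousLinearEquiv f).toLp 2
        (volume : Measure V) := by
  apply Lp.ext
  have h1 := Lp.coeFn_compMeasurePreserving (f.toLp 2 (volume : Measure V)) L.measurePreserving
  have h2 := SchwartzMap.coeFn_toLp
    (SchwartzMap.compCLMOfContinuousLinearEquiv ℂ L.toContinuousLinearEquiv f) 2
    (volume : Measure V)
  have h3 := L.measurePreserving.quasiMeasurePreserving.ae_eq_comp
    (SchwartzMap.coeFn_toLp f 2 (volume : Measure V))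
  refine h1.trans (h3.trans ?_)
  refine Filter.EventuallyEq.trans ?_ h2.symm
  exact Filter.Eventually.of_forall fun x => rfl

theorem e1_fourier_schwartz (L : V ≃ₗᵢ[ℝ] V) (f : SchwartzMap V ℂ) :
    𝓕 (SchwartzMap.compCLMOfContinuousLinearEquiv ℂ L.toContinuousLinearEquiv f) =
      SchwartzMap.compCLMOfContinuousLinearEquiv ℂ L.toContinuousLinearEquiv (𝓕 f) := by
  ext w
  have := Real.fourier_comp_linearIsometry L (f : V → ℂ) w
  exact this

theorem e1_fourier_comp (L : V ≃ₗᵢ[ℝ] V) (φ : Lp ℂ 2 (volume : Measure V)) :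
    (𝓕 (Lp.compMeasurePreserving L L.measurePreserving φ : Lp ℂ 2 (volume : Measure V)) :
      Lp ℂ 2 (volume : Measure V)) =
      Lp.compMeasurePreserving L L.measurePreserving (𝓕 φ : Lp ℂ 2 (volume : Measure V)) := by
  have hC : Continuous (Lp.compMeasurePreserving L L.measurePreserving :
      Lp ℂ 2 (volume : Measure V) → Lp ℂ 2 (volume : Measure V)) :=
    (Lp.isometry_compMeasurePreserving L.measurePreserving).continuous
  have hF : Continuous (fun φ : Lp ℂ 2 (volume : Measure V) =>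
      (𝓕 φ : Lp ℂ 2 (volume : Measure V))) := (Lp.fourierTransformₗᵢ V ℂ).continuous
  refine DenseRange.induction_on
    (p := fun φ : Lp ℂ 2 (volume : Measure V) =>
      (𝓕 (Lp.compMeasurePreserving L L.measurePreserving φ : Lp ℂ 2 (volume : Measure V)) :
        Lp ℂ 2 (volume : Measure V)) =
      Lp.compMeasurePreserving L L.measurePreserving (𝓕 φ : Lp ℂ 2 (volume : Measure V)))
    (SchwartzMap.denseRange_toLpCLM (E := V) (F := ℂ) (μ := (volume : Measure V)) (p := 2)
      ENNReal.ofNat_ne_top) φ ?_ ?_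
  · exact isClosed_eq (hF.comp hC) (hC.comp hF)
  · intro f
    rw [SchwartzMap.toLpCLM_apply, e1_comp_toLp, SchwartzMap.toLp_fourier_eq,
      SchwartzMap.toLp_fourier_eq, e1_comp_toLp, e1_fourier_schwartz]

/-- The L2 Fourier transform commutes with linear isometries. Hint: C = Lp.compMeasurePreserving L
L.measurePreserving (continuous: Lp.compMeasurePreservingₗᵢ, Lp.coeFn_compMeasurePreserving); show
𝓕 (C φ) = C (𝓕 φ) by DenseRange.induction_on with SchwartzMap.denseRange_toLpCLM (see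
fourier_toTemperedDistribution_eq in Mathlib/Analysis/Fourier/LpSpace.lean),
SchwartzMap.compCLMOfContinuousLinearEquiv, SchwartzMap.toLp_fourier_eq,
Real.fourier_comp_linearIsometry; then C ψ = -ψ gives C (𝓕 ψ) = -𝓕 ψ. -/
theorem fourier_anti (L : V ≃ₗᵢ[ℝ] V) (ψ : Lp ℂ 2 (volume : Measure V))
    (h : ∀ᵐ z, ψ (L z) = -ψ z) :
    ∀ᵐ z, (𝓕 ψ : Lp ℂ 2 (volume : Measure V)) (L z) = -(𝓕 ψ : Lp ℂ 2 (volume : Measure V)) z := by
  have hψ : (Lp.compMeasurePreserving L L.measurePreserving ψ : Lp ℂ 2 (volume : Measure V)) =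
      -ψ := by
    apply Lp.ext
    refine (Lp.coeFn_compMeasurePreserving ψ L.measurePreserving).trans ?_
    refine Filter.EventuallyEq.trans ?_ (Lp.coeFn_neg ψ).symm
    filter_upwards [h] with z hz
    exact hz
  have hneg : (𝓕 (-ψ) : Lp ℂ 2 (volume : Measure V)) = -(𝓕 ψ : Lp ℂ 2 (volume : Measure V)) :=
    map_neg (Lp.fourierTransformₗᵢ V ℂ) ψ
  have key := e1_fourier_comp L ψ
  rw [hψ, hneg] at key
  have h1 := Lp.coeFn_compMeasurePreserving (𝓕 ψ : Lp ℂ 2 (volume : Measure V))
    L.measurePreserving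
  rw [← key] at h1
  filter_upwards [h1, Lp.coeFn_neg (𝓕 ψ : Lp ℂ 2 (volume : Measure V))] with z hz1 hz2
  rw [hz2] at hz1
  exact hz1.symm

end Pool.Agent.P.MP_9f4f5e_mp.LT
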