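import Pool.Agent.P.MP_9f4f5e_mp.LT.Base

set_option autoImplicit false
set_option linter.unusedSectionVars false

open MeasureTheory Matrix
open scoped ENNReal ComplexOrder ComplexConjugate RealInnerProductSpace FourierTransform

noncomputable section

namespace Pool.Agent.P.MP_9f4f5e_mp.LT

variable {V : Type} [NormedAddCommGroup V] [InnerProductSpace ℝ V] [FiniteDimensional ℝ V]
  [MeasurableSpace V] [BorelSpace V]

theorem e2_mem (k : V) : MemLp (fun x : V => ec (-⟪k, x⟫)) ∞ (volume : Measure V) :=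
  memLp_top_of_bound (Continuous.aestronglyMeasurable (by fun_prop)) 1
    (Filter.Eventually.of_forall fun x => (norm_ec _).le)

/-- modulation -/
def e2M (k : V) : Lp ℂ 2 (volume : Measure V) →L[ℂ] Lp ℂ 2 (volume : Measure V) :=
  (ContinuousLinearMap.mul ℂ ℂ).holderL volume ∞ 2 2 (e2_mem k).toLp

theorem e2M_coe (k : V) (ψ : Lp ℂ 2 (volume : Measure V)) :
    ∀ᵐ x, e2M k ψ x = ec (-⟪k, x⟫) * ψ x := by
  filter_upwards [(ContinuousLinearMap.mul ℂ ℂ).coeFn_holder (r := 2) (e2_mem k).toLp ψ,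
    (e2_mem k).coeFn_toLp] with x h1 h2
  rw [e2M, ContinuousLinearMap.holderL_apply_apply, h1, h2, ContinuousLinearMap.mul_apply']

/-- translation -/
def e2T (k : V) : Lp ℂ 2 (volume : Measure V) →ₗᵢ[ℂ] Lp ℂ 2 (volume : Measure V) :=
  Lp.compMeasurePreservingₗᵢ ℂ (fun x => x + k) (measurePreserving_add_right volume k)

theorem e2T_coe (k : V) (ψ : Lp ℂ 2 (volume : Measure V)) : ∀ᵐ x, e2T k ψ x = ψ (x + k) :=
  Lp.coeFn_compMeasurePreserving ψ (measurePreserving_add_right volume k)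

theorem e2_inv (k : V) (f : V → ℂ) (x : V) :
    𝓕⁻ (fun v => f (v + k)) x = ec (-⟪k, x⟫) * 𝓕⁻ f x := by
  rw [Real.fourierInv_eq, Real.fourierInv_eq, ← integral_const_mul,
    ← integral_add_right_eq_self (fun v => ec (-⟪k, x⟫) * (Real.fourierChar ⟪v, x⟫ • f v)) k]
  refine integral_congr_ae (Filter.Eventually.of_forall fun v => ?_)
  show ec ⟪v, x⟫ * f (v + k) = ec (-⟪k, x⟫) * (ec ⟪v + k, x⟫ * f (v + k))
  rw [← mul_assoc, ← ec_add, inner_add_left]
  congr 2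
  ring

theorem e2_comm (k : V) (χ : Lp ℂ 2 (volume : Measure V)) :
    (𝓕⁻ (e2T k χ) : Lp ℂ 2 (volume : Measure V)) = e2M k (𝓕⁻ χ) := by
  refine DenseRange.induction_on
    (p := fun χ : Lp ℂ 2 (volume : Measure V) =>
      (𝓕⁻ (e2T k χ) : Lp ℂ 2 (volume : Measure V)) = e2M k (𝓕⁻ χ))
    (SchwartzMap.denseRange_toLpCLM (p := 2) ENNReal.ofNat_ne_top) χ ?_ fun f => ?_
  · exact isClosed_eq ((Lp.fourierTransformₗᵢ V ℂ).symm.continuous.comp (e2T k).continuous)
      ((e2M k).continuous.comp (Lp.fourierTransformₗᵢ V ℂ).symm.continuous)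
  · have h1 : e2T k (f.toLp 2) = (f.compSubConstCLM ℂ (-k)).toLp 2 := by
      refine Lp.ext ?_
      filter_upwards [e2T_coe k (f.toLp 2), (f.compSubConstCLM ℂ (-k)).coeFn_toLp 2 volume,
        (measurePreserving_add_right volume k).quasiMeasurePreserving.ae (f.coeFn_toLp 2 volume)]
        with x a1 a2 a3
      rw [a1, a2, a3, SchwartzMap.compSubConstCLM_apply, sub_neg_eq_add]
    show 𝓕⁻ (e2T k (f.toLp 2)) = e2M k (𝓕⁻ (f.toLp 2))
    rw [h1, SchwartzMap.toLp_fourierInv_eq, SchwartzMap.toLp_fourierInv_eq]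
    refine Lp.ext ?_
    filter_upwards [e2M_coe k ((𝓕⁻ f).toLp 2), (𝓕⁻ f).coeFn_toLp 2 volume,
      (𝓕⁻ (f.compSubConstCLM ℂ (-k))).coeFn_toLp 2 volume] with x a1 a2 a3
    rw [a1, a2, a3, SchwartzMap.fourierInv_coe, SchwartzMap.fourierInv_coe, ← e2_inv]
    refine congrArg (fun g : V → ℂ => 𝓕⁻ g x) (funext fun v => ?_)
    rw [SchwartzMap.compSubConstCLM_apply, sub_neg_eq_add]

/-- Plancherel with a translation. -/
theorem fourier_corr (ψ : Lp ℂ 2 (volume : Measure V)) (k : V) :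
    ∫ ζ, (𝓕 ψ : Lp ℂ 2 (volume : Measure V)) (ζ + k) * conj ((𝓕 ψ : Lp ℂ 2 (volume : Measure V)) ζ)
      = ∫ x, ((‖ψ x‖ ^ 2 : ℝ) : ℂ) * ec (-⟪k, x⟫) := by
  have h1 := e2_comm k (𝓕 ψ)
  rw [FourierTransform.fourierInv_fourier_eq] at h1
  have h2 := Lp.inner_fourier_eq ψ (e2M k ψ)
  rw [← h1, FourierTransform.fourier_fourierInv_eq, h1, L2.inner_def, L2.inner_def] at h2
  refine (integral_congr_ae ?_).trans (h2.trans (integral_congr_ae ?_))
  · filter_upwards [e2T_coe k (𝓕 ψ)] with x a1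
    rw [a1, RCLike.inner_apply]
  · filter_upwards [e2M_coe k ψ] with x a1
    rw [a1, RCLike.inner_apply, mul_assoc, Complex.mul_conj, Complex.normSq_eq_norm_sq, mul_comm]

end Pool.Agent.P.MP_9f4f5e_mp.LT
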