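import Pool.Agent.P.MP_9f4f5e_mp.LT.Base

set_option autoImplicit false
set_option linter.unusedSectionVars false

open MeasureTheory Matrix
open scoped ENNReal ComplexOrder ComplexConjugate RealInnerProductSpace FourierTransform

noncomputable section

namespace Pool.Agent.P.MP_9f4f5e_mp.LT

/-- the remaining particles -/
def e3_rest {n : ℕ} (z : EN (n + 1)) : EN n := WithLp.toLp 2 fun p => z (p.1.succ, p.2)

theorem e3_glue_zero {n : ℕ} (x : E3) (y : EN n) (k : Fin 3) : glue x y (0, k) = x k := rfl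

theorem e3_glue_succ {n : ℕ} (x : E3) (y : EN n) (i : Fin n) (k : Fin 3) :
    glue x y (i.succ, k) = y (i, k) := rfl

theorem e3_rest_glue {n : ℕ} (x : E3) (y : EN n) : e3_rest (glue x y) = y := rfl

theorem e3_glue_rest {n : ℕ} (z : EN (n + 1)) : glue (part z 0) (e3_rest z) = z := by
  ext ⟨p, k⟩
  refine Fin.cases ?_ (fun q => ?_) p
  · rfl
  · rfl

theorem e3_glue_add {n : ℕ} (x x' : E3) (y y' : EN n) :
    glue (x + x') (y + y') = glue x y + glue x' y' := by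
  ext ⟨p, k⟩
  refine Fin.cases ?_ (fun q => ?_) p
  · rfl
  · rfl

theorem e3_glue_smul {n : ℕ} (c : ℝ) (x : E3) (y : EN n) :
    glue (c • x) (c • y) = c • glue x y := by
  ext ⟨p, k⟩
  refine Fin.cases ?_ (fun q => ?_) p
  · rfl
  · rfl

theorem e3_norm_glue {n : ℕ} (x : E3) (y : EN n) : ‖glue x y‖ ^ 2 = ‖x‖ ^ 2 + ‖y‖ ^ 2 := by
  rw [EuclideanSpace.norm_sq_eq, EuclideanSpace.norm_sq_eq, EuclideanSpace.norm_sq_eq,
    Fintype.sum_prod_type, Fintype.sum_prod_type, Fin.sum_univ_succ]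
  rfl

/-- gluing as a linear equivalence -/
def e3_lin (n : ℕ) : WithLp 2 (E3 × EN n) ≃ₗ[ℝ] EN (n + 1) where
  toFun p := glue p.ofLp.1 p.ofLp.2
  invFun z := WithLp.toLp 2 (part z 0, e3_rest z)
  map_add' _ _ := e3_glue_add _ _ _ _
  map_smul' _ _ := e3_glue_smul _ _ _
  left_inv _ := rfl
  right_inv z := e3_glue_rest z

/-- gluing as a linear isometry -/
def e3_iso (n : ℕ) : WithLp 2 (E3 × EN n) ≃ₗᵢ[ℝ] EN (n + 1) where
  toLinearEquiv := e3_lin n
  norm_map' p := by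
    have h1 : ‖e3_lin n p‖ ^ 2 = ‖p‖ ^ 2 := by
      rw [WithLp.prod_norm_sq_eq_of_L2]
      exact e3_norm_glue _ _
    exact (pow_left_inj₀ (norm_nonneg _) (norm_nonneg _) two_ne_zero).1 h1

/-- Hint: glue is a linear isometry equivalence from WithLp 2 (E3 × EN n) onto EN (n+1)
(Fintype.sum_prod_type, Fin.sum_univ_succ); LinearIsometryEquiv.measurePreserving and
WithLp.volume_preserving_toLp. -/
theorem mp_glue (n : ℕ) : MeasurePreserving (fun p : E3 × EN n => glue p.1 p.2)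
    ((volume : Measure E3).prod (volume : Measure (EN n))) volume :=
  (e3_iso n).measurePreserving.comp (WithLp.volume_preserving_toLp E3 (EN n))

theorem continuous_glue (n : ℕ) : Continuous fun p : E3 × EN n => glue p.1 p.2 :=
  (e3_iso n).continuous.comp (WithLp.prod_continuous_toLp 2 E3 (EN n))

theorem continuous_part {n : ℕ} (i : Fin n) : Continuous fun z : EN n => part z i := by
  unfold part
  fun_prop

theorem e3_continuous_rest {n : ℕ} : Continuous fun z : EN (n + 1) => e3_rest z := by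
  unfold e3_rest
  fun_prop

/-- gluing as a homeomorphism -/
def e3_homeo (n : ℕ) : E3 × EN n ≃ₜ EN (n + 1) where
  toFun p := glue p.1 p.2
  invFun z := (part z 0, e3_rest z)
  left_inv _ := rfl
  right_inv z := e3_glue_rest z
  continuous_toFun := continuous_glue n
  continuous_invFun := (continuous_part 0).prodMk e3_continuous_rest

theorem measurableEmbedding_glue (n : ℕ) :
    MeasurableEmbedding fun p : E3 × EN n => glue p.1 p.2 :=
  (e3_homeo n).measurableEmbedding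

theorem glue_add {n : ℕ} (x k : E3) (y : EN n) : glue (x + k) y = glue x y + glue k 0 := by
  rw [← e3_glue_add, add_zero]

theorem inner_glue {n : ℕ} (x k : E3) (y : EN n) :
    ⟪glue k (0 : EN n), glue x y⟫ = ⟪k, x⟫ := by
  rw [PiLp.inner_apply, PiLp.inner_apply, Fintype.sum_prod_type, Fin.sum_univ_succ]
  simp [e3_glue_zero, e3_glue_succ]

/-- symmetric kinetic energy. Hint: mp_sw 0 i, part_sw, lintegral_comp, lintegral_congr_ae. -/
theorem kin_symm {n : ℕ} {Ψ : EN (n + 1) → ℂ} (hm : Measurable Ψ)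
    (hanti : ∀ i j, i ≠ j → ∀ᵐ z, Ψ (sw i j z) = -Ψ z) (c : ℝ) :
    ∑ i : Fin (n + 1), ∫⁻ ξ, ENNReal.ofReal (c * ‖part ξ i‖) * ‖Ψ ξ‖ₑ ^ 2
      = ((n : ℝ≥0∞) + 1) * ∫⁻ ξ, ENNReal.ofReal (c * ‖part ξ 0‖) * ‖Ψ ξ‖ₑ ^ 2 := by
  have h1 : ∀ i : Fin (n + 1), ∫⁻ ξ, ENNReal.ofReal (c * ‖part ξ i‖) * ‖Ψ ξ‖ₑ ^ 2
      = ∫⁻ ξ, ENNReal.ofReal (c * ‖part ξ 0‖) * ‖Ψ ξ‖ₑ ^ 2 := by
    intro i
    by_cases hi : i = 0
    · rw [hi]
    have hf : Measurable fun ξ : EN (n + 1) =>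
        ENNReal.ofReal (c * ‖part ξ i‖) * ‖Ψ ξ‖ₑ ^ 2 :=
      ((continuous_part i).norm.measurable.const_mul c).ennreal_ofReal.mul
        (hm.enorm.pow_const 2)
    rw [← (mp_sw 0 i).lintegral_comp hf]
    refine lintegral_congr_ae ?_
    filter_upwards [hanti 0 i (Ne.symm hi)] with z hz
    rw [hz, part_sw, Equiv.swap_apply_right, enorm_neg]
  rw [Finset.sum_congr rfl fun i _ => h1 i, Finset.sum_const, Finset.card_univ, Fintype.card_fin,
    nsmul_eq_mul, Nat.cast_succ]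

/-- the numerical constant. Hint: cube both sides (pow_le_pow_left₀ / abs_le_of_sq..., rpow_natCast,
Real.rpow_neg), 0.838^3 * 6 π^2 * (711/100) ≤ 8 π^3 by Real.pi_gt_d2. -/
theorem const_le : (0.838 : ℝ) * (3 / 4 * (6 * Real.pi ^ 2) ^ (1 / 3 : ℝ))
    ≤ 2 * Real.pi * (3 / 4 * (4 * (711 / 400) : ℝ) ^ (-(1 / 3) : ℝ)) := by
  have hpi := Real.pi_gt_d2
  have hp0 : 0 < Real.pi := Real.pi_pos
  have ha : ((6 * Real.pi ^ 2) ^ (1 / 3 : ℝ)) ^ 3 = 6 * Real.pi ^ 2 := by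
    rw [← Real.rpow_natCast, ← Real.rpow_mul (by positivity)]
    norm_num
  have hb : ((4 * (711 / 400) : ℝ) ^ (-(1 / 3) : ℝ)) ^ 3 = 100 / 711 := by
    rw [← Real.rpow_natCast, ← Real.rpow_mul (by positivity)]
    have h3 : (-(1 / 3) : ℝ) * ((3 : ℕ) : ℝ) = -1 := by norm_num
    rw [h3, Real.rpow_neg_one]
    norm_num
  refine le_of_pow_le_pow_left₀ (n := 3) three_ne_zero (by positivity) ?_
  rw [mul_pow, mul_pow, mul_pow (2 * Real.pi), mul_pow (3 / 4 : ℝ), ha, hb]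
  have h2 : 0 < Real.pi ^ 2 := by positivity
  have h4 : (2 * Real.pi) ^ 3 = 8 * Real.pi ^ 2 * Real.pi := by ring
  rw [h4]
  nlinarith [mul_lt_mul_of_pos_left hpi h2]

end Pool.Agent.P.MP_9f4f5e_mp.LT
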