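import Pool.Agent.P.MP_9f4f5e_mp.LT.P1

set_option autoImplicit false
set_option linter.unusedSectionVars false

open MeasureTheory Matrix
open scoped ENNReal ComplexOrder ComplexConjugate RealInnerProductSpace FourierTransform

noncomputable section

namespace Pool.Agent.P.MP_9f4f5e_mp.LT

variable {Y : Type} [MeasurableSpace Y] {ν : Measure Y} [SFinite ν] {Φ : E3 × Y → ℂ} {ρ : E3 → ℝ}

theorem f1_iff {X : Type} [MeasurableSpace X] {μ : Measure X} {f : X → ℂ}
    (hf : AEStronglyMeasurable f μ) : MemLp f 2 μ ↔ ∫⁻ x, ‖f x‖ₑ ^ 2 ∂μ < ∞ := by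
  rw [MemLp, and_iff_right hf, eLpNorm_lt_top_iff_lintegral_rpow_enorm_lt_top two_ne_zero
    ENNReal.ofNat_ne_top]
  simp

/-- Hint: StronglyMeasurable.integral_prod_right'. -/
theorem measurable_uu (hΦ : Measurable Φ) (Q : Set E3) :
    Measurable fun p : E3 × Y => uu Q Φ p.1 p.2 := by
  have m : Measurable fun q : (E3 × Y) × E3 => Φ (q.1.1 + q.2, q.1.2) := by fun_prop
  exact (m.stronglyMeasurable.integral_prod_right' (ν := volume.restrict Q)).measurable

/-- Cauchy-Schwarz. Hint: enorm_integral_le_lintegral_enorm, ENNReal.lintegral_mul_le_Lp_mul_Lq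
with the constant 1. -/
theorem enorm_uu_sq_le (hΦ : Measurable Φ) (Q : Set E3) (p : E3) (y : Y) :
    ‖uu Q Φ p y‖ₑ ^ 2 ≤ volume Q * ∫⁻ s in Q, ‖Φ (p + s, y)‖ₑ ^ 2 := by
  have m : Measurable fun s : E3 => ‖Φ (p + s, y)‖ₑ := by fun_prop
  have h := ENNReal.lintegral_mul_le_Lp_mul_Lq (volume.restrict Q) Real.HolderConjugate.two_two
    (f := fun _ => 1) aemeasurable_const m.aemeasurable
  simp only [Pi.mul_apply, one_mul, one_pow, lintegral_const, Measure.restrict_apply_univ,
    ENNReal.rpow_two] at h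
  refine (pow_le_pow_left' ((enorm_integral_le_lintegral_enorm _).trans h) 2).trans_eq ?_
  rw [← ENNReal.mul_rpow_of_nonneg _ _ (by norm_num), ← ENNReal.rpow_two, ← ENNReal.rpow_mul]
  simp

theorem Data.memLp (D : Data ν Φ ρ) : MemLp Φ 2 ((volume : Measure E3).prod ν) := by
  exact (memLp_two_iff_integrable_sq_norm D.meas.aestronglyMeasurable).2 D.l2

/-- Hint: ae_memLp_left, translation invariance, L2 on a set of finite measure is L1. -/
theorem Data.ae_integrableOn (D : Data ν Φ ρ) {Q : Set E3} (hQ : volume Q ≠ ∞) :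
    ∀ᵐ y ∂ν, ∀ p : E3, IntegrableOn (fun s => Φ (p + s, y)) Q := by
  filter_upwards [ae_memLp_left D.memLp] with y hy p
  have : IsFiniteMeasure (volume.restrict Q) := isFiniteMeasure_restrict.2 hQ
  exact ((hy.comp_measurePreserving (measurePreserving_add_left volume p)).restrict Q).integrable
    one_le_two

/-- Hint: enorm_uu_sq_le, bound the integral over Q by the integral over E3, translate, Tonelli. -/
theorem Data.memLp_uu (D : Data ν Φ ρ) {Q : Set E3} (hQ : volume Q ≠ ∞) (p : E3) :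
    MemLp (uu Q Φ p) 2 ν := by
  have m := D.meas
  refine (f1_iff ((measurable_uu m Q).comp measurable_prodMk_left).aestronglyMeasurable).2 ?_
  calc _ ≤ ∫⁻ y, volume Q * ∫⁻ s, ‖Φ (s, y)‖ₑ ^ 2 ∂volume ∂ν := lintegral_mono fun y =>
        (enorm_uu_sq_le m Q p y).trans (mul_le_mul_right ((setLIntegral_le_lintegral _ _).trans_eq
          (lintegral_add_left_eq_self (fun s => ‖Φ (s, y)‖ₑ ^ 2) p)) _)
    _ < ∞ := by
      rw [lintegral_const_mul' _ _ hQ, ← lintegral_prod_symm' (fun z => ‖Φ z‖ₑ ^ 2) (by fun_prop)]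
      exact ENNReal.mul_lt_top hQ.lt_top ((f1_iff m.aestronglyMeasurable).1 D.memLp)

/-- Hint: enorm_uu_sq_le, Tonelli, lintegral_add_right_eq_self: the square norm is at most
volume Q ^ 2 times that of Φ. -/
theorem Data.memLp_uu_prod (D : Data ν Φ ρ) {Q : Set E3} (hQ : volume Q ≠ ∞) :
    MemLp (fun p : E3 × Y => uu Q Φ p.1 p.2) 2 ((volume : Measure E3).prod ν) := by
  have m := D.meas
  refine (f1_iff (measurable_uu m Q).aestronglyMeasurable).2 ?_
  calc _ ≤ ∫⁻ z : E3 × Y, volume Q * ∫⁻ s in Q, ‖Φ (z.1 + s, z.2)‖ₑ ^ 2 ∂volume ∂volume.prod ν :=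
        lintegral_mono fun z => enorm_uu_sq_le m Q z.1 z.2
    _ = volume Q * ∫⁻ s in Q, ∫⁻ z, ‖Φ z‖ₑ ^ 2 ∂volume.prod ν := by
      rw [lintegral_const_mul' _ _ hQ, lintegral_lintegral_swap (by fun_prop)]
      refine congrArg _ (lintegral_congr fun s => ?_)
      rw [lintegral_prod_symm' _ (by fun_prop), lintegral_prod_symm' _ (by fun_prop)]
      exact lintegral_congr fun y => lintegral_add_right_eq_self (fun x => ‖Φ (x, y)‖ₑ ^ 2) s
    _ < ∞ := by
      rw [lintegral_const, Measure.restrict_apply_univ]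
      exact ENNReal.mul_lt_top hQ.lt_top (ENNReal.mul_lt_top
        ((f1_iff m.aestronglyMeasurable).1 D.memLp) hQ.lt_top)

end Pool.Agent.P.MP_9f4f5e_mp.LT
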