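import Pool.Agent.P.MP_9f4f5e_mp.LT.F1

set_option autoImplicit false
set_option linter.unusedSectionVars false

open MeasureTheory Matrix
open scoped ENNReal ComplexOrder ComplexConjugate RealInnerProductSpace FourierTransform

noncomputable section

namespace Pool.Agent.P.MP_9f4f5e_mp.LT

variable {ι : Type} [Fintype ι] [DecidableEq ι]

variable {Y : Type} [MeasurableSpace Y] {ν : Measure Y} [SFinite ν] {Φ : E3 × Y → ℂ} {ρ : E3 → ℝ}

theorem f2_int {Q : Set E3} (hQm : MeasurableSet Q) (p : E3) (g : E3 → ℂ) (z : ℂ) :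
    ∫ ξ, conj ({ξ : E3 | ξ - p ∈ Q}.indicator (fun _ => z) ξ) * g ξ
      = conj z * ∫ s in Q, g (p + s) := by
  rw [← integral_add_left_eq_self _ p, ← integral_indicator hQm, ← integral_const_mul]
  refine integral_congr_ae (Filter.Eventually.of_forall fun s => ?_)
  by_cases hs : s ∈ Q
  · simp [Set.indicator, hs]
  · simp [Set.indicator, hs]

theorem f2_meas {Q : Set E3} (hQm : MeasurableSet Q) (p : E3) :
    MeasurableSet {ξ : E3 | ξ - p ∈ Q} :=
  (measurable_sub_const p) hQm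

theorem f2_vol (Q : Set E3) (p : E3) : volume {ξ : E3 | ξ - p ∈ Q} = volume Q := by
  have : {ξ : E3 | ξ - p ∈ Q} = (fun ξ => ξ + (-p)) ⁻¹' Q := by
    ext ξ; simp [sub_eq_add_neg]
  rw [this, measure_preimage_add_right]

theorem f2_integrable {Q : Set E3} (hQm : MeasurableSet Q) (p : E3) {g : E3 → ℂ} (z : ℂ)
    (hg : IntegrableOn (fun s => g (p + s)) Q) :
    Integrable fun ξ => conj ({ξ : E3 | ξ - p ∈ Q}.indicator (fun _ => z) ξ) * g ξ := by
  have h1 : Integrable (fun s => Q.indicator (fun s => conj z * g (p + s)) s) :=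
    (integrable_indicator_iff hQm).2 (hg.const_mul _)
  refine (h1.comp_sub_right p).congr (Filter.Eventually.of_forall fun ξ => ?_)
  by_cases hs : ξ - p ∈ Q
  · simp [Set.indicator, hs]
  · simp [Set.indicator, hs]

/-- Pauli bound for disjoint translates. Hint: f = ∑ i, indicator {ξ | ξ - (a i - t) ∈ Q} (c i);
for a.e. y (Data.ae_integrableOn) ∫ conj f * Φ (·, y) = ∑ conj (c i) * uu Q Φ (a i - t) y
(integral_finset_sum, integral_indicator, integral_add_left_eq_self); pointwise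
‖f ξ‖^2 = ∑ i, indicator ... (‖c i‖^2) by disjointness; measure_preimage_sub_right-type lemma;
D.pauli. -/
theorem Data.gram_le (D : Data ν Φ ρ) {Q : Set E3} (hQm : MeasurableSet Q) (hQ : volume Q ≠ ∞)
    (a : ι → E3) (hdis : ∀ i j, i ≠ j → ∀ s ∈ Q, ∀ s' ∈ Q, a i + s ≠ a j + s') (t : E3)
    (c : ι → ℂ) :
    ∫ y, ‖∑ i, conj (c i) * uu Q Φ (a i - t) y‖ ^ 2 ∂ν ≤ (volume Q).toReal * ∑ i, ‖c i‖ ^ 2 := by
  set f : E3 → ℂ := fun ξ => ∑ i, {ξ : E3 | ξ - (a i - t) ∈ Q}.indicator (fun _ => c i) ξ with hf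
  have hfm : MemLp f 2 volume :=
    memLp_finsetSum _ fun i _ => memLp_indicator_const 2 (f2_meas hQm _) (c i)
      (Or.inr (by rw [f2_vol]; exact hQ))
  have h1 : ∀ ξ, ‖f ξ‖ ^ 2
      = ∑ i, {ξ : E3 | ξ - (a i - t) ∈ Q}.indicator (fun _ => ‖c i‖ ^ 2) ξ := by
    intro ξ
    by_cases h : ∃ i, ξ - (a i - t) ∈ Q
    · obtain ⟨i, hi⟩ := h
      have h2 : ∀ j, j ≠ i → ξ - (a j - t) ∉ Q := fun j hj h3 =>
        hdis j i hj _ h3 _ hi (by abel)
      simp only [hf]
      rw [Finset.sum_eq_single i, Finset.sum_eq_single i]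
      · simp [Set.indicator, hi]
      · intro j _ hj
        simp [Set.indicator, h2 j hj]
      · simp
      · intro j _ hj
        simp [Set.indicator, h2 j hj]
      · simp
    · push Not at h
      simp [hf, Set.indicator, h]
  have h2 : ∫ ξ, ‖f ξ‖ ^ 2 = (volume Q).toReal * ∑ i, ‖c i‖ ^ 2 := by
    simp only [h1]
    rw [integral_finsetSum, Finset.mul_sum]
    · refine Finset.sum_congr rfl fun i _ => ?_
      rw [integral_indicator_const _ (f2_meas hQm _), Measure.real, f2_vol, smul_eq_mul]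
    · intro i _
      exact (integrable_indicator_iff (f2_meas hQm _)).2
        (integrableOn_const (by rw [f2_vol]; exact hQ))
  rw [← h2]
  refine le_trans (le_of_eq ?_) (D.pauli f hfm)
  refine integral_congr_ae ((D.ae_integrableOn hQ).mono fun y hy => ?_)
  simp only [hf, map_sum, Finset.sum_mul]
  rw [integral_finsetSum _ fun i _ =>
    f2_integrable hQm (a i - t) (g := fun ξ => Φ (ξ, y)) (c i) (hy _)]
  congr 2
  exact Finset.sum_congr rfl fun i _ => (f2_int hQm (a i - t) (fun ξ => Φ (ξ, y)) (c i)).symm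

/-- the quadratic form of a Gram matrix. Hint: MemLp.integrable_mul, integral_finset_sum,
Complex.mul_conj. -/
theorem qf_gram {u : ι → Y → ℂ} (hu : ∀ i, MemLp (u i) 2 ν) (r : ℝ) (c : ι → ℂ) :
    qf (Matrix.of fun i j => (r : ℂ) * ∫ y, u i y * conj (u j y) ∂ν) c
      = r * ∫ y, ‖∑ i, conj (c i) * u i y‖ ^ 2 ∂ν := by
  have hi : ∀ i j, Integrable (fun y => u i y * conj (u j y)) ν := fun i j =>
    (hu i).integrable_mul (hu j).star
  have h1 : star c ⬝ᵥ (Matrix.of fun i j => (r : ℂ) * ∫ y, u i y * conj (u j y) ∂ν) *ᵥ c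
      = ((r * ∫ y, ‖∑ i, conj (c i) * u i y‖ ^ 2 ∂ν : ℝ) : ℂ) := by
    have h2 : ∀ y, ((‖∑ i, conj (c i) * u i y‖ ^ 2 : ℝ) : ℂ)
        = ∑ i, ∑ j, conj (c i) * c j * (u i y * conj (u j y)) := by
      intro y
      rw [Complex.ofReal_pow, ← Complex.mul_conj', map_sum, Finset.sum_mul_sum]
      refine Finset.sum_congr rfl fun i _ => Finset.sum_congr rfl fun j _ => ?_
      rw [map_mul, Complex.conj_conj]
      ring
    rw [Complex.ofReal_mul, ← integral_complex_ofReal]
    simp only [h2]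
    rw [integral_finsetSum _ fun i _ => integrable_finsetSum _ fun j _ => (hi i j).const_mul _,
      Finset.mul_sum, dotProduct]
    refine Finset.sum_congr rfl fun i _ => ?_
    rw [integral_finsetSum _ fun j _ => (hi i j).const_mul _, Finset.mul_sum, Matrix.mulVec,
      dotProduct, Finset.mul_sum]
    refine Finset.sum_congr rfl fun j _ => ?_
    rw [integral_const_mul, Matrix.of_apply, Pi.star_apply, Complex.star_def]
    ring
  rw [qf, h1, Complex.ofReal_re]

end Pool.Agent.P.MP_9f4f5e_mp.LT
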