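import Pool.Agent.P.MP_9f4f5e_mp.LT.F1

set_option autoImplicit false
set_option linter.unusedSectionVars false

open MeasureTheory Matrix
open scoped ENNReal ComplexOrder ComplexConjugate RealInnerProductSpace FourierTransform

noncomputable section

namespace Pool.Agent.P.MP_9f4f5e_mp.LT

variable {Y : Type} [MeasurableSpace Y] {ν : Measure Y} [SFinite ν] {Φ : E3 × Y → ℂ} {ρ : E3 → ℝ}

theorem f3_ofReal (c : ℝ) (hc : 0 ≤ c) (z : ℂ) :
    ENNReal.ofReal (c * ‖z‖ ^ 2) = ENNReal.ofReal c * ‖z‖ₑ ^ 2 := by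
  rw [ENNReal.ofReal_mul hc, ENNReal.ofReal_pow (norm_nonneg _), ofReal_norm]

theorem f3_shift {F : E3 × Y → ℝ≥0∞} (hF : Measurable F) (s : E3) :
    ∫⁻ p, F (p.1 + s, p.2) ∂((volume : Measure E3).prod ν)
      = ∫⁻ p, F p ∂((volume : Measure E3).prod ν) := by
  have hm : Measurable fun p : E3 × Y => F (p.1 + s, p.2) :=
    hF.comp ((measurable_fst.add_const s).prodMk measurable_snd)
  rw [lintegral_prod _ hm.aemeasurable, lintegral_prod _ hF.aemeasurable]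
  exact lintegral_add_right_eq_self (fun p : E3 => ∫⁻ y, F (p, y) ∂ν) s

theorem f3_lin (hΦ : Measurable Φ) {Q : Set E3} (hQm : MeasurableSet Q) (hQ : volume Q ≠ ∞)
    {r : ℝ} (hr0 : 0 ≤ r) (hr : ∀ s ∈ Q, ‖s‖ ≤ r) :
    ∫⁻ p, ENNReal.ofReal (‖p.1‖ * ‖uu Q Φ p.1 p.2‖ ^ 2) ∂((volume : Measure E3).prod ν)
      ≤ volume Q ^ 2 *
        ∫⁻ p, ENNReal.ofReal ((‖p.1‖ + r) * ‖Φ p‖ ^ 2) ∂((volume : Measure E3).prod ν) := by
  set F : E3 × Y → ℝ≥0∞ := fun p => ENNReal.ofReal ((‖p.1‖ + r) * ‖Φ p‖ ^ 2) with hFdef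
  have hF : Measurable F :=
    ((measurable_fst.norm.add_const r).mul (hΦ.norm.pow_const 2)).ennreal_ofReal
  have hpt : ∀ p : E3 × Y, ENNReal.ofReal (‖p.1‖ * ‖uu Q Φ p.1 p.2‖ ^ 2)
      ≤ volume Q * ∫⁻ s in Q, F (p.1 + s, p.2) := by
    intro p
    rw [f3_ofReal _ (norm_nonneg _)]
    calc ENNReal.ofReal ‖p.1‖ * ‖uu Q Φ p.1 p.2‖ₑ ^ 2
        ≤ ENNReal.ofReal ‖p.1‖ * (volume Q * ∫⁻ s in Q, ‖Φ (p.1 + s, p.2)‖ₑ ^ 2) := by
          gcongr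
          exact enorm_uu_sq_le hΦ Q p.1 p.2
      _ = volume Q * ∫⁻ s in Q, ENNReal.ofReal ‖p.1‖ * ‖Φ (p.1 + s, p.2)‖ₑ ^ 2 := by
          rw [lintegral_const_mul' _ _ ENNReal.ofReal_ne_top, mul_left_comm]
      _ ≤ volume Q * ∫⁻ s in Q, F (p.1 + s, p.2) := by
          refine mul_le_mul_right (setLIntegral_mono' hQm fun s hs => ?_) _
          simp only [hFdef]
          rw [f3_ofReal _ (add_nonneg (norm_nonneg _) hr0)]
          refine mul_le_mul_left (ENNReal.ofReal_le_ofReal ?_) _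
          have h1 : ‖p.1‖ ≤ ‖p.1 + s‖ + ‖s‖ := by
            simpa using norm_sub_le (p.1 + s) s
          linarith [hr s hs]
  have hm : Measurable (Function.uncurry fun (p : E3 × Y) (s : E3) => F (p.1 + s, p.2)) :=
    hF.comp ((measurable_fst.fst.add measurable_snd).prodMk measurable_fst.snd)
  calc ∫⁻ p, ENNReal.ofReal (‖p.1‖ * ‖uu Q Φ p.1 p.2‖ ^ 2) ∂((volume : Measure E3).prod ν)
      ≤ ∫⁻ p, volume Q * ∫⁻ s in Q, F (p.1 + s, p.2) ∂volume ∂((volume : Measure E3).prod ν) :=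
        lintegral_mono hpt
    _ = volume Q * ∫⁻ s in Q, ∫⁻ p, F (p.1 + s, p.2) ∂((volume : Measure E3).prod ν) := by
        rw [lintegral_const_mul' _ _ hQ, lintegral_lintegral_swap hm.aemeasurable]
    _ = volume Q * ∫⁻ _ in Q, ∫⁻ p, F p ∂((volume : Measure E3).prod ν) := by
        simp only [f3_shift hF]
    _ = volume Q ^ 2 * ∫⁻ p, F p ∂((volume : Measure E3).prod ν) := by
        rw [setLIntegral_const]
        ring

/-- Kinetic bound. Hint: work with lintegrals: ∫⁻ p, ofReal ‖p‖ * ∫⁻ y, ‖uu Q Φ p y‖ₑ^2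
≤ volume Q * ∫⁻ s in Q, ∫⁻ p, ∫⁻ y, ofReal (‖p + s‖ + r) * ‖Φ (p + s, y)‖ₑ^2
= volume Q ^ 2 * ofReal (T + r N) (enorm_uu_sq_le, Tonelli, lintegral_add_right_eq_self);
lintegral_sub_left_eq_self; convert with ofReal_integral_eq_lintegral_ofReal,
Data.memLp_uu, measurability by StronglyMeasurable.integral_prod_right'. -/
theorem Data.kin_le (D : Data ν Φ ρ) {Q : Set E3} (hQm : MeasurableSet Q) (hQ : volume Q ≠ ∞)
    {r : ℝ} (hr0 : 0 ≤ r) (hr : ∀ s ∈ Q, ‖s‖ ≤ r) (a : E3) :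
    Integrable (fun t : E3 => ‖a - t‖ * ∫ y, ‖uu Q Φ (a - t) y‖ ^ 2 ∂ν) ∧
      ∫ t : E3, ‖a - t‖ * ∫ y, ‖uu Q Φ (a - t) y‖ ^ 2 ∂ν
        ≤ (volume Q).toReal ^ 2 * (∫ p, ‖p.1‖ * ‖Φ p‖ ^ 2 ∂((volume : Measure E3).prod ν)
          + r * ∫ p, ‖Φ p‖ ^ 2 ∂((volume : Measure E3).prod ν)) := by
  set g : E3 × Y → ℝ := fun p => ‖p.1‖ * ‖uu Q Φ p.1 p.2‖ ^ 2 with hg
  have hg0 : ∀ p, 0 ≤ g p := fun p => mul_nonneg (norm_nonneg _) (sq_nonneg _)
  have hgm : Measurable g := measurable_fst.norm.mul ((measurable_uu D.meas Q).norm.pow_const 2)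
  have hI : Integrable (fun p : E3 × Y => (‖p.1‖ + r) * ‖Φ p‖ ^ 2)
      ((volume : Measure E3).prod ν) := by
    refine (D.kin.add (D.l2.const_mul r)).congr (Filter.Eventually.of_forall fun p => ?_)
    simp only [Pi.add_apply]
    ring
  have hE : ∫ p, (‖p.1‖ + r) * ‖Φ p‖ ^ 2 ∂((volume : Measure E3).prod ν)
      = ∫ p, ‖p.1‖ * ‖Φ p‖ ^ 2 ∂((volume : Measure E3).prod ν)
          + r * ∫ p, ‖Φ p‖ ^ 2 ∂((volume : Measure E3).prod ν) := by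
    rw [← integral_const_mul, ← integral_add D.kin (D.l2.const_mul r)]
    refine integral_congr_ae (Filter.Eventually.of_forall fun p => ?_)
    simp only
    ring
  have hpos : ∀ p : E3 × Y, 0 ≤ (‖p.1‖ + r) * ‖Φ p‖ ^ 2 := fun p =>
    mul_nonneg (add_nonneg (norm_nonneg _) hr0) (sq_nonneg _)
  have hL := f3_lin (ν := ν) D.meas hQm hQ hr0 hr
  rw [← ofReal_integral_eq_lintegral_ofReal hI (Filter.Eventually.of_forall hpos)] at hL
  have hfin : volume Q ^ 2 * ENNReal.ofReal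
      (∫ p, (‖p.1‖ + r) * ‖Φ p‖ ^ 2 ∂((volume : Measure E3).prod ν)) ≠ ∞ :=
    ENNReal.mul_ne_top (ENNReal.pow_ne_top hQ) ENNReal.ofReal_ne_top
  have hgi : Integrable g ((volume : Measure E3).prod ν) :=
    ⟨hgm.aestronglyMeasurable, (hasFiniteIntegral_iff_ofReal
      (Filter.Eventually.of_forall hg0)).2 (lt_of_le_of_lt hL hfin.lt_top)⟩
  have hsl : ∀ p : E3, ∫ y, g (p, y) ∂ν = ‖p‖ * ∫ y, ‖uu Q Φ p y‖ ^ 2 ∂ν := fun p =>
    integral_const_mul ‖p‖ fun y => ‖uu Q Φ p y‖ ^ 2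
  have h1 : Integrable (fun p : E3 => ‖p‖ * ∫ y, ‖uu Q Φ p y‖ ^ 2 ∂ν) := by
    have h := hgi.integral_prod_left
    simpa only [hsl] using h
  refine ⟨h1.comp_sub_left a, ?_⟩
  rw [integral_sub_left_eq_self (fun p : E3 => ‖p‖ * ∫ y, ‖uu Q Φ p y‖ ^ 2 ∂ν) volume a]
  have h2 : ∫ p : E3, ‖p‖ * ∫ y, ‖uu Q Φ p y‖ ^ 2 ∂ν
      = ∫ p, g p ∂((volume : Measure E3).prod ν) := by
    rw [integral_prod _ hgi]
    simp only [hsl]
  rw [h2, ← hE, integral_eq_lintegral_of_nonneg_ae (Filter.Eventually.of_forall hg0)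
    hgm.aestronglyMeasurable]
  refine (ENNReal.toReal_mono hfin hL).trans (le_of_eq ?_)
  rw [ENNReal.toReal_mul, ENNReal.toReal_pow, ENNReal.toReal_ofReal (integral_nonneg hpos)]

end Pool.Agent.P.MP_9f4f5e_mp.LT
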