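import Pool.Agent.P.MP_9f4f5e_mp.LT.F1

set_option autoImplicit false
set_option linter.unusedSectionVars false

open MeasureTheory Matrix
open scoped ENNReal ComplexOrder ComplexConjugate RealInnerProductSpace FourierTransform

noncomputable section

namespace Pool.Agent.P.MP_9f4f5e_mp.LT

variable {Y : Type} [MeasurableSpace Y] {ν : Measure Y} [SFinite ν] {Φ : E3 × Y → ℂ} {ρ : E3 → ℝ}

/-- translations in the first variable preserve the product measure -/
theorem mp_shift (k : E3) : MeasurePreserving (fun p : E3 × Y => (p.1 + k, p.2))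
    ((volume : Measure E3).prod ν) ((volume : Measure E3).prod ν) :=
  (measurePreserving_add_right (volume : Measure E3) k).prod (MeasurePreserving.id ν)

/-- One-sided averaging. Hint: integral_integral_swap on (volume.prod ν).prod (volume.restrict Q);
the integrand is measurable and bounded by ‖A (p.1 + k + s, p.2)‖^2 + ‖B p‖^2, integrable by
Tonelli and mp_shift. -/
theorem integral_uu_mul {A B : E3 × Y → ℂ} (hA : Measurable A) (hB : Measurable B)
    (hA2 : MemLp A 2 ((volume : Measure E3).prod ν))
    (hB2 : MemLp B 2 ((volume : Measure E3).prod ν)) {Q : Set E3} (hQ : volume Q ≠ ∞) (k : E3) :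
    ∫ p, uu Q A (p.1 + k) p.2 * B p ∂((volume : Measure E3).prod ν)
      = ∫ s in Q, ∫ p, A (p.1 + k + s, p.2) * B p ∂((volume : Measure E3).prod ν) := by
  have : IsFiniteMeasure ((volume : Measure E3).restrict Q) := isFiniteMeasure_restrict.2 hQ
  have hm : Measurable fun q : E3 × (E3 × Y) => A (q.2.1 + k + q.1, q.2.2) * B q.2 := by fun_prop
  have h1 : ∀ s : E3, MemLp (fun p : E3 × Y => A (p.1 + k + s, p.2)) 2
      ((volume : Measure E3).prod ν) := fun s => by
    simpa only [Function.comp_def, add_assoc] using hA2.comp_measurePreserving (mp_shift (k + s))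
  have h2 : ∀ s : E3, ∫ p, ‖A (p.1 + k + s, p.2)‖ ^ 2 ∂((volume : Measure E3).prod ν) =
      ∫ p, ‖A p‖ ^ 2 ∂((volume : Measure E3).prod ν) := fun s => by
    have := integral_map (μ := (volume : Measure E3).prod ν) (mp_shift (ν := ν) (k + s)).aemeasurable
      (f := fun p => ‖A p‖ ^ 2) (by fun_prop)
    rw [(mp_shift (ν := ν) (k + s)).map_eq] at this
    simpa only [add_assoc] using this.symm
  have h3 : ∀ s : E3, Integrable (fun p : E3 × Y => A (p.1 + k + s, p.2) * B p)
      ((volume : Measure E3).prod ν) := fun s => (h1 s).integrable_mul hB2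
  have hi : Integrable (fun q : E3 × (E3 × Y) => A (q.2.1 + k + q.1, q.2.2) * B q.2)
      (((volume : Measure E3).restrict Q).prod ((volume : Measure E3).prod ν)) := by
    refine (integrable_prod_iff hm.aestronglyMeasurable).2 ⟨Filter.Eventually.of_forall h3, ?_⟩
    refine Integrable.of_bound hm.norm.stronglyMeasurable.integral_prod_right'.aestronglyMeasurable
      (∫ p, ‖A p‖ ^ 2 ∂((volume : Measure E3).prod ν) + ∫ p, ‖B p‖ ^ 2 ∂((volume : Measure E3).prod ν))
      (Filter.Eventually.of_forall fun s => ?_)
    have i1 := (memLp_two_iff_integrable_sq_norm (h1 s).1).1 (h1 s)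
    have i2 := (memLp_two_iff_integrable_sq_norm hB2.1).1 hB2
    rw [Real.norm_of_nonneg (integral_nonneg fun _ => norm_nonneg _), ← h2 s, ← integral_add i1 i2]
    refine integral_mono (h3 s).norm (i1.add i2) fun p => ?_
    simp only [norm_mul]
    nlinarith [sq_nonneg (‖A (p.1 + k + s, p.2)‖ - ‖B p‖), norm_nonneg (A (p.1 + k + s, p.2)),
      norm_nonneg (B p)]
  rw [integral_integral_swap (f := fun (s : E3) (p : E3 × Y) => A (p.1 + k + s, p.2) * B p) hi]
  simp only [uu, integral_mul_const]

end Pool.Agent.P.MP_9f4f5e_mp.LT
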