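import Pool.Agent.P.MP_9f4f5e_mp.LT.F4

set_option autoImplicit false
set_option linter.unusedSectionVars false

open MeasureTheory Matrix
open scoped ENNReal ComplexOrder ComplexConjugate RealInnerProductSpace FourierTransform

noncomputable section

namespace Pool.Agent.P.MP_9f4f5e_mp.LT

variable {Y : Type} [MeasurableSpace Y] {ν : Measure Y} [SFinite ν] {Φ : E3 × Y → ℂ} {ρ : E3 → ℝ}

theorem f5_swap {g : E3 → ℂ} (hg : Integrable g) {Q : Set E3} (hQ : volume Q ≠ ∞)
    {φ : E3 → E3 → ℝ} (hφ : Continuous fun p : E3 × E3 => φ p.1 p.2) :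
    ∫ s in Q, ∫ z, g z * ec (φ s z) = ∫ z, g z * ∫ s in Q, ec (φ s z) := by
  have : IsFiniteMeasure ((volume : Measure E3).restrict Q) := ⟨by simpa using hQ.lt_top⟩
  have h1 : Integrable (fun p : E3 × E3 => (1 : ℂ) * g p.2)
      (((volume : Measure E3).restrict Q).prod volume) :=
    (integrable_const (1 : ℂ)).mul_prod hg
  have h2 : Integrable (Function.uncurry fun (s : E3) (z : E3) => g z * ec (φ s z))
      (((volume : Measure E3).restrict Q).prod volume) := by
    have h3 := h1.mul_bdd (c := 1) (g := fun p : E3 × E3 => ec (φ p.1 p.2))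
      (continuous_ec.comp hφ).aestronglyMeasurable
      (Filter.Eventually.of_forall fun p => (norm_ec _).le)
    refine h3.congr (Filter.Eventually.of_forall fun p => ?_)
    simp [Function.uncurry]
  rw [integral_integral_swap h2]
  refine integral_congr_ae (Filter.Eventually.of_forall fun z => ?_)
  simp only
  rw [integral_const_mul]

theorem f5_ww_meas (Q : Set E3) : StronglyMeasurable (ww Q) := by
  have h : StronglyMeasurable fun p : E3 × E3 => ec (-⟪p.2, p.1⟫) := by
    refine Continuous.stronglyMeasurable ?_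
    fun_prop
  exact h.integral_prod_right' (ν := (volume : Measure E3).restrict Q)

theorem f5_ww_le {Q : Set E3} (hQ : volume Q ≠ ∞) (z : E3) : ‖ww Q z‖ ≤ volume.real Q := by
  have h := norm_setIntegral_le_of_norm_le_const (μ := (volume : Measure E3)) (s := Q)
    (f := fun s : E3 => ec (-⟪s, z⟫)) (C := 1) hQ.lt_top fun s _ => (norm_ec _).le
  simpa [ww] using h

theorem f5_conj_ww (Q : Set E3) (z : E3) : ∫ s in Q, ec ⟪s, z⟫ = conj (ww Q z) := by
  rw [ww, ← integral_conj]
  refine integral_congr_ae (Filter.Eventually.of_forall fun s => ?_)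
  simp only
  rw [← ec_neg, neg_neg]

/-- Fubini on the density side. Hint: ec_add, ec_neg, norm_ec, integral_integral_swap twice
(bounded by ρ times the finite measure), integral_conj, Complex.mul_conj. -/
theorem integral_rho_ww (hρ : Integrable ρ) (hm : Measurable ρ) {Q : Set E3}
    (hQ : volume Q ≠ ∞) (k : E3) :
    ∫ s in Q, ∫ s' in Q, ∫ z, (ρ z : ℂ) * ec (-⟪k + s - s', z⟫)
      = ∫ z, ((ρ z * ‖ww Q z‖ ^ 2 : ℝ) : ℂ) * ec (-⟪k, z⟫) := by
  have hρ' : Integrable fun z => (ρ z : ℂ) := hρ.ofReal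
  have hb : ∀ v : E3, ∀ {g : E3 → ℂ}, Integrable g →
      Integrable fun z => g z * ec (-⟪v, z⟫) := fun v g hg =>
    hg.mul_bdd (c := 1) (Continuous.aestronglyMeasurable (by fun_prop))
      (Filter.Eventually.of_forall fun z => (norm_ec _).le)
  have hg : Integrable fun z => (ρ z : ℂ) * ec (-⟪k, z⟫) * conj (ww Q z) :=
    (hb k hρ').mul_bdd (c := volume.real Q)
      (Complex.continuous_conj.comp_stronglyMeasurable (f5_ww_meas Q)).aestronglyMeasurable
      (Filter.Eventually.of_forall fun z => by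
        rw [Complex.norm_conj]; exact f5_ww_le hQ z)
  have h1 : ∀ s : E3, ∫ s' in Q, ∫ z, (ρ z : ℂ) * ec (-⟪k + s - s', z⟫)
      = ∫ z, ((ρ z : ℂ) * ec (-⟪k, z⟫) * conj (ww Q z)) * ec (-⟪s, z⟫) := by
    intro s
    have h2 := f5_swap (hb s (hb k hρ')) hQ (φ := fun s' z => ⟪s', z⟫) (by fun_prop)
    have h3 : ∀ s' z : E3, (ρ z : ℂ) * ec (-⟪k + s - s', z⟫)
        = (ρ z : ℂ) * ec (-⟪k, z⟫) * ec (-⟪s, z⟫) * ec ⟪s', z⟫ := by
      intro s' z
      rw [mul_assoc, mul_assoc, ← ec_add, ← ec_add, inner_sub_left, inner_add_left]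
      congr 2
      ring
    simp only [h3]
    rw [h2]
    refine integral_congr_ae (Filter.Eventually.of_forall fun z => ?_)
    simp only
    rw [f5_conj_ww]
    ring
  simp only [h1]
  rw [f5_swap hg hQ (φ := fun s z => -⟪s, z⟫) (by fun_prop)]
  refine integral_congr_ae (Filter.Eventually.of_forall fun z => ?_)
  simp only
  have h4 : ∫ s in Q, ec (-⟪s, z⟫) = ww Q z := rfl
  have h5 : ((‖ww Q z‖ ^ 2 : ℝ) : ℂ) = ww Q z * conj (ww Q z) := by
    rw [Complex.mul_conj, Complex.normSq_eq_norm_sq]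
  rw [h4, Complex.ofReal_mul, h5]
  ring

theorem f5_shift {G : E3 × Y → ℂ} (hG : Measurable G) (k : E3) :
    ∫ p, G (p.1 + k, p.2) ∂((volume : Measure E3).prod ν)
      = ∫ p, G p ∂((volume : Measure E3).prod ν) := by
  have h := mp_shift (ν := ν) k
  rw [← integral_map h.measurable.aemeasurable hG.aestronglyMeasurable, h.map_eq]

theorem f5_memLp_conj {G : E3 × Y → ℂ} (hG : MemLp G 2 ((volume : Measure E3).prod ν)) :
    MemLp (fun p => conj (G p)) 2 ((volume : Measure E3).prod ν) :=
  hG.congr_norm (Complex.continuous_conj.comp_aestronglyMeasurable hG.1)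
    (Filter.Eventually.of_forall fun p => (Complex.norm_conj _).symm)

/-- The averaged Gram entries. Hint: substitute p = b - t (integral_sub_left_eq_self), k = a - b,
integral_prod (integrable by Data.memLp_uu_prod, mp_shift, MemLp.integrable_mul);
integral_uu_mul twice (conj (uu Q Φ p y) = uu Q (conj Φ) p y by integral_conj), shift by mp_shift,
D.corr, integral_rho_ww. -/
theorem Data.corr_uu (D : Data ν Φ ρ) {Q : Set E3} (hQ : volume Q ≠ ∞) (a b : E3) :
    Integrable (fun t : E3 => ∫ y, uu Q Φ (a - t) y * conj (uu Q Φ (b - t) y) ∂ν) ∧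
      ∫ t : E3, ∫ y, uu Q Φ (a - t) y * conj (uu Q Φ (b - t) y) ∂ν
        = ∫ z, ((ρ z * ‖ww Q z‖ ^ 2 : ℝ) : ℂ) * ec (-⟪a - b, z⟫) := by
  have hU := D.memLp_uu_prod hQ
  have hUm := measurable_uu D.meas Q
  have hΦc : Measurable fun p => conj (Φ p) := Complex.continuous_conj.measurable.comp D.meas
  have hsh : ∀ v : E3, Measurable fun p : E3 × Y => (p.1 + v, p.2) := fun v =>
    (mp_shift (ν := ν) v).measurable
  have hH : Integrable (fun p : E3 × Y => uu Q Φ (p.1 + (a - b)) p.2 * conj (uu Q Φ p.1 p.2))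
      ((volume : Measure E3).prod ν) :=
    (hU.comp_measurePreserving (mp_shift (a - b))).integrable_mul (f5_memLp_conj hU)
  have hab : ∀ t : E3, a - t = b - t + (a - b) := fun t => by abel
  have hF := hH.integral_prod_left
  have hFt := hF.comp_sub_left b
  have hfun : (fun t : E3 => ∫ y, uu Q Φ (a - t) y * conj (uu Q Φ (b - t) y) ∂ν)
      = fun t : E3 => ∫ y, uu Q Φ (b - t + (a - b)) y * conj (uu Q Φ (b - t) y) ∂ν :=
    funext fun t => by rw [← hab t]
  rw [hfun]
  refine ⟨hFt, ?_⟩
  rw [integral_sub_left_eq_self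
    (fun x : E3 => ∫ y, uu Q Φ (x + (a - b)) y * conj (uu Q Φ x y) ∂ν) volume b,
    ← integral_prod _ hH,
    integral_uu_mul (B := fun p : E3 × Y => conj (uu Q Φ p.1 p.2)) D.meas
      (Complex.continuous_conj.measurable.comp hUm) D.memLp
      (f5_memLp_conj hU) hQ (a - b),
    ← integral_rho_ww D.rho_int D.rho_meas hQ (a - b)]
  refine integral_congr_ae (Filter.Eventually.of_forall fun s => ?_)
  simp only
  have h1 : ∀ p : E3 × Y, Φ (p.1 + (a - b) + s, p.2) * conj (uu Q Φ p.1 p.2)
      = uu Q (fun p => conj (Φ p)) (p.1 + 0) p.2 * Φ (p.1 + (a - b + s), p.2) := by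
    intro p
    simp only [uu, add_zero, add_assoc]
    rw [integral_conj, mul_comm]
  simp only [h1]
  rw [integral_uu_mul hΦc (B := fun p : E3 × Y => Φ (p.1 + (a - b + s), p.2))
    (D.meas.comp (hsh _)) (f5_memLp_conj D.memLp)
    (D.memLp.comp_measurePreserving (mp_shift (a - b + s))) hQ 0]
  refine integral_congr_ae (Filter.Eventually.of_forall fun s' => ?_)
  simp only
  rw [← D.corr, ← f5_shift (G := fun p => Φ (p.1 + (a - b + s - s'), p.2) * conj (Φ p))
    ((D.meas.comp (hsh _)).mul hΦc) s']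
  refine integral_congr_ae (Filter.Eventually.of_forall fun p => ?_)
  have h2 : p.1 + s' + (a - b + s - s') = p.1 + (a - b + s) := by abel
  simp only [h2, add_zero]
  rw [mul_comm]

end Pool.Agent.P.MP_9f4f5e_mp.LT
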