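import Pool.Agent.P.MP_9f4f5e_mp.LT.D3
import Pool.Agent.P.MP_9f4f5e_mp.LT.F2
import Pool.Agent.P.MP_9f4f5e_mp.LT.F3
import Pool.Agent.P.MP_9f4f5e_mp.LT.F5

set_option autoImplicit false
set_option linter.unusedSectionVars false

open MeasureTheory Matrix
open scoped ENNReal ComplexOrder ComplexConjugate RealInnerProductSpace FourierTransform

noncomputable section

namespace Pool.Agent.P.MP_9f4f5e_mp.LT

variable {ι : Type} [Fintype ι] [DecidableEq ι]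

variable {Y : Type} [MeasurableSpace Y] {ν : Measure Y} [SFinite ν] {Φ : E3 × Y → ℂ} {ρ : E3 → ℝ}

theorem f6_trace (G : ι → ι → ℂ) (n d : ι → ℝ) (hG : ∀ i, G i i = (n i : ℂ)) (r : ℝ)
    (W : Matrix ι ι ℂ) :
    ((Matrix.of fun i j => (r : ℂ) * G i j) * (W - dg d)).trace.re
      = r * (∑ i, ∑ j, G i j * W j i).re - r * ∑ i, d i * n i := by
  have h1 : ((Matrix.of fun i j => (r : ℂ) * G i j) * W).trace
      = (r : ℂ) * ∑ i, ∑ j, G i j * W j i := by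
    simp only [Matrix.trace, Matrix.diag_apply, Matrix.mul_apply, Matrix.of_apply, Finset.mul_sum,
      mul_assoc]
  have h2 : ((Matrix.of fun i j => (r : ℂ) * G i j) * dg d).trace
      = ((r * ∑ i, d i * n i : ℝ) : ℂ) := by
    simp only [Matrix.trace, Matrix.diag_apply, dg, Matrix.mul_diagonal, Matrix.of_apply, hG]
    push_cast
    rw [Finset.mul_sum]
    exact Finset.sum_congr rfl fun i _ => by ring
  rw [Matrix.mul_sub, Matrix.trace_sub, Complex.sub_re, h1, h2, Complex.ofReal_re,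
    Complex.re_ofReal_mul]

theorem f6_diag (u : Y → ℂ) :
    ∫ y, u y * conj (u y) ∂ν = ((∫ y, ‖u y‖ ^ 2 ∂ν : ℝ) : ℂ) := by
  rw [← integral_complex_ofReal]
  refine integral_congr_ae (Filter.Eventually.of_forall fun y => ?_)
  simp only [Complex.mul_conj, Complex.normSq_eq_norm_sq]

theorem f6_le {φ ψ : E3 → ℝ} (hφ : Integrable φ) (h : ∀ t, φ t ≤ ψ t) {c : ℝ} (hc : 0 ≤ c)
    (hψ : ∫⁻ t, ENNReal.ofReal (ψ t) ≤ ENNReal.ofReal c) : ∫ t, φ t ≤ c := by
  rw [integral_eq_lintegral_pos_part_sub_lintegral_neg_part hφ]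
  have h1 : (∫⁻ t, ENNReal.ofReal (φ t)).toReal ≤ c :=
    ENNReal.toReal_le_of_le_ofReal hc
      ((lintegral_mono fun t => ENNReal.ofReal_le_ofReal (h t)).trans hψ)
  linarith [ENNReal.toReal_nonneg (a := ∫⁻ t, ENNReal.ofReal (-φ t))]

/-- Finite level inequality. Hint: v = (volume Q).toReal,
g t = Matrix.of fun i j => v⁻¹ * ∫ y, uu (a i - t) y * conj (uu (a j - t) y); qf_gram, Data.gram_le,
trace_mul_le_tp_one give φ t := (g t * (W - dg ‖a i - t‖)).trace.re ≤ tp 1 (...);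
φ t = (∑ i j, g t i j * W j i).re - ∑ i, ‖a i - t‖ * (v⁻¹ * ∫ y, ‖uu‖^2) is integrable
(Data.corr_uu, Data.kin_le); ofReal (∫ φ) ≤ ∫⁻ ofReal φ ≤ lt_main. -/
theorem Data.finite_level (D : Data ν Φ ρ) {Q : Set E3} (hQm : MeasurableSet Q)
    (hQ : volume Q ≠ ∞) (hQ0 : volume Q ≠ 0) {r : ℝ} (hr0 : 0 ≤ r) (hr : ∀ s ∈ Q, ‖s‖ ≤ r)
    (a : ι → E3) (hdis : ∀ i j, i ≠ j → ∀ s ∈ Q, ∀ s' ∈ Q, a i + s ≠ a j + s')
    {W : Matrix ι ι ℂ} (hW : W.IsHermitian) :
    (volume Q).toReal⁻¹ *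
        (∑ i, ∑ j, (∫ z, ((ρ z * ‖ww Q z‖ ^ 2 : ℝ) : ℂ) * ec (-⟪a i - a j, z⟫)) * W j i).re
      ≤ Fintype.card ι * (volume Q).toReal
          * (∫ p, ‖p.1‖ * ‖Φ p‖ ^ 2 ∂((volume : Measure E3).prod ν)
            + r * ∫ p, ‖Φ p‖ ^ 2 ∂((volume : Measure E3).prod ν))
        + 711 / 400 * tp 4 W := by
  have hv : 0 < (volume Q).toReal := ENNReal.toReal_pos hQ0 hQ
  have hC := fun i j => D.corr_uu hQ (a i) (a j)
  have hk := fun i => D.kin_le hQm hQ hr0 hr (a i)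
  have hpt : ∀ t : E3, (volume Q).toReal⁻¹ *
      (∑ i, ∑ j, (∫ y, uu Q Φ (a i - t) y * conj (uu Q Φ (a j - t) y) ∂ν) * W j i).re -
        (volume Q).toReal⁻¹ * ∑ i, ‖a i - t‖ * ∫ y, ‖uu Q Φ (a i - t) y‖ ^ 2 ∂ν
      ≤ tp 1 (W - dg fun i => ‖a i - t‖) := fun t => by
    rw [← f6_trace (fun i j => ∫ y, uu Q Φ (a i - t) y * conj (uu Q Φ (a j - t) y) ∂ν) _ _
      (fun i => f6_diag _)]
    have hq := qf_gram (u := fun i => uu Q Φ (a i - t)) (fun i => D.memLp_uu hQ _)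
      (volume Q).toReal⁻¹
    refine trace_mul_le_tp_one (hW.sub (dg_isHermitian _)) (fun c => ?_) fun c => ?_
    · rw [hq]
      exact mul_nonneg (inv_nonneg.2 hv.le) (integral_nonneg fun y => by positivity)
    · rw [hq, inv_mul_le_iff₀ hv]
      exact D.gram_le hQm hQ a hdis t c
  have hA : Integrable fun t : E3 =>
      ∑ i, ∑ j, (∫ y, uu Q Φ (a i - t) y * conj (uu Q Φ (a j - t) y) ∂ν) * W j i :=
    integrable_finset_sum _ fun i _ => integrable_finset_sum _ fun j _ => (hC i j).1.mul_const _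
  have hA' : Integrable fun t : E3 =>
      (∑ i, ∑ j, (∫ y, uu Q Φ (a i - t) y * conj (uu Q Φ (a j - t) y) ∂ν) * W j i).re := hA.re
  have hB : Integrable fun t : E3 => ∑ i, ‖a i - t‖ * ∫ y, ‖uu Q Φ (a i - t) y‖ ^ 2 ∂ν :=
    integrable_finset_sum _ fun i _ => (hk i).1
  have key := f6_le ((hA'.const_mul _).sub (hB.const_mul _)) hpt
    (mul_nonneg (by norm_num) (tp_nonneg hW 4)) (lt_main hW a)
  have eA : ∫ t : E3,
      (∑ i, ∑ j, (∫ y, uu Q Φ (a i - t) y * conj (uu Q Φ (a j - t) y) ∂ν) * W j i).re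
      = (∑ i, ∑ j, (∫ z, ((ρ z * ‖ww Q z‖ ^ 2 : ℝ) : ℂ) * ec (-⟪a i - a j, z⟫)) * W j i).re := by
    refine (integral_re hA).trans (congrArg Complex.re ?_)
    rw [integral_finset_sum _ fun i _ =>
      integrable_finset_sum _ fun j _ => (hC i j).1.mul_const _]
    refine Finset.sum_congr rfl fun i _ => ?_
    rw [integral_finset_sum _ fun j _ => (hC i j).1.mul_const _]
    refine Finset.sum_congr rfl fun j _ => ?_
    rw [integral_mul_const, (hC i j).2]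
  have eB : ∫ t : E3, ∑ i, ‖a i - t‖ * ∫ y, ‖uu Q Φ (a i - t) y‖ ^ 2 ∂ν
      ≤ Fintype.card ι * ((volume Q).toReal ^ 2 *
        (∫ p, ‖p.1‖ * ‖Φ p‖ ^ 2 ∂((volume : Measure E3).prod ν)
          + r * ∫ p, ‖Φ p‖ ^ 2 ∂((volume : Measure E3).prod ν))) := by
    rw [integral_finset_sum _ fun i _ => (hk i).1]
    refine (Finset.sum_le_sum fun i _ => (hk i).2).trans_eq ?_
    rw [Finset.sum_const, Finset.card_univ, nsmul_eq_mul]
  simp only [Pi.sub_apply] at key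
  rw [integral_sub (hA'.const_mul _) (hB.const_mul _), integral_const_mul, integral_const_mul,
    eA] at key
  have e3 := mul_le_mul_of_nonneg_left eB (inv_nonneg.2 hv.le)
  have e4 : ∀ x n : ℝ, (volume Q).toReal⁻¹ * (n * ((volume Q).toReal ^ 2 * x))
      = n * (volume Q).toReal * x := fun x n => by field_simp
  rw [e4] at e3
  linarith

end Pool.Agent.P.MP_9f4f5e_mp.LT
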