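import Pool.Agent.P.MP_9f4f5e_mp.LT.Base

set_option autoImplicit false
set_option linter.unusedSectionVars false

open MeasureTheory Matrix
open scoped ENNReal ComplexOrder ComplexConjugate RealInnerProductSpace FourierTransform

noncomputable section

namespace Pool.Agent.P.MP_9f4f5e_mp.LT

variable {ι : Type} [Fintype ι] [DecidableEq ι]

theorem g1_int {X : Type} [MeasurableSpace X] (μ : Measure X) [IsFiniteMeasure μ]
    {f : X → ℝ} (hf : Measurable f) (B : ℝ) (h0 : ∀ x, 0 ≤ f x) (hB : ∀ x, f x ≤ B) :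
    Integrable f μ :=
  Integrable.of_bound hf.aestronglyMeasurable B
    (Filter.Eventually.of_forall fun x => by rw [Real.norm_of_nonneg (h0 x)]; exact hB x)

theorem g1_qf {X : Type} [MeasurableSpace X] (μ : Measure X) [IsFiniteMeasure μ]
    {e : X → ι → ℂ} (he : ∀ i, Measurable fun x => e x i) (he1 : ∀ x i, ‖e x i‖ ≤ 1)
    {V : X → ℝ} (hV : Measurable V) {M : ℝ} (h0 : ∀ x, 0 ≤ V x) (hM : ∀ x, V x ≤ M)
    (c : ι → ℂ) :
    qf (Matrix.of fun i j => ∫ x, (V x : ℂ) * (e x i * conj (e x j)) ∂μ) c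
      = ∫ x, V x * ‖∑ i, conj (c i) * e x i‖ ^ 2 ∂μ := by
  have hint : ∀ i j, Integrable (fun x => (V x : ℂ) * (e x i * conj (e x j))) μ := by
    intro i j
    have hm : Measurable fun x => (V x : ℂ) * (e x i * conj (e x j)) :=
      (Complex.measurable_ofReal.comp hV).mul
        ((he i).mul (Complex.continuous_conj.measurable.comp (he j)))
    refine Integrable.of_bound hm.aestronglyMeasurable M (Filter.Eventually.of_forall fun x => ?_)
    rw [norm_mul, norm_mul, Complex.norm_real, Real.norm_of_nonneg (h0 x), Complex.norm_conj]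
    have h1 : ‖e x i‖ * ‖e x j‖ ≤ 1 := mul_le_one₀ (he1 x i) (norm_nonneg _) (he1 x j)
    exact (mul_le_of_le_one_right (h0 x) h1).trans (hM x)
  have h1 : star c ⬝ᵥ (Matrix.of fun i j => ∫ x, (V x : ℂ) * (e x i * conj (e x j)) ∂μ) *ᵥ c
      = ∫ x, ∑ i, ∑ j, conj (c i) * ((V x : ℂ) * (e x i * conj (e x j)) * c j) ∂μ := by
    rw [integral_finset_sum _ fun i _ => integrable_finset_sum _ fun j _ =>
      ((hint i j).mul_const _).const_mul _]
    simp only [dotProduct, Matrix.mulVec, Matrix.of_apply, Pi.star_apply, Complex.star_def]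
    refine Finset.sum_congr rfl fun i _ => ?_
    rw [integral_finset_sum _ fun j _ => ((hint i j).mul_const _).const_mul _, Finset.mul_sum]
    refine Finset.sum_congr rfl fun j _ => ?_
    rw [integral_const_mul, integral_mul_const]
  have h2 : ∀ x, ∑ i, ∑ j, conj (c i) * ((V x : ℂ) * (e x i * conj (e x j)) * c j)
      = ((V x * ‖∑ i, conj (c i) * e x i‖ ^ 2 : ℝ) : ℂ) := by
    intro x
    push_cast
    rw [← Complex.mul_conj', map_sum, Finset.sum_mul_sum, Finset.mul_sum]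
    refine Finset.sum_congr rfl fun i _ => ?_
    rw [Finset.mul_sum]
    refine Finset.sum_congr rfl fun j _ => ?_
    simp only [map_mul, Complex.conj_conj]
    ring
  rw [qf, h1]
  simp only [h2]
  rw [integral_complex_ofReal, Complex.ofReal_re]

theorem g1_pow (v l : ℝ) : 4 * l ^ 3 * v - 3 * l ^ 4 ≤ v ^ 4 := by
  have h : v ^ 4 - (4 * l ^ 3 * v - 3 * l ^ 4) = (v - l) ^ 2 * ((v + l) ^ 2 + 2 * l ^ 2) := by
    ring
  have h1 : 0 ≤ (v - l) ^ 2 * ((v + l) ^ 2 + 2 * l ^ 2) := by positivity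
  linarith

/-- Berezin-Lieb inequality. Hint: Hermitian by integral_conj. Spec W U l;
ω k x = ‖(Uᴴ *ᵥ e x) k‖^2; l k = ∫ V * ω k (Spec.diag, integral_finset_sum), so 0 ≤ l k;
∫ ω k ≤ 1 (hfr, Spec.col_sum); V^4 ≥ 4 l^3 V - 3 l^4 gives l k ^ 4 ≤ ∫ V^4 * ω k;
∑ k, ω k x ≤ card (Spec.parseval). Everything is bounded and measurable, hence integrable. -/
theorem berezin_lieb {X : Type} [MeasurableSpace X] (μ : Measure X) [IsFiniteMeasure μ]
    {e : X → ι → ℂ} (he : ∀ i, Measurable fun x => e x i) (he1 : ∀ x i, ‖e x i‖ ≤ 1)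
    (hfr : ∀ c : ι → ℂ, ∫ x, ‖∑ i, conj (c i) * e x i‖ ^ 2 ∂μ ≤ ∑ i, ‖c i‖ ^ 2)
    {V : X → ℝ} (hV : Measurable V) {M : ℝ} (h0 : ∀ x, 0 ≤ V x) (hM : ∀ x, V x ≤ M) :
    (Matrix.of fun i j => ∫ x, (V x : ℂ) * (e x i * conj (e x j)) ∂μ).IsHermitian ∧
      tp 4 (Matrix.of fun i j => ∫ x, (V x : ℂ) * (e x i * conj (e x j)) ∂μ)
        ≤ Fintype.card ι * ∫ x, V x ^ 4 ∂μ := by
  have hH : (Matrix.of fun i j => ∫ x, (V x : ℂ) * (e x i * conj (e x j)) ∂μ).IsHermitian := by
    ext i j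
    rw [Matrix.conjTranspose_apply, Matrix.of_apply, Matrix.of_apply, Complex.star_def,
      ← integral_conj]
    congr 1
    funext x
    simp only [map_mul, Complex.conj_conj, Complex.conj_ofReal]
    ring
  refine ⟨hH, ?_⟩
  obtain ⟨U, l, hs⟩ := exists_spec hH
  set w : ι → X → ℝ := fun k x => ‖∑ i, conj (U i k) * e x i‖ ^ 2 with hw
  have w0 : ∀ k x, 0 ≤ w k x := fun k x => sq_nonneg _
  have wm : ∀ k, Measurable (w k) := fun k =>
    (Finset.measurable_sum _ fun i _ => (he i).const_mul _).norm.pow_const 2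
  have wsum : ∀ x, ∑ k, w k x ≤ Fintype.card ι := by
    intro x
    have h1 := hs.parseval (e x)
    have h2 : ∑ k, w k x = ∑ i, ‖(Uᴴ *ᵥ e x) i‖ ^ 2 := by
      refine Finset.sum_congr rfl fun k _ => ?_
      simp only [hw, Matrix.mulVec, dotProduct, Matrix.conjTranspose_apply, Complex.star_def]
    rw [h2, h1]
    calc ∑ i, ‖e x i‖ ^ 2 ≤ ∑ _i : ι, (1 : ℝ) :=
          Finset.sum_le_sum fun i _ => pow_le_one₀ (norm_nonneg _) (he1 x i)
      _ = Fintype.card ι := by simp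
  have wle : ∀ k x, w k x ≤ Fintype.card ι := fun k x =>
    (Finset.single_le_sum (f := fun k => w k x) (fun k _ => w0 k x) (Finset.mem_univ k)).trans
      (wsum x)
  have hl : ∀ k, l k = ∫ x, V x * w k x ∂μ := by
    intro k
    have h1 := g1_qf μ he he1 hV h0 hM (fun i => U i k)
    have h2 : (fun i => U i k) = U *ᵥ Pi.single k 1 := by
      funext i
      simp
    rw [← h1, h2, hs.eq, Spec.qf_conj, Matrix.mulVec_mulVec, hs.ct_mul, Matrix.one_mulVec,
      Finset.sum_eq_single k]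
    · simp
    · intro j _ hj
      simp [hj]
    · simp
  have hw1 : ∀ k, ∫ x, w k x ∂μ ≤ 1 := fun k => (hfr fun i => U i k).trans (hs.col_sum k).le
  have iw : ∀ k, Integrable (w k) μ := fun k => g1_int μ (wm k) _ (w0 k) (wle k)
  have iVw : ∀ k, Integrable (fun x => V x * w k x) μ := fun k =>
    g1_int μ (hV.mul (wm k)) (M * Fintype.card ι) (fun x => mul_nonneg (h0 x) (w0 k x))
      fun x => mul_le_mul (hM x) (wle k x) (w0 k x) ((h0 x).trans (hM x))
  have iV4 : Integrable (fun x => V x ^ 4) μ :=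
    g1_int μ (hV.pow_const 4) (M ^ 4) (fun x => pow_nonneg (h0 x) 4)
      fun x => pow_le_pow_left₀ (h0 x) (hM x) 4
  have iV4w : ∀ k, Integrable (fun x => V x ^ 4 * w k x) μ := fun k =>
    g1_int μ ((hV.pow_const 4).mul (wm k)) (M ^ 4 * Fintype.card ι)
      (fun x => mul_nonneg (pow_nonneg (h0 x) 4) (w0 k x))
      fun x => mul_le_mul (pow_le_pow_left₀ (h0 x) (hM x) 4) (wle k x) (w0 k x)
        (pow_nonneg ((h0 x).trans (hM x)) 4)
  have hl0 : ∀ k, 0 ≤ l k := fun k => by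
    rw [hl k]
    exact integral_nonneg fun x => mul_nonneg (h0 x) (w0 k x)
  have hk : ∀ k, max (l k) 0 ^ 4 ≤ ∫ x, V x ^ 4 * w k x ∂μ := by
    intro k
    rw [max_eq_left (hl0 k)]
    have h1 : ∫ x, (4 * l k ^ 3 * (V x * w k x) - 3 * l k ^ 4 * w k x) ∂μ
        ≤ ∫ x, V x ^ 4 * w k x ∂μ := by
      refine integral_mono (((iVw k).const_mul _).sub ((iw k).const_mul _)) (iV4w k) fun x => ?_
      have h2 := mul_le_mul_of_nonneg_right (g1_pow (V x) (l k)) (w0 k x)
      simp only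
      linarith
    rw [integral_sub ((iVw k).const_mul _) ((iw k).const_mul _), integral_const_mul,
      integral_const_mul, ← hl k] at h1
    have h3 := mul_le_mul_of_nonneg_left (hw1 k) (pow_nonneg (hl0 k) 4)
    nlinarith
  rw [hs.tp_eq]
  calc ∑ k, max (l k) 0 ^ 4 ≤ ∑ k, ∫ x, V x ^ 4 * w k x ∂μ := Finset.sum_le_sum fun k _ => hk k
    _ = ∫ x, ∑ k, V x ^ 4 * w k x ∂μ := (integral_finset_sum _ fun k _ => iV4w k).symm
    _ ≤ ∫ x, Fintype.card ι * V x ^ 4 ∂μ := by
        refine integral_mono (integrable_finset_sum _ fun k _ => iV4w k) (iV4.const_mul _)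
          fun x => ?_
        simp only
        rw [← Finset.mul_sum, mul_comm]
        exact mul_le_mul_of_nonneg_right (wsum x) (pow_nonneg (h0 x) 4)
    _ = _ := integral_const_mul _ _

end Pool.Agent.P.MP_9f4f5e_mp.LT
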