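import Pool.Agent.P.MP_9f4f5e_mp.LT.Base

set_option autoImplicit false
set_option linter.unusedSectionVars false

open MeasureTheory Matrix
open scoped ENNReal ComplexOrder ComplexConjugate RealInnerProductSpace FourierTransform

noncomputable section

namespace Pool.Agent.P.MP_9f4f5e_mp.LT

theorem isOpen_cell (h : ℝ) : IsOpen (cell h) := by
  rw [cell, Set.ofPred_forall]
  exact isOpen_iInter_of_finite fun k => isOpen_lt (by fun_prop) continuous_const

theorem g2_pre (S : Fin 3 → Set ℝ) :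
    (WithLp.toLp 2 : (Fin 3 → ℝ) → E3) ⁻¹' {x : E3 | ∀ k, x k ∈ S k} = Set.univ.pi S := by
  ext x
  simp

/-- product formula on coordinate boxes. Hint: PiLp.volume_preserving_toLp, volume_pi,
Measure.restrict_pi_pi, integral_fintype_prod_eq_prod (or write the integrand as a product of
indicator functions). -/
theorem integral_box {𝕜 : Type} [RCLike 𝕜] (S : Fin 3 → Set ℝ) (hS : ∀ k, MeasurableSet (S k))
    (f : Fin 3 → ℝ → 𝕜) :
    ∫ x in {x : E3 | ∀ k, x k ∈ S k}, ∏ k, f k (x k) = ∏ k, ∫ s in S k, f k s := by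
  rw [← (PiLp.volume_preserving_toLp (Fin 3)).setIntegral_preimage_emb
    (MeasurableEquiv.toLp 2 _).measurableEmbedding, g2_pre, volume_pi, Measure.restrict_pi_pi]
  exact integral_fintype_prod_eq_prod f

theorem volume_box (S : Fin 3 → Set ℝ) (hS : ∀ k, MeasurableSet (S k)) :
    volume {x : E3 | ∀ k, x k ∈ S k} = ∏ k, volume (S k) := by
  rw [← (PiLp.volume_preserving_toLp (Fin 3)).measure_preimage_emb
    (MeasurableEquiv.toLp 2 _).measurableEmbedding, g2_pre, volume_pi_pi]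

theorem g2_cell (h : ℝ) :
    cell h = {x : E3 | ∀ k, x k ∈ Set.Ioo (-(1 / (2 * h))) (1 / (2 * h))} := by
  simp only [cell, abs_lt, Set.mem_Ioo]

theorem volume_cell_ne_top (h : ℝ) : volume (cell h) ≠ ∞ := by
  rw [g2_cell, volume_box _ fun _ => measurableSet_Ioo]
  exact ENNReal.prod_ne_top fun _ _ => measure_Ioo_lt_top.ne

/-- one-dimensional orthogonality. Hint: ec_eq, integral_exp_mul_complex,
Complex.exp_int_mul_two_pi_mul_I. -/
theorem integral_ec_int {h : ℝ} (hh : 0 < h) (j : ℤ) :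
    ∫ s in Set.Ioo (-(1 / (2 * h))) (1 / (2 * h)), ec (h * j * s)
      = if j = 0 then ((1 / h : ℝ) : ℂ) else 0 := by
  have h0 : 0 < 1 / (2 * h) := by positivity
  have h1 : (h : ℂ) ≠ 0 := Complex.ofReal_ne_zero.2 hh.ne'
  rw [← integral_Ioc_eq_integral_Ioo, ← intervalIntegral.integral_of_le (by linarith)]
  split_ifs with hj
  · simp only [hj, Int.cast_zero, mul_zero, zero_mul, ec_zero, intervalIntegral.integral_const,
      Complex.real_smul, mul_one]
    congr 1
    field_simp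
    ring
  · have e : ∀ s : ℝ, ec (h * j * s) = Complex.exp (2 * Real.pi * Complex.I * h * j * s) := by
      intro s
      rw [ec_eq]
      congr 1
      push_cast
      ring
    simp only [e]
    rw [integral_exp_mul_complex (mul_ne_zero (mul_ne_zero Complex.two_pi_I_ne_zero h1)
      (Int.cast_ne_zero.2 hj)), div_eq_zero_iff, sub_eq_zero]
    refine Or.inl (Complex.exp_eq_exp_iff_exists_int.2 ⟨j, ?_⟩)
    push_cast
    field_simp
    ring

theorem g2_prod (h : ℝ) {m : ℕ} (i j : Fin 3 → Fin m) (x : E3) :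
    ec (-⟪lat h i, x⟫) * conj (ec (-⟪lat h j, x⟫)) =
      ∏ k, ec (h * (((j k : ℕ) : ℤ) - ((i k : ℕ) : ℤ) : ℤ) * x k) := by
  rw [← ec_neg, ← ec_add, Fin.prod_univ_three, ← ec_add, ← ec_add]
  congr 1
  simp only [lat, PiLp.inner_apply, Fin.sum_univ_three, RCLike.inner_apply, conj_trivial]
  push_cast
  ring

/-- Parseval on the cell. Hint: expand the square, ec (-⟪lat h i, x⟫) * conj (ec (-⟪lat h j, x⟫))
= ∏ k, ec (h * (j k - i k) * x k), integral_box, integral_ec_int. -/
theorem cell_frame {h : ℝ} (hh : 0 < h) {m : ℕ} (c : (Fin 3 → Fin m) → ℂ) :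
    h ^ 3 * ∫ x in cell h, ‖∑ i, conj (c i) * ec (-⟪lat h i, x⟫)‖ ^ 2 ≤ ∑ i, ‖c i‖ ^ 2 := by
  have hi : ∀ i j : Fin 3 → Fin m, IntegrableOn (fun x : E3 => conj (c i) * c j *
      ∏ k, ec (h * (((j k : ℕ) : ℤ) - ((i k : ℕ) : ℤ) : ℤ) * x k)) (cell h) := fun i j =>
    Measure.integrableOn_of_bounded (M := ‖c i‖ * ‖c j‖) (volume_cell_ne_top h)
      (Continuous.aestronglyMeasurable (by fun_prop))
      (ae_of_all _ fun x => by simp [norm_ec])
  have e : ∀ x : E3, ((‖∑ i, conj (c i) * ec (-⟪lat h i, x⟫)‖ ^ 2 : ℝ) : ℂ) = ∑ i, ∑ j,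
      conj (c i) * c j * ∏ k, ec (h * (((j k : ℕ) : ℤ) - ((i k : ℕ) : ℤ) : ℤ) * x k) := by
    intro x
    rw [Complex.ofReal_pow, ← Complex.mul_conj', map_sum, Finset.sum_mul_sum]
    refine Finset.sum_congr rfl fun i _ => Finset.sum_congr rfl fun j _ => ?_
    rw [← g2_prod, map_mul, Complex.conj_conj]
    ring
  have e2 : ∀ i j : Fin 3 → Fin m, ∫ x in cell h, conj (c i) * c j *
      ∏ k, ec (h * (((j k : ℕ) : ℤ) - ((i k : ℕ) : ℤ) : ℤ) * x k) =
        if i = j then ((‖c i‖ ^ 2 / h ^ 3 : ℝ) : ℂ) else 0 := by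
    intro i j
    rw [integral_const_mul, g2_cell, integral_box _ (fun _ => measurableSet_Ioo)
      fun k s => ec (h * (((j k : ℕ) : ℤ) - ((i k : ℕ) : ℤ) : ℤ) * s)]
    simp only [integral_ec_int hh]
    split_ifs with hij
    · subst hij
      rw [Complex.conj_mul']
      simp [div_eq_mul_inv]
    · obtain ⟨k, hk⟩ := Function.ne_iff.1 hij
      rw [Finset.prod_eq_zero (Finset.mem_univ k) (if_neg fun q => hk (Fin.ext (by omega))),
        mul_zero]
  refine le_of_eq (Complex.ofReal_injective ?_)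
  rw [Complex.ofReal_mul, ← integral_complex_ofReal]
  simp only [e]
  rw [integral_finsetSum _ fun i _ => integrable_finsetSum _ fun j _ => hi i j,
    Finset.sum_congr rfl fun i _ => integral_finsetSum _ fun j _ => hi i j]
  simp only [e2, Finset.sum_ite_eq, Finset.mem_univ, if_true]
  rw [← Complex.ofReal_sum, ← Complex.ofReal_mul, ← Finset.sum_div,
    mul_div_cancel₀ _ (pow_pos hh 3).ne']

end Pool.Agent.P.MP_9f4f5e_mp.LT
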