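import Pool.Agent.P.MP_9f4f5e_mp.LT.G2

set_option autoImplicit false
set_option linter.unusedSectionVars false

open MeasureTheory Matrix
open scoped ENNReal ComplexOrder ComplexConjugate RealInnerProductSpace FourierTransform

noncomputable section

namespace Pool.Agent.P.MP_9f4f5e_mp.LT

theorem measurableSet_cube (h : ℝ) : MeasurableSet (cube h) := by
  have e : cube h = ⋂ k, (fun s : E3 => s k) ⁻¹' Set.Ico 0 h := by
    ext s
    simp [cube]
  rw [e]
  exact MeasurableSet.iInter fun k => measurableSet_Ico.preimage (by fun_prop)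

/-- Hint: volume_box. -/
theorem volume_cube {h : ℝ} (hh : 0 < h) : volume (cube h) = ENNReal.ofReal (h ^ 3) := by
  have := volume_box (fun _ => Set.Ico 0 h) fun _ => measurableSet_Ico
  rw [cube, this, ENNReal.ofReal_pow hh.le]
  simp

theorem norm_le_of_mem_cube {h : ℝ} {s : E3} (hs : s ∈ cube h) : ‖s‖ ≤ 2 * h := by
  have h0 := hs 0
  have h1 := hs 1
  have h2 := hs 2
  simp only [Set.mem_Ico] at h0 h1 h2
  have hh : 0 < h := h0.1.trans_lt h0.2
  refine (pow_le_pow_iff_left₀ (norm_nonneg _) (by positivity) two_ne_zero).1 ?_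
  rw [EuclideanSpace.real_norm_sq_eq, Fin.sum_univ_three]
  nlinarith [h0.1, h0.2, h1.1, h1.2, h2.1, h2.2]

theorem lat_disjoint {h : ℝ} (hh : 0 < h) {m : ℕ} (i j : Fin 3 → Fin m) (hij : i ≠ j) :
    ∀ s ∈ cube h, ∀ s' ∈ cube h, lat h i + s ≠ lat h j + s' := by
  intro s hs s' hs' e
  refine hij (funext fun k => Fin.ext ?_)
  have e1 : h * ((i k : ℕ) : ℝ) + s k = h * ((j k : ℕ) : ℝ) + s' k := congrArg (fun v : E3 => v k) e
  obtain ⟨a1, a2⟩ := hs k
  obtain ⟨b1, b2⟩ := hs' k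
  have c1 : ((i k : ℕ) : ℝ) < (j k : ℕ) + 1 := lt_of_mul_lt_mul_left (by linarith) hh.le
  have c2 : ((j k : ℕ) : ℝ) < (i k : ℕ) + 1 := lt_of_mul_lt_mul_left (by linarith) hh.le
  have d1 : (i k : ℕ) < (j k : ℕ) + 1 := by exact_mod_cast c1
  have d2 : (j k : ℕ) < (i k : ℕ) + 1 := by exact_mod_cast c2
  omega

theorem measurable_ww (Q : Set E3) : Measurable (ww Q) := by
  have c : Continuous fun p : E3 × E3 => ec (-⟪p.2, p.1⟫) := by fun_prop
  exact (c.stronglyMeasurable.integral_prod_right' (ν := volume.restrict Q)).measurable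

theorem g3_real {h : ℝ} (hh : 0 < h) : (volume : Measure E3).real (cube h) = h ^ 3 := by
  rw [Measure.real, volume_cube hh, ENNReal.toReal_ofReal (by positivity)]

theorem g3_lt {h : ℝ} (hh : 0 < h) : (volume : Measure E3) (cube h) < ∞ := by
  rw [volume_cube hh]
  exact ENNReal.ofReal_lt_top

theorem norm_ww_le {h : ℝ} (hh : 0 < h) (z : E3) : ‖ww (cube h) z‖ ≤ h ^ 3 := by
  have := norm_setIntegral_le_of_norm_le_const (f := fun s : E3 => ec (-⟪s, z⟫)) (C := 1) (g3_lt hh)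
    fun s _ => (norm_ec _).le
  rwa [g3_real hh, one_mul] at this

theorem g3_ec (r : ℝ) : ‖ec r - 1‖ ≤ 2 * Real.pi * |r| := by
  have := Real.norm_exp_I_mul_ofReal_sub_one_le (x := 2 * Real.pi * r)
  rw [ec_eq, mul_comm _ Complex.I]
  refine this.trans (le_of_eq ?_)
  rw [Real.norm_eq_abs, abs_mul, abs_of_pos Real.two_pi_pos]

/-- Hint: ‖ec r - 1‖ ≤ 2 π |r| (Real.norm_exp_I_mul_ofReal_sub_one_le), |⟪s, z⟫| ≤ 2 h ‖z‖,
norm_setIntegral_le_of_norm_le_const. -/
theorem le_norm_ww {h : ℝ} (hh : 0 < h) (z : E3) :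
    h ^ 3 * (1 - 4 * Real.pi * h * ‖z‖) ≤ ‖ww (cube h) z‖ := by
  have b := norm_setIntegral_le_of_norm_le_const (f := fun s : E3 => ec (-⟪s, z⟫) - 1)
    (C := 4 * Real.pi * h * ‖z‖) (g3_lt hh) fun s hs => by
      refine (g3_ec _).trans ?_
      have h1 : |⟪s, z⟫| ≤ 2 * h * ‖z‖ := (abs_real_inner_le_norm s z).trans
        (mul_le_mul_of_nonneg_right (norm_le_of_mem_cube hs) (norm_nonneg _))
      rw [abs_neg]
      nlinarith [Real.pi_pos]
  have i1 : IntegrableOn (fun _ : E3 => (1 : ℂ)) (cube h) := integrableOn_const (g3_lt hh).ne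
  have c : Continuous fun s : E3 => ec (-⟪s, z⟫) := by fun_prop
  have i2 : IntegrableOn (fun s : E3 => ec (-⟪s, z⟫)) (cube h) :=
    Measure.integrableOn_of_bounded (g3_lt hh).ne c.aestronglyMeasurable (M := 1)
      (Filter.Eventually.of_forall fun s => (norm_ec _).le)
  rw [integral_sub i2 i1, setIntegral_const, g3_real hh] at b
  have t := norm_sub_norm_le ((h ^ 3 : ℝ) • (1 : ℂ)) (ww (cube h) z)
  rw [norm_sub_rev, norm_smul, norm_one, Real.norm_of_nonneg (by positivity)] at t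
  rw [← ww] at b
  linarith

theorem g3_sum (a : Fin 3 → ℝ) : ec (∑ k, a k) = ∏ k, ec (a k) := by
  simp only [Fin.sum_univ_three, Fin.prod_univ_three, ec_add]

/-- the Dirichlet kernel factorises. Hint: Finset.prod_univ_sum, Fintype.piFinset_univ, ec of a sum
is the product. -/
theorem dirichlet_eq (h : ℝ) {m : ℕ} (hm : 0 < m) (y : E3) :
    (h : ℂ) ^ 3 * ∑ i : Fin 3 → Fin m, ∑ j : Fin 3 → Fin m, ec ⟪lat h i - lat h j, y⟫
      = ((m ^ 3 * ker m h y : ℝ) : ℂ) := by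
  have e1 : ∀ i : Fin 3 → Fin m, ec ⟪lat h i, y⟫ = ∏ k, ec (((i k : ℕ) : ℝ) * (h * y k)) := by
    intro i
    rw [← g3_sum, PiLp.inner_apply]
    congr 1
    refine Finset.sum_congr rfl fun k _ => ?_
    simp only [lat, RCLike.inner_apply, conj_trivial]
    ring
  have e2 : ∑ i : Fin 3 → Fin m, ec ⟪lat h i, y⟫ =
      ∏ k, ∑ j : Fin m, ec (((j : ℕ) : ℝ) * (h * y k)) := by
    rw [Finset.prod_univ_sum, Fintype.piFinset_univ]
    exact Finset.sum_congr rfl fun i _ => e1 i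
  have e3 : ∑ i : Fin 3 → Fin m, ∑ j : Fin 3 → Fin m, ec ⟪lat h i - lat h j, y⟫ =
      (∑ i : Fin 3 → Fin m, ec ⟪lat h i, y⟫) * conj (∑ i : Fin 3 → Fin m, ec ⟪lat h i, y⟫) := by
    rw [map_sum, Finset.sum_mul_sum]
    refine Finset.sum_congr rfl fun i _ => Finset.sum_congr rfl fun j _ => ?_
    rw [inner_sub_left, sub_eq_add_neg, ec_add, ec_neg]
  have hm' : (m : ℝ) ≠ 0 := by positivity
  rw [e3, Complex.mul_conj', e2, norm_prod, ker]
  norm_cast
  simp only [fej, Fin.prod_univ_three]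
  generalize ‖∑ j : Fin m, ec (((j : ℕ) : ℝ) * (h * y 0))‖ = a
  generalize ‖∑ j : Fin m, ec (((j : ℕ) : ℝ) * (h * y 1))‖ = b
  generalize ‖∑ j : Fin m, ec (((j : ℕ) : ℝ) * (h * y 2))‖ = c
  push_cast
  field_simp

end Pool.Agent.P.MP_9f4f5e_mp.LT
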