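import Pool.Agent.P.MP_9f4f5e_mp.LT.G2

set_option autoImplicit false
set_option linter.unusedSectionVars false

open MeasureTheory Matrix
open scoped ENNReal ComplexOrder ComplexConjugate RealInnerProductSpace FourierTransform

noncomputable section

namespace Pool.Agent.P.MP_9f4f5e_mp.LT

theorem fej_nonneg (m : ℕ) (y : ℝ) : 0 ≤ fej m y := by
  unfold fej
  positivity

theorem fej_le (m : ℕ) (y : ℝ) : fej m y ≤ m := by
  have h : ‖∑ j : Fin m, ec (((j : ℕ) : ℝ) * y)‖ ≤ m := by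
    refine (norm_sum_le _ _).trans ?_
    simp [norm_ec]
  unfold fej
  refine div_le_of_le_mul₀ (Nat.cast_nonneg _) (Nat.cast_nonneg _) ?_
  rw [sq]
  exact mul_self_le_mul_self (norm_nonneg _) h

@[fun_prop] theorem continuous_fej (m : ℕ) : Continuous (fej m) := by
  unfold fej
  fun_prop

theorem g4_int {E : Type} [NormedAddCommGroup E] {f : ℝ → E} (hf : Continuous f) (a b : ℝ) :
    IntegrableOn f (Set.Ioo a b) :=
  (hf.integrableOn_Icc (a := a) (b := b)).mono_set Set.Ioo_subset_Icc_self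

theorem g4_sq (m : ℕ) (y : ℝ) :
    ((‖∑ j : Fin m, ec (((j : ℕ) : ℝ) * y)‖ ^ 2 : ℝ) : ℂ) =
      ∑ i : Fin m, ∑ j : Fin m, ec (1 * (((i : ℕ) - (j : ℕ) : ℤ) : ℝ) * y) := by
  rw [← Complex.normSq_eq_norm_sq, ← Complex.mul_conj, map_sum, Finset.sum_mul_sum]
  refine Finset.sum_congr rfl fun i _ => Finset.sum_congr rfl fun j _ => ?_
  rw [← ec_neg, ← ec_add]
  push_cast
  ring_nf

/-- Hint: expand the square, integral_ec_int with h = 1. -/
theorem integral_fej {m : ℕ} (hm : 0 < m) :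
    ∫ y in Set.Ioo (-(1 / 2) : ℝ) (1 / 2), fej m y = 1 := by
  have hm' : (m : ℝ) ≠ 0 := Nat.cast_ne_zero.2 hm.ne'
  have key : ∫ y in Set.Ioo (-(1 / 2) : ℝ) (1 / 2),
      ‖∑ j : Fin m, ec (((j : ℕ) : ℝ) * y)‖ ^ 2 = m := by
    apply Complex.ofReal_injective
    rw [← integral_complex_ofReal]
    simp only [g4_sq]
    have hc : ∀ k : ℤ, Continuous fun y : ℝ => ec (1 * (k : ℝ) * y) := fun k => by fun_prop
    rw [integral_finsetSum _ fun i _ =>
      g4_int (continuous_finsetSum _ fun j _ => hc _) _ _]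
    have h1 : ∀ i : Fin m, ∫ y in Set.Ioo (-(1 / 2) : ℝ) (1 / 2),
        ∑ j : Fin m, ec (1 * (((i : ℕ) - (j : ℕ) : ℤ) : ℝ) * y) = 1 := by
      intro i
      rw [integral_finsetSum _ fun j _ => g4_int (hc _) _ _]
      have h2 : ∀ j : Fin m, ∫ y in Set.Ioo (-(1 / 2) : ℝ) (1 / 2),
          ec (1 * (((i : ℕ) - (j : ℕ) : ℤ) : ℝ) * y) = if i = j then 1 else 0 := by
        intro j
        have := integral_ec_int (h := 1) one_pos ((i : ℕ) - (j : ℕ) : ℤ)
        rw [mul_one] at this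
        rw [this]
        have e : ((i : ℕ) - (j : ℕ) : ℤ) = 0 ↔ i = j := by
          rw [sub_eq_zero, Nat.cast_inj, Fin.val_inj]
        simp only [e]
        simp
      simp only [h2]
      simp
    simp only [h1]
    simp
  unfold fej
  rw [integral_div, key, div_self hm']

theorem g4_geom (m : ℕ) (y : ℝ) :
    (ec y - 1) * ∑ j : Fin m, ec (((j : ℕ) : ℝ) * y) = ec (m * y) - 1 := by
  rw [Fin.sum_univ_eq_sum_range (fun j : ℕ => ec ((j : ℝ) * y)) m]
  induction m with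
  | zero => simp [ec_zero]
  | succ n ih =>
    rw [Finset.sum_range_succ, mul_add, ih]
    have : ec (((n + 1 : ℕ) : ℝ) * y) = ec y * ec (n * y) := by
      rw [← ec_add]
      push_cast
      ring_nf
    rw [this]
    ring

theorem g4_low {y : ℝ} (h1 : |y| ≤ 1 / 2) : 4 * |y| ≤ ‖ec y - 1‖ := by
  have hp := Real.pi_pos
  rw [ec_eq, mul_comm _ Complex.I, Complex.norm_exp_I_mul_ofReal_sub_one, Real.norm_eq_abs,
    abs_mul, abs_two]
  have e : 2 * Real.pi * y / 2 = Real.pi * y := by ring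
  rw [e]
  have a : |Real.pi * y| = Real.pi * |y| := by rw [abs_mul, abs_of_pos hp]
  have h := Real.mul_abs_le_abs_sin (x := Real.pi * y) (by rw [a]; nlinarith)
  rw [a] at h
  have e2 : 2 / Real.pi * (Real.pi * |y|) = 2 * |y| := by field_simp
  linarith

/-- Hint: geometric sum: (ec y - 1) * ∑ = ec (m y) - 1, ‖ec y - 1‖ = 2 |sin (π y)| ≥ 4 |y|
(Complex.norm_exp_I_mul_ofReal_sub_one, Real.mul_abs_le_abs_sin). -/
theorem fej_le_far {m : ℕ} (hm : 0 < m) {y : ℝ} (h0 : y ≠ 0) (h1 : |y| ≤ 1 / 2) :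
    fej m y ≤ 1 / (4 * m * y ^ 2) := by
  have hm' : (0 : ℝ) < m := Nat.cast_pos.2 hm
  have h2 : ‖ec y - 1‖ * ‖∑ j : Fin m, ec (((j : ℕ) : ℝ) * y)‖ ≤ 2 := by
    rw [← norm_mul, g4_geom]
    refine (norm_sub_le _ _).trans ?_
    rw [norm_ec, norm_one]
    norm_num
  have h3 := g4_low h1
  unfold fej
  generalize hS : ‖∑ j : Fin m, ec (((j : ℕ) : ℝ) * y)‖ = S at h2
  have hS0 : 0 ≤ S := hS ▸ norm_nonneg _
  have h4 : 2 * |y| * S ≤ 1 := by nlinarith [mul_le_mul_of_nonneg_right h3 hS0]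
  have h5 : (2 * |y| * S) ^ 2 ≤ 1 := pow_le_one₀ (by positivity) h4
  rw [mul_pow, mul_pow, sq_abs] at h5
  rw [div_le_div_iff₀ hm' (by positivity)]
  nlinarith [mul_le_mul_of_nonneg_right h5 hm'.le]

/-- concentration -/
theorem fej_mass {m : ℕ} (hm : 0 < m) {δ : ℝ} (h0 : 0 < δ) (h1 : δ ≤ 1 / 2) :
    1 - 1 / (4 * m * δ ^ 2) ≤ ∫ y in Set.Ioo (-δ) δ, fej m y := by
  have hm' : (0 : ℝ) < m := Nat.cast_pos.2 hm
  have hsub : Set.Ioo (-δ) δ ⊆ Set.Ioo (-(1 / 2) : ℝ) (1 / 2) :=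
    Set.Ioo_subset_Ioo (by linarith) h1
  have hi := g4_int (continuous_fej m) (-(1 / 2) : ℝ) (1 / 2)
  have hi2 : IntegrableOn ((Set.Ioo (-δ) δ).indicator (fej m))
      (Set.Ioo (-(1 / 2) : ℝ) (1 / 2)) := hi.indicator measurableSet_Ioo
  have hi3 := g4_int (f := fun _ : ℝ => 1 / (4 * m * δ ^ 2)) continuous_const
    (-(1 / 2) : ℝ) (1 / 2)
  have hle : ∫ y in Set.Ioo (-(1 / 2) : ℝ) (1 / 2), fej m y ≤
      ∫ y in Set.Ioo (-(1 / 2) : ℝ) (1 / 2),
        ((Set.Ioo (-δ) δ).indicator (fej m) y + 1 / (4 * m * δ ^ 2)) := by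
    refine setIntegral_mono_on hi (hi2.add hi3) measurableSet_Ioo fun y hy => ?_
    by_cases h : y ∈ Set.Ioo (-δ) δ
    · rw [Set.indicator_of_mem h]
      exact le_add_of_nonneg_right (by positivity)
    · rw [Set.indicator_of_notMem h, zero_add]
      have h2 : δ ≤ |y| := by
        by_contra hc
        exact h (abs_lt.1 (not_le.1 hc))
      have h3 : y ≠ 0 := by
        rintro rfl
        rw [abs_zero] at h2
        linarith
      refine (fej_le_far hm h3 (abs_le.2 ⟨hy.1.le, hy.2.le⟩)).trans ?_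
      refine one_div_le_one_div_of_le (by positivity) ?_
      have h4 : δ ^ 2 ≤ y ^ 2 := by
        rw [← sq_abs y]
        exact pow_le_pow_left₀ h0.le h2 2
      exact mul_le_mul_of_nonneg_left h4 (by positivity)
  rw [integral_fej hm, integral_add hi2 hi3, setIntegral_indicator measurableSet_Ioo,
    Set.inter_eq_right.2 hsub, setIntegral_const] at hle
  have hv : (volume : Measure ℝ).real (Set.Ioo (-(1 / 2) : ℝ) (1 / 2)) = 1 := by
    rw [Real.volume_real_Ioo]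
    norm_num
  rw [hv, one_smul] at hle
  linarith

end Pool.Agent.P.MP_9f4f5e_mp.LT
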