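import Pool.Agent.P.MP_9f4f5e_mp.LT.G4

set_option autoImplicit false
set_option linter.unusedSectionVars false

open MeasureTheory Matrix
open scoped ENNReal ComplexOrder ComplexConjugate RealInnerProductSpace FourierTransform

noncomputable section

namespace Pool.Agent.P.MP_9f4f5e_mp.LT

theorem ker_nonneg (m : ℕ) {h : ℝ} (hh : 0 < h) (y : E3) : 0 ≤ ker m h y := by
  unfold ker
  exact mul_nonneg (by positivity) (Finset.prod_nonneg fun k _ => fej_nonneg _ _)

theorem ker_le (m : ℕ) {h : ℝ} (hh : 0 < h) (y : E3) : ker m h y ≤ h ^ 3 * m ^ 3 := by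
  unfold ker
  refine mul_le_mul_of_nonneg_left ?_ (by positivity)
  calc ∏ k, fej m (h * y k) ≤ ∏ _k : Fin 3, (m : ℝ) :=
        Finset.prod_le_prod (fun k _ => fej_nonneg _ _) (fun k _ => fej_le _ _)
    _ = (m : ℝ) ^ 3 := by simp

@[fun_prop] theorem continuous_ker (m : ℕ) (h : ℝ) : Continuous (ker m h) := by
  unfold ker
  fun_prop

/-- Hint: integral_box, substitution s ↦ h s in each coordinate. -/
theorem integral_ker_box (m : ℕ) {h δ : ℝ} (hh : 0 < h) (hδ : 0 < δ) :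
    ∫ y in {y : E3 | ∀ k, y k ∈ Set.Ioo (-δ) δ}, ker m h y
      = (∫ s in Set.Ioo (-(h * δ)) (h * δ), fej m s) ^ 3 := by
  have h1 : ∀ y : E3, ker m h y = ∏ k : Fin 3, (h * fej m (h * y k)) := by
    intro y
    unfold ker
    rw [Finset.prod_mul_distrib]
    simp
  simp_rw [h1]
  rw [integral_box (𝕜 := ℝ) (fun _ => Set.Ioo (-δ) δ) (fun _ => measurableSet_Ioo)
    (fun _ s => h * fej m (h * s))]
  have hδ2 : 0 < h * δ := mul_pos hh hδ
  have h2 : ∫ s in Set.Ioo (-δ) δ, h * fej m (h * s)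
      = ∫ s in Set.Ioo (-(h * δ)) (h * δ), fej m s := by
    rw [← integral_Ioc_eq_integral_Ioo, ← integral_Ioc_eq_integral_Ioo,
      ← intervalIntegral.integral_of_le (by linarith),
      ← intervalIntegral.integral_of_le (by linarith), intervalIntegral.integral_const_mul,
      intervalIntegral.mul_integral_comp_mul_left, mul_neg]
  simp only [h2, Finset.prod_const, Finset.card_univ, Fintype.card_fin]

theorem g5_norm_lt {δ : ℝ} (hδ : 0 < δ) {y : E3} (hy : ∀ k, y k ∈ Set.Ioo (-δ) δ) :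
    ‖y‖ < 2 * δ := by
  have h1 : ∀ k, y k ^ 2 ≤ δ ^ 2 := fun k => sq_le_sq' (hy k).1.le (hy k).2.le
  refine lt_of_pow_lt_pow_left₀ 2 (by positivity) ?_
  rw [EuclideanSpace.real_norm_sq_eq, Fin.sum_univ_three]
  nlinarith [h1 0, h1 1, h1 2, mul_pos hδ hδ]

theorem g5_lower (m : ℕ) {h δ c : ℝ} (hh : 0 < h) (hδ : 0 < δ) {V : E3 → ℝ}
    (h0 : ∀ x, 0 ≤ V x) (hi : Integrable V) (z : E3)
    (hV : ∀ y : E3, (∀ k, y k ∈ Set.Ioo (-δ) δ) → c ≤ V (y + z)) :
    c * (∫ s in Set.Ioo (-(h * δ)) (h * δ), fej m s) ^ 3 ≤ ∫ x, V x * ker m h (x - z) := by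
  have hB : MeasurableSet {y : E3 | ∀ k, y k ∈ Set.Ioo (-δ) δ} := by
    rw [Set.ofPred_forall]
    exact MeasurableSet.iInter fun k =>
      measurableSet_Ioo.preimage (by fun_prop : Continuous fun y : E3 => y k).measurable
  have hfin : volume {y : E3 | ∀ k, y k ∈ Set.Ioo (-δ) δ} ≠ ∞ := by
    refine ne_top_of_le_ne_top (measure_ball_lt_top (x := (0 : E3)) (r := 2 * δ)).ne
      (measure_mono fun y hy => ?_)
    rw [mem_ball_zero_iff]
    exact g5_norm_lt hδ hy
  have hbd : ∀ y : E3, ‖ker m h y‖ ≤ h ^ 3 * m ^ 3 := fun y => by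
    rw [Real.norm_of_nonneg (ker_nonneg m hh y)]
    exact ker_le m hh y
  have hI : Integrable fun y => V (y + z) * ker m h y :=
    (hi.comp_add_right z).mul_bdd (continuous_ker m h).aestronglyMeasurable
      (Filter.Eventually.of_forall hbd)
  have hK : IntegrableOn (ker m h) {y : E3 | ∀ k, y k ∈ Set.Ioo (-δ) δ} :=
    Measure.integrableOn_of_bounded hfin (continuous_ker m h).aestronglyMeasurable
      (Filter.Eventually.of_forall hbd)
  have h1 : ∫ x, V x * ker m h (x - z) = ∫ y, V (y + z) * ker m h y := by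
    rw [← integral_add_right_eq_self (fun x => V x * ker m h (x - z)) z]
    simp only [add_sub_cancel_right]
  rw [h1, ← integral_ker_box m hh hδ, ← integral_const_mul]
  refine le_trans (setIntegral_mono_on (hK.const_mul c) hI.integrableOn hB fun y hy => ?_)
    (setIntegral_le_integral hI (Filter.Eventually.of_forall fun y => ?_))
  · exact mul_le_mul_of_nonneg_right (hV y hy) (ker_nonneg m hh y)
  · exact mul_nonneg (h0 _) (ker_nonneg m hh y)

/-- Approximate identity, lower bound. Hint: le_of_forall_lt-type argument: for 0 ≤ c < V z there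
is δ > 0 with h δ ≤ 1/2 and c < V on z + box δ (‖y‖ ≤ 2 δ on the box); then
∫ V x * ker (x - z) ≥ c * ∫ box, ker ≥ c * (1 - 1/(4 m (hδ)^2))^3 for large m, which tends to c;
Filter.le_liminf_of_le, liminf_le_liminf, Tendsto.liminf_eq. -/
theorem le_liminf_ker {h : ℝ} (hh : 0 < h) {V : E3 → ℝ} (hl : LowerSemicontinuous V)
    (h0 : ∀ x, 0 ≤ V x) (hi : Integrable V) (z : E3) :
    ENNReal.ofReal (V z) ≤ Filter.liminf
      (fun m : ℕ => ENNReal.ofReal (∫ x, V x * ker (m + 1) h (x - z))) Filter.atTop := by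
  refine le_of_forall_lt_imp_le_of_dense fun a ha => ?_
  have hat : a ≠ ∞ := ne_top_of_lt ha
  have hc : a.toReal < V z := (ENNReal.lt_ofReal_iff_toReal_lt hat).1 ha
  obtain ⟨c, hc1, hc2⟩ := exists_between hc
  have hc0 : 0 ≤ c := (ENNReal.toReal_nonneg).trans hc1.le
  obtain ⟨ε, hε, hball⟩ := Metric.eventually_nhds_iff.1 (hl z c hc2)
  obtain ⟨δ, hδ⟩ : ∃ δ, δ = min (ε / 2) (1 / (2 * h)) := ⟨_, rfl⟩
  have hδ0 : 0 < δ := hδ ▸ lt_min (by linarith) (by positivity)
  have hδ1 : δ ≤ ε / 2 := hδ ▸ min_le_left _ _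
  have hδ2 : h * δ ≤ 1 / 2 := by
    have h1 : δ ≤ 1 / (2 * h) := hδ ▸ min_le_right _ _
    calc h * δ ≤ h * (1 / (2 * h)) := mul_le_mul_of_nonneg_left h1 hh.le
      _ = 1 / 2 := by field_simp
  have hhδ : 0 < h * δ := mul_pos hh hδ0
  have hV : ∀ y : E3, (∀ k, y k ∈ Set.Ioo (-δ) δ) → c ≤ V (y + z) := by
    intro y hy
    refine (hball ?_).le
    rw [dist_eq_norm, add_sub_cancel_right]
    linarith [g5_norm_lt hδ0 hy]
  have ht : Filter.Tendsto (fun m : ℕ => 1 - 1 / (4 * ((m + 1 : ℕ) : ℝ) * (h * δ) ^ 2))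
      Filter.atTop (nhds 1) := by
    have h1 : Filter.Tendsto (fun m : ℕ => 1 - (1 / (4 * (h * δ) ^ 2)) * (1 / ((m : ℝ) + 1)))
        Filter.atTop (nhds (1 - (1 / (4 * (h * δ) ^ 2)) * 0)) :=
      (tendsto_one_div_add_atTop_nhds_zero_nat.const_mul _).const_sub _
    rw [mul_zero, sub_zero] at h1
    refine h1.congr fun m => ?_
    push_cast
    field_simp
  have ht2 : Filter.Tendsto
      (fun m : ℕ => c * (1 - 1 / (4 * ((m + 1 : ℕ) : ℝ) * (h * δ) ^ 2)) ^ 3)
      Filter.atTop (nhds c) := by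
    have := (ht.pow 3).const_mul c
    rwa [one_pow, mul_one] at this
  refine Filter.le_liminf_of_le (h := ?_)
  filter_upwards [ht.eventually (lt_mem_nhds one_pos), ht2.eventually (lt_mem_nhds hc1)]
    with m hm1 hm2
  rw [ENNReal.le_ofReal_iff_toReal_le hat
    (integral_nonneg fun x => mul_nonneg (h0 x) (ker_nonneg _ hh _))]
  refine hm2.le.trans (le_trans ?_ (g5_lower (m + 1) hh hδ0 h0 hi z hV))
  refine mul_le_mul_of_nonneg_left ?_ hc0
  exact pow_le_pow_left₀ hm1.le (fej_mass (Nat.succ_pos m) hhδ hδ2) 3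

end Pool.Agent.P.MP_9f4f5e_mp.LT
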