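import Pool.Agent.P.MP_9f4f5e_mp.LT.F6
import Pool.Agent.P.MP_9f4f5e_mp.LT.G1
import Pool.Agent.P.MP_9f4f5e_mp.LT.G3
import Pool.Agent.P.MP_9f4f5e_mp.LT.G5

set_option autoImplicit false
set_option linter.unusedSectionVars false

open MeasureTheory Matrix
open scoped ENNReal ComplexOrder ComplexConjugate RealInnerProductSpace FourierTransform

noncomputable section

namespace Pool.Agent.P.MP_9f4f5e_mp.LT

variable {Y : Type} [MeasurableSpace Y] {ν : Measure Y} [SFinite ν] {Φ : E3 × Y → ℂ} {ρ : E3 → ℝ}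

theorem g6_integrable {h : ℝ} {V : E3 → ℝ} (hV : Measurable V) {M : ℝ} (h0 : ∀ x, 0 ≤ V x)
    (hM : ∀ x, V x ≤ M) (hs : ∀ x, x ∉ cell h → V x = 0) : Integrable V := by
  have h1 : IntegrableOn V (cell h) volume :=
    Measure.integrableOn_of_bounded (volume_cell_ne_top h) hV.aestronglyMeasurable
      (M := M) (Filter.Eventually.of_forall fun x => by
        rw [Real.norm_eq_abs, abs_of_nonneg (h0 x)]
        exact hM x)
  exact h1.integrable_of_forall_notMem_eq_zero hs

theorem g6_measurable_ec (a : E3) : Measurable fun x : E3 => ec ⟪a, x⟫ :=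
  (continuous_ec.comp (continuous_const.inner continuous_id)).measurable

theorem g6_measurable_ec_neg (a : E3) : Measurable fun x : E3 => ec (-⟪a, x⟫) :=
  (continuous_ec.comp (continuous_const.inner continuous_id).neg).measurable

theorem g6_integrable_mul {A : E3 → ℝ} (hA : Integrable A) {e : E3 → ℂ} (he : Measurable e)
    (he1 : ∀ x, ‖e x‖ = 1) : Integrable fun x => (A x : ℂ) * e x :=
  hA.ofReal.mul_bdd (c := 1) he.aestronglyMeasurable
    (Filter.Eventually.of_forall fun x => (he1 x).le)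

theorem g6_inner {h : ℝ} {m : ℕ} (hm : 0 < m) {V : E3 → ℝ} (hi : Integrable V) (z : E3) :
    ∑ i : Fin 3 → Fin m, ∑ j : Fin 3 → Fin m, ec (-⟪lat h i - lat h j, z⟫)
        * ((h : ℂ) ^ 3 * ∫ x, (V x : ℂ) * ec ⟪lat h i - lat h j, x⟫)
      = ((m ^ 3 * ∫ x, V x * ker m h (x - z) : ℝ) : ℂ) := by
  have h1 : ∀ i j : Fin 3 → Fin m, ec (-⟪lat h i - lat h j, z⟫)
        * ((h : ℂ) ^ 3 * ∫ x, (V x : ℂ) * ec ⟪lat h i - lat h j, x⟫)
      = ∫ x, (h : ℂ) ^ 3 * ((V x : ℂ) * ec ⟪lat h i - lat h j, x - z⟫) := by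
    intro i j
    rw [← integral_const_mul, ← integral_const_mul]
    refine integral_congr_ae (Filter.Eventually.of_forall fun x => ?_)
    simp only
    rw [inner_sub_right (lat h i - lat h j) x z, sub_eq_add_neg (⟪lat h i - lat h j, x⟫), ec_add]
    ring
  have h2 : ∀ i j : Fin 3 → Fin m, Integrable
      fun x => (h : ℂ) ^ 3 * ((V x : ℂ) * ec ⟪lat h i - lat h j, x - z⟫) := by
    intro i j
    refine Integrable.const_mul ?_ _
    exact g6_integrable_mul hi
      ((g6_measurable_ec _).comp (measurable_id.sub_const z)) fun x => norm_ec _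
  simp only [h1]
  rw [← integral_const_mul, ← integral_complex_ofReal]
  rw [Finset.sum_congr rfl fun i _ => (integral_finsetSum Finset.univ fun j _ => h2 i j).symm,
    ← integral_finsetSum Finset.univ
      fun i _ => integrable_finsetSum Finset.univ fun j _ => h2 i j]
  refine integral_congr_ae (Filter.Eventually.of_forall fun x => ?_)
  have h3 := dirichlet_eq h hm (x - z)
  simp only [← Finset.mul_sum]
  rw [mul_left_comm, h3]
  push_cast
  ring

theorem g6_double {h : ℝ} {m : ℕ} (hm : 0 < m) {V : E3 → ℝ} (hi : Integrable V) {A : E3 → ℝ}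
    (hA : Integrable A) :
    ∑ i : Fin 3 → Fin m, ∑ j : Fin 3 → Fin m, (∫ z, (A z : ℂ) * ec (-⟪lat h i - lat h j, z⟫))
        * ((h : ℂ) ^ 3 * ∫ x, (V x : ℂ) * ec ⟪lat h i - lat h j, x⟫)
      = ((m ^ 3 * ∫ z, A z * ∫ x, V x * ker m h (x - z) : ℝ) : ℂ) := by
  have h2 : ∀ i j : Fin 3 → Fin m, Integrable
      fun z => (A z : ℂ) * ec (-⟪lat h i - lat h j, z⟫)
        * ((h : ℂ) ^ 3 * ∫ x, (V x : ℂ) * ec ⟪lat h i - lat h j, x⟫) := by
    intro i j
    exact (g6_integrable_mul hA (g6_measurable_ec_neg _) fun x => norm_ec _).mul_const _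
  simp only [← integral_mul_const]
  rw [← integral_const_mul, ← integral_complex_ofReal]
  rw [Finset.sum_congr rfl fun i _ => (integral_finsetSum Finset.univ fun j _ => h2 i j).symm,
    ← integral_finsetSum Finset.univ
      fun i _ => integrable_finsetSum Finset.univ fun j _ => h2 i j]
  refine integral_congr_ae (Filter.Eventually.of_forall fun z => ?_)
  have h3 := g6_inner (h := h) hm hi z
  simp only [mul_assoc (A z : ℂ), ← Finset.mul_sum]
  rw [h3]
  push_cast
  ring

theorem g6_entry {h : ℝ} (hh : 0 < h) {V : E3 → ℝ} (hs : ∀ x, x ∉ cell h → V x = 0) (a b : E3) :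
    ∫ x, (V x : ℂ) * (ec (-⟪b, x⟫) * conj (ec (-⟪a, x⟫)))
        ∂(ENNReal.ofReal (h ^ 3) • (volume : Measure E3).restrict (cell h))
      = (h : ℂ) ^ 3 * ∫ x, (V x : ℂ) * ec ⟪a - b, x⟫ := by
  rw [integral_smul_measure, ENNReal.toReal_ofReal (by positivity),
    setIntegral_eq_integral_of_forall_compl_eq_zero (fun x hx => by simp [hs x hx]),
    Complex.real_smul, Complex.ofReal_pow]
  congr 1
  refine integral_congr_ae (Filter.Eventually.of_forall fun x => ?_)
  simp only
  rw [← ec_neg, neg_neg, ← ec_add, inner_sub_left]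
  congr 2
  ring

/-- Fixed lattice. Hint: ι = Fin 3 → Fin m, card = m^3; μ = ofReal (h^3) • volume.restrict (cell h),
e x i = ec (-⟪lat h i, x⟫), berezin_lieb with cell_frame; Data.finite_level with Q = cube h,
r = 2 h, a = lat h. W j i = h^3 * ∫ x, V x * ec ⟪lat i - lat j, x⟫ (V vanishes off the cell).
Move W j i and the sums inside the z-integral, then inside the x-integral, dirichlet_eq at x - z:
the double sum is ∫ z, ρ z ‖ww z‖^2 * (m^3 * ∫ x, V x * ker m h (x - z)). No Fubini is needed.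
Divide by m^3 h^3; ofReal_integral_eq_lintegral_ofReal (integrable: bounded by a multiple of ρ). -/
theorem Data.fixed_level (D : Data ν Φ ρ) {h : ℝ} (hh : 0 < h) {m : ℕ} (hm : 0 < m)
    {V : E3 → ℝ} (hV : Measurable V) {M : ℝ} (h0 : ∀ x, 0 ≤ V x) (hM : ∀ x, V x ≤ M)
    (hs : ∀ x, x ∉ cell h → V x = 0) :
    ∫⁻ z, ENNReal.ofReal (ρ z * (‖ww (cube h) z‖ ^ 2 / h ^ 6) * ∫ x, V x * ker m h (x - z))
      ≤ ENNReal.ofReal (∫ p, ‖p.1‖ * ‖Φ p‖ ^ 2 ∂((volume : Measure E3).prod ν)
          + 2 * h * ∫ p, ‖Φ p‖ ^ 2 ∂((volume : Measure E3).prod ν)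
          + 711 / 400 * ∫ x, V x ^ 4) := by
  have hi : Integrable V := g6_integrable hV h0 hM hs
  have h3 : 0 < h ^ 3 := by positivity
  have hm3 : (0 : ℝ) < (m : ℝ) ^ 3 := by positivity
  have : IsFiniteMeasure ((volume : Measure E3).restrict (cell h)) :=
    isFiniteMeasure_restrict.2 (volume_cell_ne_top h)
  have : IsFiniteMeasure (ENNReal.ofReal (h ^ 3) • (volume : Measure E3).restrict (cell h)) :=
    Measure.smul_finite _ ENNReal.ofReal_ne_top
  obtain ⟨hW, hBL⟩ := berezin_lieb (ι := Fin 3 → Fin m)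
    (ENNReal.ofReal (h ^ 3) • (volume : Measure E3).restrict (cell h))
    (e := fun x i => ec (-⟪lat h i, x⟫)) (fun i => g6_measurable_ec_neg _)
    (fun x i => (norm_ec _).le)
    (fun c => by
      rw [integral_smul_measure, ENNReal.toReal_ofReal h3.le, smul_eq_mul]
      exact cell_frame hh c) hV h0 hM
  have hF := D.finite_level (measurableSet_cube h)
    (by rw [volume_cube hh]; exact ENNReal.ofReal_ne_top)
    (by rw [volume_cube hh]; exact (ENNReal.ofReal_pos.2 h3).ne')
    (r := 2 * h) (by positivity) (fun s hs => norm_le_of_mem_cube hs) (lat h (m := m))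
    (lat_disjoint hh) hW
  have hA : Integrable fun z => ρ z * ‖ww (cube h) z‖ ^ 2 :=
    D.rho_int.mul_bdd (c := (h ^ 3) ^ 2)
      ((measurable_ww _).norm.pow_const 2).aestronglyMeasurable
      (Filter.Eventually.of_forall fun z => by
        rw [Real.norm_eq_abs, abs_of_nonneg (by positivity)]
        exact pow_le_pow_left₀ (norm_nonneg _) (norm_ww_le hh z) 2)
  have hcard : (Fintype.card (Fin 3 → Fin m) : ℝ) = (m : ℝ) ^ 3 := by simp
  rw [integral_smul_measure, ENNReal.toReal_ofReal h3.le, smul_eq_mul,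
    setIntegral_eq_integral_of_forall_compl_eq_zero (fun x hx => by simp [hs x hx]),
    hcard] at hBL
  simp only [Matrix.of_apply, g6_entry hh hs] at hF hBL
  rw [g6_double hm hi hA, Complex.ofReal_re, volume_cube hh, ENNReal.toReal_ofReal h3.le,
    hcard] at hF
  have hB0 : ∀ z, 0 ≤ ∫ x, V x * ker m h (x - z) := fun z =>
    integral_nonneg fun x => mul_nonneg (h0 x) (ker_nonneg m hh _)
  have hBm : StronglyMeasurable fun z : E3 => ∫ x, V x * ker m h (x - z) := by
    have h1 : Measurable fun p : E3 × E3 => V p.2 * ker m h (p.2 - p.1) :=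
      (hV.comp measurable_snd).mul
        ((continuous_ker m h).measurable.comp (measurable_snd.sub measurable_fst))
    exact h1.stronglyMeasurable.integral_prod_right'
  have hB1 : ∀ z, ∫ x, V x * ker m h (x - z) ≤ ∫ x, V x * (h ^ 3 * m ^ 3) := fun z =>
    integral_mono_of_nonneg
      (Filter.Eventually.of_forall fun x => mul_nonneg (h0 x) (ker_nonneg m hh _))
      (hi.mul_const _)
      (Filter.Eventually.of_forall fun x => mul_le_mul_of_nonneg_left (ker_le m hh _) (h0 x))
  have hAB : Integrable fun z => ρ z * ‖ww (cube h) z‖ ^ 2 * ∫ x, V x * ker m h (x - z) :=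
    hA.mul_bdd (c := ∫ x, V x * (h ^ 3 * m ^ 3)) hBm.aestronglyMeasurable
      (Filter.Eventually.of_forall fun z => by
        rw [Real.norm_eq_abs, abs_of_nonneg (hB0 z)]
        exact hB1 z)
  have heq : (fun z => ρ z * (‖ww (cube h) z‖ ^ 2 / h ^ 6) * ∫ x, V x * ker m h (x - z))
      = fun z => (h ^ 6)⁻¹ * (ρ z * ‖ww (cube h) z‖ ^ 2 * ∫ x, V x * ker m h (x - z)) := by
    funext z
    ring
  have hI : Integrable
      fun z => ρ z * (‖ww (cube h) z‖ ^ 2 / h ^ 6) * ∫ x, V x * ker m h (x - z) := by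
    rw [heq]
    exact hAB.const_mul _
  rw [← ofReal_integral_eq_lintegral_ofReal hI (Filter.Eventually.of_forall fun z =>
    mul_nonneg (mul_nonneg (D.rho_nonneg z) (by positivity)) (hB0 z))]
  refine ENNReal.ofReal_le_ofReal ?_
  rw [heq, integral_const_mul]
  set S := ∫ z, ρ z * ‖ww (cube h) z‖ ^ 2 * ∫ x, V x * ker m h (x - z)
  set K := ∫ p, ‖p.1‖ * ‖Φ p‖ ^ 2 ∂((volume : Measure E3).prod ν)
  set N := ∫ p, ‖Φ p‖ ^ 2 ∂((volume : Measure E3).prod ν)
  set T := ∫ x, V x ^ 4
  have h4 : (h ^ 3)⁻¹ * ((m : ℝ) ^ 3 * S)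
      ≤ (m : ℝ) ^ 3 * h ^ 3 * (K + 2 * h * N + 711 / 400 * T) := by
    linarith
  refine le_of_mul_le_mul_left ?_ (mul_pos hm3 h3)
  refine le_trans (le_of_eq ?_) h4
  field_simp

end Pool.Agent.P.MP_9f4f5e_mp.LT
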