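import Pool.Agent.P.MP_9f4f5e_mp.LT.G6

set_option autoImplicit false
set_option linter.unusedSectionVars false

open MeasureTheory Matrix
open scoped ENNReal ComplexOrder ComplexConjugate RealInnerProductSpace FourierTransform

noncomputable section

namespace Pool.Agent.P.MP_9f4f5e_mp.LT

variable {Y : Type} [MeasurableSpace Y] {ν : Measure Y} [SFinite ν] {Φ : E3 × Y → ℂ} {ρ : E3 → ℝ}

theorem g7_integrable {V : E3 → ℝ} (hV : Measurable V) {M r : ℝ}
    (h0 : ∀ x, 0 ≤ V x) (hM : ∀ x, V x ≤ M) (hs : ∀ x, r ≤ ‖x‖ → V x = 0) : Integrable V := by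
  have h1 : IntegrableOn V (Metric.ball (0 : E3) r) := by
    refine Measure.integrableOn_of_bounded (M := M) measure_ball_lt_top.ne hV.aestronglyMeasurable ?_
    refine Filter.Eventually.of_forall fun x => ?_
    rw [Real.norm_eq_abs, abs_of_nonneg (h0 x)]
    exact hM x
  refine h1.integrable_of_forall_notMem_eq_zero fun x hx => hs x ?_
  simpa using hx

theorem g7_off_cell {V : E3 → ℝ} {r h : ℝ} (hh : 0 < h) (hhr : 2 * h * r ≤ 1)
    (hs : ∀ x, r ≤ ‖x‖ → V x = 0) : ∀ x, x ∉ cell h → V x = 0 := by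
  intro x hx
  apply hs
  by_contra hlt
  push Not at hlt
  apply hx
  intro k
  have h1 : |x k| ≤ ‖x‖ := by
    have := PiLp.norm_apply_le x k
    simpa [Real.norm_eq_abs] using this
  have h2 : r ≤ 1 / (2 * h) := by
    rw [le_div_iff₀ (by positivity)]
    linarith
  linarith

theorem g7_meas_conv {V : E3 → ℝ} (hV : Measurable V) (m : ℕ) (h : ℝ) :
    Measurable fun z : E3 => ∫ x, V x * ker m h (x - z) := by
  have h1 : Measurable fun p : E3 × E3 => V p.2 * ker m h (p.2 - p.1) :=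
    (hV.comp measurable_snd).mul
      ((continuous_ker m h).measurable.comp (measurable_snd.sub measurable_fst))
  exact (h1.stronglyMeasurable.integral_prod_right' (ν := (volume : Measure E3))).measurable

theorem g7_level (D : Data ν Φ ρ) {V : E3 → ℝ} (hl : LowerSemicontinuous V) {M r h : ℝ}
    (hh : 0 < h) (hhr : 2 * h * r ≤ 1)
    (h0 : ∀ x, 0 ≤ V x) (hM : ∀ x, V x ≤ M) (hs : ∀ x, r ≤ ‖x‖ → V x = 0) :
    ∫⁻ z, ENNReal.ofReal (ρ z * (‖ww (cube h) z‖ ^ 2 / h ^ 6) * V z)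
      ≤ ENNReal.ofReal (∫ p, ‖p.1‖ * ‖Φ p‖ ^ 2 ∂((volume : Measure E3).prod ν)
          + 2 * h * ∫ p, ‖Φ p‖ ^ 2 ∂((volume : Measure E3).prod ν)
          + 711 / 400 * ∫ x, V x ^ 4) := by
  have hV : Measurable V := hl.measurable
  have hi : Integrable V := g7_integrable hV h0 hM hs
  have ha : Measurable fun z : E3 => ρ z * (‖ww (cube h) z‖ ^ 2 / h ^ 6) :=
    D.rho_meas.mul ((((measurable_ww (cube h)).norm).pow_const 2).div_const _)
  have ha0 : ∀ z : E3, 0 ≤ ρ z * (‖ww (cube h) z‖ ^ 2 / h ^ 6) := fun z =>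
    mul_nonneg (D.rho_nonneg z) (by positivity)
  have hF : ∀ m : ℕ, Measurable fun z : E3 => ENNReal.ofReal
      (ρ z * (‖ww (cube h) z‖ ^ 2 / h ^ 6) * ∫ x, V x * ker (m + 1) h (x - z)) := fun m =>
    (ha.mul (g7_meas_conv hV (m + 1) h)).ennreal_ofReal
  calc ∫⁻ z, ENNReal.ofReal (ρ z * (‖ww (cube h) z‖ ^ 2 / h ^ 6) * V z)
      ≤ ∫⁻ z, Filter.liminf (fun m : ℕ => ENNReal.ofReal
          (ρ z * (‖ww (cube h) z‖ ^ 2 / h ^ 6) * ∫ x, V x * ker (m + 1) h (x - z)))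
          Filter.atTop := by
        refine lintegral_mono fun z => ?_
        simp only [ENNReal.ofReal_mul (ha0 z)]
        rw [ENNReal.liminf_const_mul_of_ne_top ENNReal.ofReal_ne_top]
        exact mul_le_mul_right (le_liminf_ker hh hl h0 hi z) _
    _ ≤ Filter.liminf (fun m : ℕ => ∫⁻ z, ENNReal.ofReal
          (ρ z * (‖ww (cube h) z‖ ^ 2 / h ^ 6) * ∫ x, V x * ker (m + 1) h (x - z)))
          Filter.atTop := lintegral_liminf_le hF
    _ ≤ _ := by
        refine Filter.liminf_le_of_frequently_le' (Filter.Frequently.of_forall fun m => ?_)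
        exact D.fixed_level hh (Nat.succ_pos m) hV h0 hM (g7_off_cell hh hhr hs)

theorem g7_ratio {u : ℕ → ℝ} (hu : ∀ j, 0 < u j)
    (hu0 : Filter.Tendsto u Filter.atTop (nhds 0)) (z : E3) :
    Filter.Tendsto (fun j => ‖ww (cube (u j)) z‖ ^ 2 / u j ^ 6) Filter.atTop (nhds 1) := by
  have h1 : Filter.Tendsto (fun j => ‖ww (cube (u j)) z‖ / u j ^ 3) Filter.atTop (nhds 1) := by
    have hlow : Filter.Tendsto (fun j => 1 - 4 * Real.pi * u j * ‖z‖) Filter.atTop (nhds 1) := by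
      have := ((hu0.const_mul (4 * Real.pi)).mul_const ‖z‖).const_sub 1
      simpa using this
    refine tendsto_of_tendsto_of_tendsto_of_le_of_le hlow tendsto_const_nhds (fun j => ?_)
      (fun j => ?_)
    · have h3 : 0 < u j ^ 3 := pow_pos (hu j) 3
      have := le_norm_ww (hu j) z
      show 1 - 4 * Real.pi * u j * ‖z‖ ≤ ‖ww (cube (u j)) z‖ / u j ^ 3
      rw [le_div_iff₀ h3]
      linarith
    · have h3 : 0 < u j ^ 3 := pow_pos (hu j) 3
      have := norm_ww_le (hu j) z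
      show ‖ww (cube (u j)) z‖ / u j ^ 3 ≤ 1
      rw [div_le_one h3]
      exact this
  have h2 := h1.pow 2
  rw [one_pow] at h2
  refine h2.congr fun j => ?_
  rw [div_pow, ← pow_mul]

/-- Limits. Hint: for h with 2 h r ≤ 1 (so V vanishes off the cell: |x k| ≤ ‖x‖ < r) Fatou in m
(lintegral_liminf_le, le_liminf_ker, ENNReal.liminf_const_mul-type lemma, measurability of
z ↦ ∫ x, V x * ker (x - z) by StronglyMeasurable.integral_prod_right') gives the bound for
∫⁻ ofReal (ρ (‖ww‖^2/h^6) V). Then h j = 1/(2 r (j+1)) → 0, ‖ww‖^2/h^6 → 1 pointwise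
(norm_ww_le, le_norm_ww), Fatou again. -/
theorem Data.dual (D : Data ν Φ ρ) {V : E3 → ℝ} (hl : LowerSemicontinuous V) {M r : ℝ}
    (hr : 0 < r) (h0 : ∀ x, 0 ≤ V x) (hM : ∀ x, V x ≤ M) (hs : ∀ x, r ≤ ‖x‖ → V x = 0) :
    ∫⁻ z, ENNReal.ofReal (ρ z * V z)
      ≤ ENNReal.ofReal (∫ p, ‖p.1‖ * ‖Φ p‖ ^ 2 ∂((volume : Measure E3).prod ν)
          + 711 / 400 * ∫ x, V x ^ 4) := by
  have hV : Measurable V := hl.measurable
  set u : ℕ → ℝ := fun j => (2 * r)⁻¹ * (1 / ((j : ℝ) + 1)) with hu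
  have hupos : ∀ j, 0 < u j := fun j => by
    simp only [hu]
    positivity
  have hu0 : Filter.Tendsto u Filter.atTop (nhds 0) := by
    have := (tendsto_one_div_add_atTop_nhds_zero_nat (𝕜 := ℝ)).const_mul (2 * r)⁻¹
    simpa [hu] using this
  have hur : ∀ j, 2 * u j * r ≤ 1 := fun j => by
    have h1 : 2 * u j * r = 1 / ((j : ℝ) + 1) := by
      simp only [hu]
      field_simp
    rw [h1, div_le_one (by positivity)]
    have : (0 : ℝ) ≤ j := Nat.cast_nonneg j
    linarith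
  have hF : ∀ j : ℕ, Measurable fun z : E3 => ENNReal.ofReal
      (ρ z * (‖ww (cube (u j)) z‖ ^ 2 / u j ^ 6) * V z) := fun j =>
    ((D.rho_meas.mul ((((measurable_ww (cube (u j))).norm).pow_const 2).div_const _)).mul
      hV).ennreal_ofReal
  have hlim : Filter.Tendsto (fun j : ℕ => ENNReal.ofReal
      (∫ p, ‖p.1‖ * ‖Φ p‖ ^ 2 ∂((volume : Measure E3).prod ν)
          + 2 * u j * ∫ p, ‖Φ p‖ ^ 2 ∂((volume : Measure E3).prod ν)
          + 711 / 400 * ∫ x, V x ^ 4)) Filter.atTop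
      (nhds (ENNReal.ofReal (∫ p, ‖p.1‖ * ‖Φ p‖ ^ 2 ∂((volume : Measure E3).prod ν)
          + 711 / 400 * ∫ x, V x ^ 4))) := by
    refine ENNReal.tendsto_ofReal ?_
    have := ((((hu0.const_mul 2).mul_const
      (∫ p, ‖Φ p‖ ^ 2 ∂((volume : Measure E3).prod ν))).const_add
      (∫ p, ‖p.1‖ * ‖Φ p‖ ^ 2 ∂((volume : Measure E3).prod ν))).add_const
      (711 / 400 * ∫ x, V x ^ 4))
    simpa using this
  calc ∫⁻ z, ENNReal.ofReal (ρ z * V z)
      = ∫⁻ z, Filter.liminf (fun j : ℕ => ENNReal.ofReal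
          (ρ z * (‖ww (cube (u j)) z‖ ^ 2 / u j ^ 6) * V z)) Filter.atTop := by
        refine lintegral_congr fun z => ?_
        have h1 := ((g7_ratio hupos hu0 z).const_mul (ρ z)).mul_const (V z)
        rw [mul_one] at h1
        exact ((ENNReal.tendsto_ofReal h1).liminf_eq).symm
    _ ≤ Filter.liminf (fun j : ℕ => ∫⁻ z, ENNReal.ofReal
          (ρ z * (‖ww (cube (u j)) z‖ ^ 2 / u j ^ 6) * V z)) Filter.atTop :=
        lintegral_liminf_le hF
    _ ≤ Filter.liminf (fun j : ℕ => ENNReal.ofReal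
          (∫ p, ‖p.1‖ * ‖Φ p‖ ^ 2 ∂((volume : Measure E3).prod ν)
          + 2 * u j * ∫ p, ‖Φ p‖ ^ 2 ∂((volume : Measure E3).prod ν)
          + 711 / 400 * ∫ x, V x ^ 4)) Filter.atTop :=
        Filter.liminf_le_liminf (Filter.Eventually.of_forall fun j =>
          g7_level D hl (hupos j) (hur j) h0 hM hs)
    _ = _ := hlim.liminf_eq

end Pool.Agent.P.MP_9f4f5e_mp.LT
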