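import Pool.Agent.P.MP_9f4f5e_mp.LT.Base

set_option autoImplicit false
set_option linter.unusedSectionVars false

open MeasureTheory Matrix
open scoped ENNReal ComplexOrder ComplexConjugate RealInnerProductSpace FourierTransform

noncomputable section

namespace Pool.Agent.P.MP_9f4f5e_mp.LT

/-- Extension to bounded measurable potentials. Hint: exists_le_lowerSemicontinuous_lintegral_ge
(Vitali-Caratheodory) for f = nnreal-valued V0^4 gives g : E3 → ℝ≥0∞ lsc, f ≤ g, ∫⁻ g ≤ ∫⁻ f + ε;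
V = indicator (ball 0 r) (((min (g x) (ofReal (M^4))).toReal) ^ (1/4)) is lsc (monotone continuous
image, LowerSemicontinuous of an indicator of an open set: prove it from the definition),
V0 ≤ V ≤ M, V^4 ≤ g. Let ε → 0. -/
theorem dual_measurable {ρ : E3 → ℝ} (hρ0 : ∀ z, 0 ≤ ρ z) {T C : ℝ} (hT : 0 ≤ T) (hC : 0 < C)
    (H : ∀ (V : E3 → ℝ) (M r : ℝ), LowerSemicontinuous V → 0 < r → (∀ x, 0 ≤ V x) →
      (∀ x, V x ≤ M) → (∀ x, r ≤ ‖x‖ → V x = 0) →
      ∫⁻ z, ENNReal.ofReal (ρ z * V z) ≤ ENNReal.ofReal (T + C * ∫ x, V x ^ 4))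
    {V : E3 → ℝ} (hV : Measurable V) {M r : ℝ} (hr : 0 < r) (h0 : ∀ x, 0 ≤ V x)
    (hM : ∀ x, V x ≤ M) (hs : ∀ x, r ≤ ‖x‖ → V x = 0) :
    ∫⁻ z, ENNReal.ofReal (ρ z * V z) ≤ ENNReal.ofReal (T + C * ∫ x, V x ^ 4) := by
  have hM0 : 0 ≤ M := (h0 0).trans (hM 0)
  have hV4 : Integrable fun x => V x ^ 4 := by
    have h1 : Integrable ((Metric.ball (0 : E3) r).indicator fun _ => M ^ 4) :=
      (integrableOn_const measure_ball_lt_top.ne).integrable_indicator measurableSet_ball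
    refine h1.mono' (hV.pow_const 4).aestronglyMeasurable (ae_of_all _ fun x => ?_)
    rw [Real.norm_of_nonneg (pow_nonneg (h0 x) 4)]
    by_cases hx : x ∈ Metric.ball (0 : E3) r
    · rw [Set.indicator_of_mem hx]
      exact pow_le_pow_left₀ (h0 x) (hM x) 4
    · rw [Set.indicator_of_notMem hx, hs x (by simpa using hx)]
      norm_num
  have hI0 : 0 ≤ ∫ x, V x ^ 4 := integral_nonneg fun x => pow_nonneg (h0 x) 4
  refine ENNReal.le_of_forall_pos_le_add fun ε hε _ => ?_
  have hδ : 0 < (ε : ℝ) / C := div_pos hε hC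
  obtain ⟨g, hfg, hgl, hgi⟩ := exists_le_lowerSemicontinuous_lintegral_ge (volume : Measure E3)
    (fun x => ENNReal.ofReal (V x ^ 4)) (hV.pow_const 4).ennreal_ofReal
    (ε := ENNReal.ofReal (ε / C)) (by simpa using hδ)
  rw [← ofReal_integral_eq_lintegral_ofReal hV4 (ae_of_all _ fun x => pow_nonneg (h0 x) 4),
    ← ENNReal.ofReal_add hI0 hδ.le] at hgi
  set φ : ℝ≥0∞ → ℝ := fun u =>
    ENNReal.truncateToReal (ENNReal.ofReal (M ^ 4)) u ^ (((4 : ℕ) : ℝ)⁻¹) with hφ
  have hφ0 : ∀ u, 0 ≤ φ u := fun u => Real.rpow_nonneg ENNReal.truncateToReal_nonneg _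
  have hφ4 : ∀ u, φ u ^ 4 = ENNReal.truncateToReal (ENNReal.ofReal (M ^ 4)) u := fun u =>
    Real.rpow_inv_natCast_pow ENNReal.truncateToReal_nonneg (by norm_num)
  have hφc : Continuous φ :=
    (ENNReal.continuous_truncateToReal ENNReal.ofReal_ne_top).rpow_const fun _ =>
      Or.inr (by positivity)
  have hφm : Monotone φ := fun u v huv => Real.rpow_le_rpow ENNReal.truncateToReal_nonneg
    (ENNReal.monotone_truncateToReal ENNReal.ofReal_ne_top huv) (by positivity)
  have hφM : ∀ u, φ u ≤ M := by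
    intro u
    refine le_of_pow_le_pow_left₀ (n := 4) (by norm_num) hM0 ?_
    rw [hφ4]
    exact ENNReal.toReal_le_of_le_ofReal (by positivity) (min_le_left _ _)
  have hφg : ∀ u, ENNReal.ofReal (φ u ^ 4) ≤ u := by
    intro u
    rw [hφ4]
    exact ENNReal.ofReal_toReal_le.trans (min_le_right _ _)
  have hVφ : ∀ x, V x ≤ φ (g x) := by
    intro x
    refine le_trans ?_ (hφm (hfg x))
    refine le_of_pow_le_pow_left₀ (n := 4) (by norm_num) (hφ0 _) ?_
    rw [hφ4, ENNReal.truncateToReal_eq_toReal ENNReal.ofReal_ne_top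
      (ENNReal.ofReal_le_ofReal (pow_le_pow_left₀ (h0 x) (hM x) 4)),
      ENNReal.toReal_ofReal (pow_nonneg (h0 x) 4)]
  have hl : LowerSemicontinuous (φ ∘ g) := hφc.comp_lowerSemicontinuous hgl hφm
  set W : E3 → ℝ := (Metric.ball (0 : E3) r).indicator (φ ∘ g) with hW
  have hW0 : ∀ x, 0 ≤ W x := fun x => Set.indicator_nonneg (fun y _ => hφ0 _) x
  have hWle : ∀ x, W x ≤ φ (g x) := fun x => Set.indicator_le_self' (fun y _ => hφ0 _) x
  have hWl : LowerSemicontinuous W := by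
    intro x y hy
    by_cases hx : x ∈ Metric.ball (0 : E3) r
    · rw [hW, Set.indicator_of_mem hx] at hy
      filter_upwards [hl x y hy, Metric.isOpen_ball.mem_nhds hx] with z hz hz'
      rwa [hW, Set.indicator_of_mem hz']
    · rw [hW, Set.indicator_of_notMem hx] at hy
      exact Filter.Eventually.of_forall fun z => hy.trans_le (hW0 z)
  have hVW : ∀ x, V x ≤ W x := by
    intro x
    by_cases hx : x ∈ Metric.ball (0 : E3) r
    · rw [hW, Set.indicator_of_mem hx]
      exact hVφ x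
    · rw [hs x (by simpa using hx)]
      exact hW0 x
  have hWi : ∫ x, W x ^ 4 ≤ (∫ x, V x ^ 4) + ε / C := by
    rw [integral_eq_lintegral_of_nonneg_ae (ae_of_all _ fun x => pow_nonneg (hW0 x) 4)
      (hWl.measurable.pow_const 4).aestronglyMeasurable]
    refine ENNReal.toReal_le_of_le_ofReal (add_nonneg hI0 hδ.le) (le_trans ?_ hgi)
    refine lintegral_mono fun x => le_trans ?_ (hφg (g x))
    exact ENNReal.ofReal_le_ofReal (pow_le_pow_left₀ (hW0 x) (hWle x) 4)
  have h2 := H W M r hWl hr hW0 (fun x => (hWle x).trans (hφM _)) fun x hx =>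
    Set.indicator_of_notMem (by simpa using hx) _
  calc ∫⁻ z, ENNReal.ofReal (ρ z * V z) ≤ ∫⁻ z, ENNReal.ofReal (ρ z * W z) :=
        lintegral_mono fun z =>
          ENNReal.ofReal_le_ofReal (mul_le_mul_of_nonneg_left (hVW z) (hρ0 z))
    _ ≤ ENNReal.ofReal (T + C * ∫ x, W x ^ 4) := h2
    _ ≤ ENNReal.ofReal (T + C * (∫ x, V x ^ 4) + ε) := by
        refine ENNReal.ofReal_le_ofReal ?_
        have h3 := mul_le_mul_of_nonneg_left hWi hC.le
        rw [mul_add, mul_div_cancel₀ _ hC.ne'] at h3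
        linarith
    _ = _ := by
        rw [ENNReal.ofReal_add (add_nonneg hT (mul_nonneg hC.le hI0)) ε.coe_nonneg,
          ENNReal.ofReal_coe_nnreal]

end Pool.Agent.P.MP_9f4f5e_mp.LT
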