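import Pool.Agent.P.MP_9f4f5e_mp.LT.Base

set_option autoImplicit false
set_option linter.unusedSectionVars false

open MeasureTheory Matrix
open scoped ENNReal ComplexOrder ComplexConjugate RealInnerProductSpace FourierTransform

noncomputable section

namespace Pool.Agent.P.MP_9f4f5e_mp.LT

/-- The truncation of `ρ` at height and radius `j + 1`. -/
def g9_tr (ρ : E3 → ℝ) (j : ℕ) : E3 → ℝ :=
  Set.indicator (Metric.ball (0 : E3) (j + 1)) (fun z => min (ρ z) (j + 1))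

theorem g9_meas {ρ : E3 → ℝ} (hρ : Measurable ρ) (j : ℕ) : Measurable (g9_tr ρ j) :=
  (hρ.min measurable_const).indicator Metric.isOpen_ball.measurableSet

theorem g9_nonneg {ρ : E3 → ℝ} (hρ0 : ∀ z, 0 ≤ ρ z) (j : ℕ) (z : E3) : 0 ≤ g9_tr ρ j z := by
  unfold g9_tr
  by_cases h : z ∈ Metric.ball (0 : E3) (j + 1)
  · rw [Set.indicator_of_mem h]
    exact le_min (hρ0 z) (by positivity)
  · rw [Set.indicator_of_notMem h]

theorem g9_le {ρ : E3 → ℝ} (hρ0 : ∀ z, 0 ≤ ρ z) (j : ℕ) (z : E3) : g9_tr ρ j z ≤ ρ z := by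
  unfold g9_tr
  by_cases h : z ∈ Metric.ball (0 : E3) (j + 1)
  · rw [Set.indicator_of_mem h]
    exact min_le_left _ _
  · rw [Set.indicator_of_notMem h]
    exact hρ0 z

theorem g9_le' (ρ : E3 → ℝ) (j : ℕ) (z : E3) : g9_tr ρ j z ≤ j + 1 := by
  unfold g9_tr
  by_cases h : z ∈ Metric.ball (0 : E3) (j + 1)
  · rw [Set.indicator_of_mem h]
    exact min_le_right _ _
  · rw [Set.indicator_of_notMem h]
    positivity

theorem g9_zero (ρ : E3 → ℝ) (j : ℕ) (z : E3) (hz : (j : ℝ) + 1 ≤ ‖z‖) : g9_tr ρ j z = 0 := by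
  unfold g9_tr
  rw [Set.indicator_of_notMem]
  rw [mem_ball_zero_iff]
  exact not_lt.mpr hz

theorem g9_ev (ρ : E3 → ℝ) (z : E3) : ∀ᶠ j : ℕ in Filter.atTop, g9_tr ρ j z = ρ z := by
  obtain ⟨N, hN⟩ := exists_nat_gt (max ‖z‖ (ρ z))
  filter_upwards [Filter.eventually_ge_atTop N] with j hj
  have hj' : (N : ℝ) ≤ j := by exact_mod_cast hj
  have h1 : ‖z‖ < (j : ℝ) + 1 := by
    have := le_max_left ‖z‖ (ρ z)
    linarith
  have h2 : ρ z ≤ (j : ℝ) + 1 := by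
    have := le_max_right ‖z‖ (ρ z)
    linarith
  unfold g9_tr
  rw [Set.indicator_of_mem (mem_ball_zero_iff.mpr h1)]
  exact min_eq_left h2

theorem g9_int {ρ : E3 → ℝ} (hρ : Measurable ρ) (hρ0 : ∀ z, 0 ≤ ρ z) (j : ℕ) :
    Integrable (fun z => g9_tr ρ j z ^ (4 / 3 : ℝ)) := by
  have hm : Measurable (fun z => g9_tr ρ j z ^ (4 / 3 : ℝ)) :=
    (g9_meas hρ j).pow_const _
  have hb : Integrable (Set.indicator (Metric.ball (0 : E3) (j + 1))
      (fun _ => ((j : ℝ) + 1) ^ (4 / 3 : ℝ))) := by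
    rw [integrable_indicator_iff Metric.isOpen_ball.measurableSet]
    exact integrableOn_const (measure_ball_lt_top.ne)
  refine hb.mono' hm.aestronglyMeasurable (Filter.Eventually.of_forall fun z => ?_)
  rw [Real.norm_of_nonneg (Real.rpow_nonneg (g9_nonneg hρ0 j z) _)]
  by_cases h : z ∈ Metric.ball (0 : E3) (j + 1)
  · rw [Set.indicator_of_mem h]
    exact Real.rpow_le_rpow (g9_nonneg hρ0 j z) (g9_le' ρ j z) (by norm_num)
  · rw [Set.indicator_of_notMem h]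
    have : g9_tr ρ j z = 0 := g9_zero ρ j z (not_lt.mp fun h' => h (mem_ball_zero_iff.mpr h'))
    rw [this, Real.zero_rpow (by norm_num)]

theorem g9_step {ρ : E3 → ℝ} (hρ : Measurable ρ) (hρ0 : ∀ z, 0 ≤ ρ z) {T C : ℝ} (hT : 0 ≤ T)
    (hC : 0 < C)
    (H : ∀ (V : E3 → ℝ) (M r : ℝ), Measurable V → 0 < r → (∀ x, 0 ≤ V x) →
      (∀ x, V x ≤ M) → (∀ x, r ≤ ‖x‖ → V x = 0) →
      ∫⁻ z, ENNReal.ofReal (ρ z * V z) ≤ ENNReal.ofReal (T + C * ∫ x, V x ^ 4)) (j : ℕ) :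
    3 / 4 * (4 * C) ^ (-(1 / 3) : ℝ) * ∫ z, g9_tr ρ j z ^ (4 / 3 : ℝ) ≤ T := by
  set lam : ℝ := (4 * C) ^ (-(1 / 3) : ℝ) with hlam
  have h4 : 0 < 4 * C := by positivity
  have hl0 : 0 < lam := Real.rpow_pos_of_pos h4 _
  have hl3 : C * lam ^ 3 = 1 / 4 := by
    have : lam ^ 3 = (4 * C)⁻¹ := by
      rw [hlam, ← Real.rpow_natCast, ← Real.rpow_mul h4.le, ← Real.rpow_neg_one]
      norm_num
    rw [this]
    field_simp
  set X : ℝ := ∫ z, g9_tr ρ j z ^ (4 / 3 : ℝ) with hX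
  have hX0 : 0 ≤ X := integral_nonneg fun z => Real.rpow_nonneg (g9_nonneg hρ0 j z) _
  have hV := H (fun z => lam * g9_tr ρ j z ^ (1 / 3 : ℝ)) (lam * ((j : ℝ) + 1) ^ (1 / 3 : ℝ))
    ((j : ℝ) + 1) (((g9_meas hρ j).pow_const _).const_mul _) (by positivity)
    (fun z => mul_nonneg hl0.le (Real.rpow_nonneg (g9_nonneg hρ0 j z) _))
    (fun z => mul_le_mul_of_nonneg_left
      (Real.rpow_le_rpow (g9_nonneg hρ0 j z) (g9_le' ρ j z) (by norm_num)) hl0.le)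
    (fun z hz => by
      rw [g9_zero ρ j z hz, Real.zero_rpow (by norm_num), mul_zero])
  have e4 : ∫ z, (lam * g9_tr ρ j z ^ (1 / 3 : ℝ)) ^ 4 = lam ^ 4 * X := by
    rw [hX, ← integral_const_mul]
    refine integral_congr_ae (Filter.Eventually.of_forall fun z => ?_)
    show (lam * g9_tr ρ j z ^ (1 / 3 : ℝ)) ^ 4 = lam ^ 4 * g9_tr ρ j z ^ (4 / 3 : ℝ)
    rw [mul_pow, ← Real.rpow_natCast (g9_tr ρ j z ^ (1 / 3 : ℝ)),
      ← Real.rpow_mul (g9_nonneg hρ0 j z)]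
    norm_num
  have e1 : ENNReal.ofReal (lam * X) ≤
      ∫⁻ z, ENNReal.ofReal (ρ z * (lam * g9_tr ρ j z ^ (1 / 3 : ℝ))) := by
    rw [hX, ← integral_const_mul, ofReal_integral_eq_lintegral_ofReal
      ((g9_int hρ hρ0 j).const_mul lam) (Filter.Eventually.of_forall fun z =>
        mul_nonneg hl0.le (Real.rpow_nonneg (g9_nonneg hρ0 j z) _))]
    refine lintegral_mono fun z => ENNReal.ofReal_le_ofReal ?_
    have h43 : g9_tr ρ j z ^ (4 / 3 : ℝ) = g9_tr ρ j z * g9_tr ρ j z ^ (1 / 3 : ℝ) := by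
      rw [show (4 / 3 : ℝ) = 1 + 1 / 3 by norm_num,
        Real.rpow_add' (g9_nonneg hρ0 j z) (by norm_num), Real.rpow_one]
    rw [h43]
    have h13 : 0 ≤ g9_tr ρ j z ^ (1 / 3 : ℝ) := Real.rpow_nonneg (g9_nonneg hρ0 j z) _
    have := mul_le_mul_of_nonneg_right (g9_le hρ0 j z) (mul_nonneg hl0.le h13)
    nlinarith
  have e2 := e1.trans hV
  rw [e4, ENNReal.ofReal_le_ofReal_iff (by positivity)] at e2
  have : C * (lam ^ 4 * X) = lam * X / 4 := by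
    calc C * (lam ^ 4 * X) = (C * lam ^ 3) * (lam * X) := by ring
      _ = lam * X / 4 := by rw [hl3]; ring
  rw [this] at e2
  linarith

/-- Optimisation. Hint: lam = (4 C)^(-1/3), σ j = indicator (ball 0 (j+1)) (min ρ (j+1)),
V = lam * σ j ^ (1/3), X j = ∫ σ j ^ (4/3) (integrable: bounded, bounded support);
ρ V ≥ lam σ^(4/3), V^4 = lam^4 σ^(4/3), so lam X ≤ T + C lam^4 X = T + lam X / 4.
Monotone convergence (lintegral_iSup, or lintegral_liminf_le since σ j z = ρ z eventually). -/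
theorem optimise {ρ : E3 → ℝ} (hρ : Measurable ρ) (hρ0 : ∀ z, 0 ≤ ρ z) {T C : ℝ} (hT : 0 ≤ T)
    (hC : 0 < C)
    (H : ∀ (V : E3 → ℝ) (M r : ℝ), Measurable V → 0 < r → (∀ x, 0 ≤ V x) →
      (∀ x, V x ≤ M) → (∀ x, r ≤ ‖x‖ → V x = 0) →
      ∫⁻ z, ENNReal.ofReal (ρ z * V z) ≤ ENNReal.ofReal (T + C * ∫ x, V x ^ 4)) :
    ENNReal.ofReal (3 / 4 * (4 * C) ^ (-(1 / 3) : ℝ)) * ∫⁻ z, ENNReal.ofReal (ρ z) ^ (4 / 3 : ℝ)
      ≤ ENNReal.ofReal T := by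
  have hc : 0 ≤ 3 / 4 * (4 * C) ^ (-(1 / 3) : ℝ) :=
    mul_nonneg (by norm_num) (Real.rpow_nonneg (by positivity) _)
  have hm : ∀ j : ℕ, Measurable fun z => ENNReal.ofReal (3 / 4 * (4 * C) ^ (-(1 / 3) : ℝ)) *
      ENNReal.ofReal (g9_tr ρ j z) ^ (4 / 3 : ℝ) := fun j =>
    (((g9_meas hρ j).ennreal_ofReal).pow_const _).const_mul _
  have hj : ∀ j : ℕ, ∫⁻ z, ENNReal.ofReal (3 / 4 * (4 * C) ^ (-(1 / 3) : ℝ)) *
      ENNReal.ofReal (g9_tr ρ j z) ^ (4 / 3 : ℝ) ≤ ENNReal.ofReal T := by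
    intro j
    refine le_trans (le_of_eq ?_) (ENNReal.ofReal_le_ofReal (g9_step hρ hρ0 hT hC H j))
    rw [← integral_const_mul, ofReal_integral_eq_lintegral_ofReal
      ((g9_int hρ hρ0 j).const_mul _) (Filter.Eventually.of_forall fun z =>
        mul_nonneg hc (Real.rpow_nonneg (g9_nonneg hρ0 j z) _))]
    refine lintegral_congr fun z => ?_
    rw [ENNReal.ofReal_mul hc, ENNReal.ofReal_rpow_of_nonneg (g9_nonneg hρ0 j z) (by norm_num)]
  rw [← lintegral_const_mul _ (hρ.ennreal_ofReal.pow_const _)]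
  have hl : ∀ z, ENNReal.ofReal (3 / 4 * (4 * C) ^ (-(1 / 3) : ℝ)) *
      ENNReal.ofReal (ρ z) ^ (4 / 3 : ℝ) = Filter.liminf (fun j : ℕ =>
        ENNReal.ofReal (3 / 4 * (4 * C) ^ (-(1 / 3) : ℝ)) *
          ENNReal.ofReal (g9_tr ρ j z) ^ (4 / 3 : ℝ)) Filter.atTop := by
    intro z
    refine (Filter.Tendsto.liminf_eq ?_).symm
    refine tendsto_const_nhds.congr' ?_
    filter_upwards [g9_ev ρ z] with j hj
    rw [hj]
  calc _ = ∫⁻ z, Filter.liminf (fun j : ℕ =>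
        ENNReal.ofReal (3 / 4 * (4 * C) ^ (-(1 / 3) : ℝ)) *
          ENNReal.ofReal (g9_tr ρ j z) ^ (4 / 3 : ℝ)) Filter.atTop := lintegral_congr hl
    _ ≤ Filter.liminf (fun j : ℕ => ∫⁻ z, ENNReal.ofReal (3 / 4 * (4 * C) ^ (-(1 / 3) : ℝ)) *
          ENNReal.ofReal (g9_tr ρ j z) ^ (4 / 3 : ℝ)) Filter.atTop := lintegral_liminf_le hm
    _ ≤ ENNReal.ofReal T :=
      Filter.liminf_le_of_frequently_le' (Filter.Frequently.of_forall hj)

end Pool.Agent.P.MP_9f4f5e_mp.LT
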