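import Pool.Agent.P.MP_9f4f5e_mp.LT.P1

set_option autoImplicit false
set_option linter.unusedSectionVars false

open MeasureTheory Matrix
open scoped ENNReal ComplexOrder ComplexConjugate RealInnerProductSpace FourierTransform

noncomputable section

namespace Pool.Agent.P.MP_9f4f5e_mp.LT

variable {X Y : Type} [MeasurableSpace X] [MeasurableSpace Y] {μ : Measure X} {ν : Measure Y}
  [SFinite μ] [SFinite ν]

theorem p2_memLp_conj {f : X → ℂ} (hf : MemLp f 2 μ) : MemLp (fun x => conj (f x)) 2 μ := by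
  refine MemLp.congr_norm hf ?_ (Filter.Eventually.of_forall fun x => by simp)
  exact Complex.continuous_conj.comp_aestronglyMeasurable hf.1

theorem p2_memLp_tensor {f : X → ℂ} (hf : MemLp f 2 μ) :
    MemLp (fun p : X × X => conj (f p.1) * conj (f p.2)) 2 (μ.prod μ) := by
  have hc := p2_memLp_conj hf
  have hm : AEStronglyMeasurable (fun p : X × X => conj (f p.1) * conj (f p.2)) (μ.prod μ) :=
    (hc.1.comp_fst).mul (hc.1.comp_snd)
  rw [memLp_two_iff_integrable_sq_norm hm]
  have h2 : Integrable (fun x => ‖f x‖ ^ 2) μ := (memLp_two_iff_integrable_sq_norm hf.1).1 hf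
  refine (h2.mul_prod h2).congr (Filter.Eventually.of_forall fun p => ?_)
  simp [mul_pow]

theorem p2_integrable_mul {Z : Type} [MeasurableSpace Z] {m : Measure Z} {a b : Z → ℂ}
    (ha : MemLp a 2 m) (hb : MemLp b 2 m) : Integrable (fun z => a z * b z) m :=
  ha.integrable_mul hb

/-- the double contraction of an antisymmetric function vanishes. Hint: the integrand is
integrable on μ.prod μ (MemLp.integrable_mul; f p.1 * f p.2 is in L2 by Integrable.mul_prod),
integral_prod_swap, integral_prod_symm. -/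
theorem double_contraction {Θ : X × X → ℂ} (hΘ : MemLp Θ 2 (μ.prod μ))
    (hanti : ∀ᵐ p ∂(μ.prod μ), Θ (p.2, p.1) = -Θ p) {f : X → ℂ} (hf : MemLp f 2 μ) :
    Integrable (fun η => conj (f η) * ∫ x, conj (f x) * Θ (x, η) ∂μ) μ ∧
      ∫ η, conj (f η) * ∫ x, conj (f x) * Θ (x, η) ∂μ ∂μ = 0 := by
  have hF : Integrable (fun p : X × X => conj (f p.1) * conj (f p.2) * Θ p) (μ.prod μ) :=
    p2_integrable_mul (p2_memLp_tensor hf) hΘ
  have heq : ∀ η, ∫ x, conj (f x) * conj (f η) * Θ (x, η) ∂μ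
      = conj (f η) * ∫ x, conj (f x) * Θ (x, η) ∂μ := by
    intro η
    rw [← integral_const_mul]
    refine integral_congr_ae (Filter.Eventually.of_forall fun x => ?_)
    simp only
    ring
  refine ⟨?_, ?_⟩
  · have := hF.integral_prod_right
    simpa only [heq] using this
  · have h1 := integral_prod_symm _ hF
    simp only [heq] at h1
    rw [← h1]
    have h2 := integral_prod_swap (μ := μ) (ν := μ)
      (fun p : X × X => conj (f p.1) * conj (f p.2) * Θ p)
    have h3 : ∫ p : X × X, conj (f p.swap.1) * conj (f p.swap.2) * Θ p.swap ∂(μ.prod μ)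
        = -∫ p : X × X, conj (f p.1) * conj (f p.2) * Θ p ∂(μ.prod μ) := by
      rw [← integral_neg]
      refine integral_congr_ae ?_
      filter_upwards [hanti] with p hp
      have : Θ p.swap = -Θ p := hp
      rw [this]
      simp only [Prod.fst_swap, Prod.snd_swap]
      ring
    have h4 := h2.symm.trans h3
    exact self_eq_neg.mp h4

/-- Contraction of the remainder in the second variable. Hint: transport to (μ.prod μ).prod ν
(measurePreserving_prodAssoc); for a.e. y the slice Θ (x, η) = Ψ (x, η, y) is in L2 and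
antisymmetric (ae_memLp_left, Measure.ae_ae_of_ae_prod on the swapped product); for a.e. x then
η ↦ Θ (x, η) is in L2 and equals -Θ (η, x) a.e.; double_contraction. The conclusion is iterated,
so no measurability of the exceptional set is needed. -/
theorem contraction_rem {Ψ : X × X × Y → ℂ} (hΨ : MemLp Ψ 2 (μ.prod (μ.prod ν)))
    (hanti : ∀ᵐ p ∂(μ.prod (μ.prod ν)), Ψ (p.2.1, p.1, p.2.2) = -Ψ p) {f : X → ℂ}
    (hf : MemLp f 2 μ) :
    ∀ᵐ y ∂ν, ∀ᵐ x ∂μ,
      ∫ η, conj (f η) * (Ψ (x, η, y) - f x * ∫ x', conj (f x') * Ψ (x', η, y) ∂μ) ∂μ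
        = -∫ x', conj (f x') * Ψ (x', x, y) ∂μ := by
  have hmp : MeasurePreserving (MeasurableEquiv.prodAssoc : (X × X) × Y ≃ᵐ X × X × Y)
      ((μ.prod μ).prod ν) (μ.prod (μ.prod ν)) := measurePreserving_prodAssoc μ μ ν
  have hΨ' : MemLp (fun q : (X × X) × Y => Ψ (q.1.1, q.1.2, q.2)) 2 ((μ.prod μ).prod ν) :=
    hΨ.comp_measurePreserving hmp
  have hanti' : ∀ᵐ q ∂((μ.prod μ).prod ν),
      Ψ (q.1.2, q.1.1, q.2) = -Ψ (q.1.1, q.1.2, q.2) :=
    hmp.quasiMeasurePreserving.ae hanti
  have hanti2 : ∀ᵐ q ∂(ν.prod (μ.prod μ)),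
      Ψ (q.2.2, q.2.1, q.1) = -Ψ (q.2.1, q.2.2, q.1) :=
    (Measure.measurePreserving_swap (μ := ν) (ν := μ.prod μ)).quasiMeasurePreserving.ae hanti'
  have hanti3 := Measure.ae_ae_of_ae_prod hanti2
  filter_upwards [ae_memLp_left hΨ', hanti3] with y hy1 hy2
  have hd := double_contraction (Θ := fun p : X × X => Ψ (p.1, p.2, y)) hy1 hy2 hf
  have hy3 := Measure.ae_ae_of_ae_prod hy2
  filter_upwards [ae_memLp_right hy1, hy3] with x hx1 hx2
  have hi1 : Integrable (fun η => conj (f η) * Ψ (x, η, y)) μ :=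
    p2_integrable_mul (p2_memLp_conj hf) hx1
  have hsplit : ∀ η, conj (f η) * (Ψ (x, η, y) - f x * ∫ x', conj (f x') * Ψ (x', η, y) ∂μ)
      = conj (f η) * Ψ (x, η, y)
        - f x * (conj (f η) * ∫ x', conj (f x') * Ψ (x', η, y) ∂μ) := by
    intro η
    ring
  simp only [hsplit]
  rw [integral_sub hi1 (hd.1.const_mul (f x)), integral_const_mul, hd.2, mul_zero, sub_zero,
    ← integral_neg]
  refine integral_congr_ae ?_
  filter_upwards [hx2] with η hη
  have : Ψ (η, x, y) = -Ψ (x, η, y) := hη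
  rw [this]
  ring

end Pool.Agent.P.MP_9f4f5e_mp.LT
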