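import Pool.Agent.P.MP_9f4f5e_mp.LT.E3
import Pool.Agent.P.MP_9f4f5e_mp.LT.P2

set_option autoImplicit false
set_option linter.unusedSectionVars false

open MeasureTheory Matrix
open scoped ENNReal ComplexOrder ComplexConjugate RealInnerProductSpace FourierTransform

noncomputable section

namespace Pool.Agent.P.MP_9f4f5e_mp.LT

theorem p3_pyth (n : ℕ) {Ψ : EN (n + 1) → ℂ} (hΨ : MemLp Ψ 2 volume) {f : E3 → ℂ}
    (hf : MemLp f 2 volume) (hf1 : ∫ x, ‖f x‖ ^ 2 = 1) :
    MemLp (fun y : EN n => ∫ x, conj (f x) * Ψ (glue x y)) 2 volume ∧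
    MemLp (fun p : E3 × EN n => Ψ (glue p.1 p.2) - f p.1 * ∫ x, conj (f x) * Ψ (glue x p.2)) 2
      ((volume : Measure E3).prod volume) ∧
    ∫ p : E3 × EN n, ‖Ψ (glue p.1 p.2) - f p.1 * ∫ x, conj (f x) * Ψ (glue x p.2)‖ ^ 2
        ∂((volume : Measure E3).prod volume)
      + ∫ y : EN n, ‖∫ x, conj (f x) * Ψ (glue x y)‖ ^ 2 = ∫ z, ‖Ψ z‖ ^ 2 := by
  have h := pythagoras (Ψ := fun p : E3 × EN n => Ψ (glue p.1 p.2))
    (hΨ.comp_measurePreserving (mp_glue n)) hf hf1
  rw [← (mp_glue n).integral_comp (measurableEmbedding_glue n) fun z => ‖Ψ z‖ ^ 2]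
  exact h

theorem p3_mp_swap {X Y : Type} [MeasurableSpace X] [MeasurableSpace Y] (μ : Measure X)
    (ν : Measure Y) [SFinite μ] [SFinite ν] :
    MeasurePreserving (fun p : X × X × Y => (p.2.1, p.1, p.2.2)) (μ.prod (μ.prod ν))
      (μ.prod (μ.prod ν)) :=
  (measurePreserving_prodAssoc μ μ ν).comp
    (((Measure.measurePreserving_swap (μ := μ) (ν := μ)).prod (MeasurePreserving.id ν)).comp
      (measurePreserving_prodAssoc μ μ ν).symm)

theorem p3_mp_glue (n : ℕ) :
    MeasurePreserving (fun p : E3 × E3 × EN n => (p.1, glue p.2.1 p.2.2))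
      ((volume : Measure E3).prod ((volume : Measure E3).prod (volume : Measure (EN n))))
      ((volume : Measure E3).prod (volume : Measure (EN (n + 1)))) :=
  (MeasurePreserving.id (volume : Measure E3)).prod (mp_glue n)

/-- slices of the remainder are antisymmetric -/
theorem p3_anti (n : ℕ) {Ψ : EN (n + 1) → ℂ}
    (hanti : ∀ i j, i ≠ j → ∀ᵐ z, Ψ (sw i j z) = -Ψ z) (f : E3 → ℂ) :
    ∀ᵐ x : E3, ∀ i j : Fin n, i ≠ j → ∀ᵐ y : EN n,
      Ψ (glue x (sw i j y)) - f x * ∫ x', conj (f x') * Ψ (glue x' (sw i j y))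
        = -(Ψ (glue x y) - f x * ∫ x', conj (f x') * Ψ (glue x' y)) := by
  refine ae_all_iff.2 fun i => ae_all_iff.2 fun j => ?_
  by_cases hij : i = j
  · exact Filter.Eventually.of_forall fun x h => absurd hij h
  have h1 : ∀ᵐ p ∂((volume : Measure E3).prod (volume : Measure (EN n))),
      Ψ (glue p.1 (sw i j p.2)) = -Ψ (glue p.1 p.2) := by
    have h2 := (mp_glue n).quasiMeasurePreserving.ae
      (hanti i.succ j.succ fun h => hij (Fin.succ_injective _ h))
    filter_upwards [h2] with p hp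
    rwa [sw_glue] at hp
  have h2 : ∀ᵐ y : EN n, ∫ x', conj (f x') * Ψ (glue x' (sw i j y))
      = -∫ x', conj (f x') * Ψ (glue x' y) := by
    have h3 := Measure.ae_ae_of_ae_prod
      ((Measure.measurePreserving_swap (μ := (volume : Measure (EN n)))
        (ν := (volume : Measure E3))).quasiMeasurePreserving.ae h1)
    filter_upwards [h3] with y hy
    rw [← integral_neg]
    refine integral_congr_ae ?_
    filter_upwards [hy] with x hx
    rw [← mul_neg]
    exact congrArg _ hx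
  filter_upwards [Measure.ae_ae_of_ae_prod h1] with x hx _
  filter_upwards [hx, h2] with y hy hy'
  rw [hy, hy']
  ring

/-- Pauli principle, normalised f. Hint: induction on n for all Ψ. Let G y = ∫ conj f * Ψ (glue · y),
Ψ' (x, y) = Ψ (glue x y) - f x * G y (pythagoras with mp_glue, MemLp.comp_measurePreserving).
n = 0: pythagoras. Step: for a.e. x the slice Ψ' (x, ·) is in L2 (ae_memLp_right) and antisymmetric
(sw_glue, mp_glue.quasiMeasurePreserving.ae, ae_ae_of_ae_prod, ae_all_iff; G (sw i j y) = -G y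
a.e.); apply the induction hypothesis to it and integrate over x. Let H (x, y') be its
f-contraction, H (x, y') = ∫ η, conj (f η) * Ψ' (x, glue η y'); H is in L2 of the product
(pythagoras once more, or measurability plus the bound), so ∫ x, ∫ y', ‖H‖^2 = ∫ y', ∫ x, ‖H‖^2,
and contraction_rem (sw_glue_glue) gives H (x, y') = -G (glue x y') for a.e. y', a.e. x. -/
theorem pauli_norm (n : ℕ) {Ψ : EN (n + 1) → ℂ} (hΨ : MemLp Ψ 2 volume)
    (hanti : ∀ i j, i ≠ j → ∀ᵐ z, Ψ (sw i j z) = -Ψ z) {f : E3 → ℂ} (hf : MemLp f 2 volume)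
    (hf1 : ∫ x, ‖f x‖ ^ 2 = 1) :
    ((n : ℝ) + 1) * ∫ y : EN n, ‖∫ x, conj (f x) * Ψ (glue x y)‖ ^ 2 ≤ ∫ z, ‖Ψ z‖ ^ 2 := by
  induction n with
  | zero =>
    have h1 := (p3_pyth 0 hΨ hf hf1).2.2
    rw [← h1, Nat.cast_zero, zero_add, one_mul]
    exact le_add_of_nonneg_left (integral_nonneg fun _ => by positivity)
  | succ n ih =>
    obtain ⟨hG, hR, hP⟩ := p3_pyth (n + 1) hΨ hf hf1
    set G : EN (n + 1) → ℂ := fun y => ∫ x, conj (f x) * Ψ (glue x y) with hGdef
    set R : E3 × EN (n + 1) → ℂ := fun p => Ψ (glue p.1 p.2) - f p.1 * G p.2 with hRdef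
    set H : E3 × EN n → ℂ := fun q => ∫ η, conj (f η) * R (q.1, glue η q.2) with hHdef
    have hH : MemLp H 2 ((volume : Measure E3).prod (volume : Measure (EN n))) :=
      (pythagoras (Ψ := fun p : E3 × E3 × EN n => R (p.2.1, glue p.1 p.2.2))
        (hR.comp_measurePreserving ((p3_mp_glue n).comp (p3_mp_swap _ _))) hf hf1).1
    have iH := (memLp_two_iff_integrable_sq_norm hH.1).1 hH
    have iR := (memLp_two_iff_integrable_sq_norm hR.1).1 hR
    have hG' := hG.comp_measurePreserving (mp_glue n)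
    have iG := (memLp_two_iff_integrable_sq_norm hG'.1).1 hG'
    have hHG : ∀ᵐ y : EN n, ∀ᵐ x : E3, H (x, y) = -G (glue x y) := by
      refine contraction_rem (Ψ := fun p : E3 × E3 × EN n => Ψ (glue p.1 (glue p.2.1 p.2.2)))
        (hΨ.comp_measurePreserving ((mp_glue (n + 1)).comp (p3_mp_glue n))) ?_ hf
      have h2 := ((mp_glue (n + 1)).comp (p3_mp_glue n)).quasiMeasurePreserving.ae
        (hanti 0 1 Fin.zero_ne_one)
      filter_upwards [h2] with p hp
      rw [← sw_glue_glue]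
      exact hp
    have h1 : ∫ y, ‖G y‖ ^ 2 = ∫ x : E3, ∫ y : EN n, ‖H (x, y)‖ ^ 2 := by
      rw [← (mp_glue n).integral_comp (measurableEmbedding_glue n) fun z => ‖G z‖ ^ 2,
        ← integral_prod _ iH, integral_prod_symm _ iH]
      refine (integral_prod_symm _ iG).trans (integral_congr_ae ?_)
      filter_upwards [hHG] with y hy
      refine integral_congr_ae ?_
      filter_upwards [hy] with x hx
      rw [hx, norm_neg]
      rfl
    have h2 : ((n : ℝ) + 1) * ∫ y, ‖G y‖ ^ 2 ≤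
        ∫ p, ‖R p‖ ^ 2 ∂((volume : Measure E3).prod volume) := by
      rw [h1, integral_prod _ iR, ← integral_const_mul]
      refine integral_mono_ae (iH.integral_prod_left.const_mul _) iR.integral_prod_left ?_
      filter_upwards [ae_memLp_right hR, p3_anti (n + 1) hanti f] with x hx hx'
      exact ih (Ψ := fun y => R (x, y)) hx hx'
    push_cast
    linarith

/-- Hint: if ∫ ‖f‖^2 = 0 then f = 0 a.e.; else scale. -/
theorem pauli (n : ℕ) {Ψ : EN (n + 1) → ℂ} (hΨ : MemLp Ψ 2 volume)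
    (hanti : ∀ i j, i ≠ j → ∀ᵐ z, Ψ (sw i j z) = -Ψ z) {f : E3 → ℂ} (hf : MemLp f 2 volume) :
    ((n : ℝ) + 1) * ∫ y : EN n, ‖∫ x, conj (f x) * Ψ (glue x y)‖ ^ 2
      ≤ (∫ x, ‖f x‖ ^ 2) * ∫ z, ‖Ψ z‖ ^ 2 := by
  have i2 := (memLp_two_iff_integrable_sq_norm hf.1).1 hf
  have h0 : 0 ≤ ∫ x, ‖f x‖ ^ 2 := integral_nonneg fun _ => by positivity
  rcases h0.eq_or_lt with h1 | h1
  · have h2 := (integral_eq_zero_iff_of_nonneg (fun _ => by positivity) i2).1 h1.symm
    have h3 : ∀ y : EN n, ∫ x, conj (f x) * Ψ (glue x y) = 0 := by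
      intro y
      refine integral_eq_zero_of_ae ?_
      filter_upwards [h2] with x hx
      have h4 : f x = 0 := by simpa using hx
      simp [h4]
    simp [h3, ← h1]
  · set c : ℝ := ∫ x, ‖f x‖ ^ 2 with hc
    have hs : 0 < Real.sqrt c := Real.sqrt_pos.2 h1
    have hn : ‖(((Real.sqrt c)⁻¹ : ℝ) : ℂ)‖ ^ 2 = c⁻¹ := by
      rw [Complex.norm_real, Real.norm_eq_abs, sq_abs, inv_pow, Real.sq_sqrt h1.le]
    have h2 := pauli_norm n hΨ hanti (f := fun x => (((Real.sqrt c)⁻¹ : ℝ) : ℂ) * f x)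
      (hf.const_mul _) (by
        simp only [norm_mul, mul_pow, hn]
        rw [integral_const_mul, inv_mul_cancel₀ h1.ne'])
    have h3 : ∀ y : EN n, ‖∫ x, conj ((((Real.sqrt c)⁻¹ : ℝ) : ℂ) * f x) * Ψ (glue x y)‖ ^ 2
        = c⁻¹ * ‖∫ x, conj (f x) * Ψ (glue x y)‖ ^ 2 := by
      intro y
      simp only [map_mul, Complex.conj_ofReal, mul_assoc]
      rw [integral_const_mul, norm_mul, mul_pow, hn]
    simp only [h3] at h2
    rw [integral_const_mul, mul_left_comm, inv_mul_le_iff₀ h1] at h2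
    exact h2

end Pool.Agent.P.MP_9f4f5e_mp.LT
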