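import Pool.Agent.P.MP_9f4f5e_mp.LT.E1
import Pool.Agent.P.MP_9f4f5e_mp.LT.E2
import Pool.Agent.P.MP_9f4f5e_mp.LT.P3

set_option autoImplicit false
set_option linter.unusedSectionVars false

open MeasureTheory Matrix
open scoped ENNReal ComplexOrder ComplexConjugate RealInnerProductSpace FourierTransform

noncomputable section

namespace Pool.Agent.P.MP_9f4f5e_mp.LT

/-- Hint: exists_swIso, fourier_anti. -/
theorem fourier_sw {n : ℕ} (ψ : Lp ℂ 2 (volume : Measure (EN n)))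
    (hanti : ∀ i j, i ≠ j → ∀ᵐ z, ψ (sw i j z) = -ψ z) : ∀ i j, i ≠ j →
    ∀ᵐ z, (𝓕 ψ : Lp ℂ 2 (volume : Measure (EN n))) (sw i j z)
      = -(𝓕 ψ : Lp ℂ 2 (volume : Measure (EN n))) z := by
  intro i j hij
  obtain ⟨L, hL⟩ := exists_swIso i j
  have h := fourier_anti L ψ (by simpa only [hL] using hanti i j hij)
  simpa only [hL] using h

theorem h1_int_sq {X : Type} [MeasurableSpace X] {μ : Measure X} (φ : Lp ℂ 2 μ) :
    Integrable (fun x => ‖φ x‖ ^ 2) μ :=
  (memLp_two_iff_integrable_sq_norm (Lp.aestronglyMeasurable φ)).1 (Lp.memLp φ)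

theorem h1_sq_eq {X : Type} [MeasurableSpace X] {μ : Measure X} (φ : Lp ℂ 2 μ) :
    ∫ x, ‖φ x‖ ^ 2 ∂μ = ‖φ‖ ^ 2 := by
  have h1 : inner ℂ φ φ = ∫ x, inner ℂ (φ x) (φ x) ∂μ := L2.inner_def φ φ
  have h2 : ∀ x, inner ℂ (φ x) (φ x) = ((‖φ x‖ ^ 2 : ℝ) : ℂ) := fun x => by
    rw [inner_self_eq_norm_sq_to_K]
    push_cast
    rfl
  simp only [h2] at h1
  rw [integral_complex_ofReal, inner_self_eq_norm_sq_to_K] at h1
  have h3 : ((‖φ‖ ^ 2 : ℝ) : ℂ) = ((∫ x, ‖φ x‖ ^ 2 ∂μ : ℝ) : ℂ) := by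
    rw [← h1]
    push_cast
    rfl
  exact (Complex.ofReal_inj.1 h3).symm

theorem h1_norm_sq (n : ℕ) (w : ℂ) :
    ‖((Real.sqrt (n + 1) : ℝ) : ℂ) * w‖ ^ 2 = ((n : ℝ) + 1) * ‖w‖ ^ 2 := by
  rw [norm_mul, mul_pow, Complex.norm_real, Real.norm_eq_abs, sq_abs,
    Real.sq_sqrt (by positivity)]

theorem h1_mul_conj (n : ℕ) (v w : ℂ) :
    ((Real.sqrt (n + 1) : ℝ) : ℂ) * v * conj (((Real.sqrt (n + 1) : ℝ) : ℂ) * w)
      = (((n : ℝ) + 1 : ℝ) : ℂ) * (v * conj w) := by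
  have h : ((Real.sqrt (n + 1) : ℝ) : ℂ) * ((Real.sqrt (n + 1) : ℝ) : ℂ)
      = (((n : ℝ) + 1 : ℝ) : ℂ) := by
    rw [← Complex.ofReal_mul, Real.mul_self_sqrt (by positivity)]
  rw [map_mul, Complex.conj_ofReal, ← h]
  ring

/-- Hint: Lp.stronglyMeasurable, Lp.memLp, mp_glue (integral_comp with measurableEmbedding_glue,
integrable_comp), Lp.norm_fourier_eq (∫ ‖𝓕 ψ‖^2 = 1), pauli, fourier_corr at glue k 0 with
glue_add, inner_glue, integral_prod. -/
theorem data_of_psi {n : ℕ} (ψ : Lp ℂ 2 (volume : Measure (EN (n + 1))))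
    (hanti : ∀ i j, i ≠ j → ∀ᵐ z, ψ (sw i j z) = -ψ z) (hnorm : ‖ψ‖ = 1)
    (hT : Integrable fun ξ =>
      ‖part ξ 0‖ * ‖(𝓕 ψ : Lp ℂ 2 (volume : Measure (EN (n + 1)))) ξ‖ ^ 2) :
    Data (volume : Measure (EN n))
      (fun p => ((Real.sqrt (n + 1) : ℝ) : ℂ)
        * (𝓕 ψ : Lp ℂ 2 (volume : Measure (EN (n + 1)))) (glue p.1 p.2))
      (fun x => ((n : ℝ) + 1) * ∫ y : EN n, ‖ψ (glue x y)‖ ^ 2) := by
  have hanti2 := fourier_sw ψ hanti
  have hn2 : ‖(𝓕 ψ : Lp ℂ 2 (volume : Measure (EN (n + 1))))‖ = 1 := by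
    rw [Lp.norm_fourier_eq, hnorm]
  have hcorr := fourier_corr ψ
  generalize (𝓕 ψ : Lp ℂ 2 (volume : Measure (EN (n + 1)))) = χ at hanti2 hn2 hcorr hT ⊢
  have hg := mp_glue n
  have he := measurableEmbedding_glue n
  have hψ2 : Integrable (fun p : E3 × EN n => ‖ψ (glue p.1 p.2)‖ ^ 2)
      ((volume : Measure E3).prod (volume : Measure (EN n))) :=
    (hg.integrable_comp_emb he).2 (h1_int_sq ψ)
  have hψm : StronglyMeasurable fun p : E3 × EN n => ‖ψ (glue p.1 p.2)‖ ^ 2 :=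
    (((Lp.stronglyMeasurable ψ).measurable.comp he.measurable).norm.pow_const 2).stronglyMeasurable
  refine ⟨?_, ?_, ?_, ?_, ?_, ?_, ?_, ?_⟩
  · exact ((Lp.stronglyMeasurable χ).measurable.comp he.measurable).const_mul _
  · simp only [h1_norm_sq]
    exact ((hg.integrable_comp_emb he).2 (h1_int_sq χ)).const_mul _
  · simp only [h1_norm_sq]
    have h1 : Integrable (fun p : E3 × EN n => ‖p.1‖ * ‖χ (glue p.1 p.2)‖ ^ 2)
        ((volume : Measure E3).prod (volume : Measure (EN n))) :=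
      (hg.integrable_comp_emb he).2 hT
    refine (h1.const_mul ((n : ℝ) + 1)).congr (Filter.Eventually.of_forall fun p => ?_)
    simp only
    ring
  · intro f hf
    have h1 := pauli n (Lp.memLp χ) hanti2 hf
    rw [h1_sq_eq, hn2, one_pow, mul_one, ← integral_const_mul] at h1
    refine le_trans (le_of_eq ?_) h1
    refine integral_congr_ae (Filter.Eventually.of_forall fun y => ?_)
    simp only
    rw [← h1_norm_sq, ← integral_const_mul]
    congr 2
    refine integral_congr_ae (Filter.Eventually.of_forall fun x => ?_)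
    simp only
    ring
  · exact hψm.integral_prod_right'.measurable.const_mul _
  · intro z
    exact mul_nonneg (by positivity) (integral_nonneg fun y => by positivity)
  · exact hψ2.integral_prod_left.const_mul _
  · intro k
    simp only [h1_mul_conj, glue_add _ k]
    have h1 := hg.integral_comp he fun ζ => χ (ζ + glue k 0) * conj (χ ζ)
    have h2 := hg.integral_comp he
      fun ζ => ((‖ψ ζ‖ ^ 2 : ℝ) : ℂ) * ec (-⟪glue k (0 : EN n), ζ⟫)
    simp only [inner_glue] at h2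
    have h3 : Integrable
        (fun p : E3 × EN n => ((‖ψ (glue p.1 p.2)‖ ^ 2 : ℝ) : ℂ) * ec (-⟪k, p.1⟫))
        ((volume : Measure E3).prod (volume : Measure (EN n))) := by
      refine hψ2.ofReal.mul_bdd (c := 1) ?_ (Filter.Eventually.of_forall fun p => ?_)
      · exact (by fun_prop : Continuous fun p : E3 × EN n => ec (-⟪k, p.1⟫)).aestronglyMeasurable
      · exact (norm_ec _).le
    rw [integral_const_mul, h1, hcorr, ← h2, integral_prod _ h3, ← integral_const_mul]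
    refine integral_congr_ae (Filter.Eventually.of_forall fun x => ?_)
    simp only
    rw [integral_mul_const, integral_complex_ofReal, Complex.ofReal_mul, mul_assoc]

end Pool.Agent.P.MP_9f4f5e_mp.LT
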