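import Pool.Agent.P.MP_9f4f5e_mp.LT.G7
import Pool.Agent.P.MP_9f4f5e_mp.LT.G8
import Pool.Agent.P.MP_9f4f5e_mp.LT.G9
import Pool.Agent.P.MP_9f4f5e_mp.LT.H1

set_option autoImplicit false
set_option linter.unusedSectionVars false

open MeasureTheory Matrix
open scoped ENNReal ComplexOrder ComplexConjugate RealInnerProductSpace FourierTransform

noncomputable section

namespace Pool.Agent.P.MP_9f4f5e_mp.LT

/-- Assembly. Hint: kin_symm with fourier_sw; if the kinetic lintegral is ∞ done; else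
data_of_psi, Data.dual, dual_measurable, optimise, const_le; for a.e. x the density lintegral is
ofReal of the real density (ae_memLp_right, ofReal_integral_eq_lintegral_ofReal). -/
theorem main (n : ℕ) (ψ : Lp ℂ 2 (volume : Measure (EN (n + 1))))
    (hanti : ∀ i j, i ≠ j → ∀ᵐ z, ψ (sw i j z) = -ψ z) (hnorm : ‖ψ‖ = 1) :
    ENNReal.ofReal (0.838 * (3 / 4 * (6 * Real.pi ^ 2) ^ (1 / 3 : ℝ))) *
        ∫⁻ x : E3, (((n : ℝ≥0∞) + 1) * ∫⁻ y : EN n, ‖ψ (glue x y)‖ₑ ^ 2) ^ (4 / 3 : ℝ)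
      ≤ ∑ i : Fin (n + 1), ∫⁻ ξ, ENNReal.ofReal (2 * Real.pi * ‖part ξ i‖)
          * ‖(𝓕 ψ : Lp ℂ 2 (volume : Measure (EN (n + 1)))) ξ‖ₑ ^ 2 := by
  set Ψ : Lp ℂ 2 (volume : Measure (EN (n + 1))) := 𝓕 ψ with hΨ
  have hΨm : Measurable Ψ := (Lp.stronglyMeasurable Ψ).measurable
  have hψm : Measurable ψ := (Lp.stronglyMeasurable ψ).measurable
  rw [kin_symm hΨm (fourier_sw ψ hanti)]
  have hpi : 0 < 2 * Real.pi := by positivity
  have hpm : Measurable fun ξ : EN (n + 1) => ‖part ξ 0‖ := (continuous_part 0).norm.measurable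
  have hkm : Measurable fun ξ : EN (n + 1) => ‖part ξ 0‖ * ‖Ψ ξ‖ ^ 2 :=
    hpm.mul (hΨm.norm.pow_const 2)
  have hk0 : ∀ ξ : EN (n + 1), 0 ≤ ‖part ξ 0‖ * ‖Ψ ξ‖ ^ 2 := fun ξ => by positivity
  have hK : ∫⁻ ξ, ENNReal.ofReal (2 * Real.pi * ‖part ξ 0‖) * ‖Ψ ξ‖ₑ ^ 2
      = ENNReal.ofReal (2 * Real.pi) * ∫⁻ ξ, ENNReal.ofReal (‖part ξ 0‖ * ‖Ψ ξ‖ ^ 2) := by
    rw [← lintegral_const_mul _ hkm.ennreal_ofReal]
    refine lintegral_congr fun ξ => ?_
    rw [ENNReal.ofReal_mul hpi.le, ENNReal.ofReal_mul (norm_nonneg _), mul_assoc,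
      ENNReal.ofReal_pow (norm_nonneg _), ofReal_norm (Ψ ξ)]
  rw [hK]
  by_cases htop : ∫⁻ ξ, ENNReal.ofReal (‖part ξ 0‖ * ‖Ψ ξ‖ ^ 2) = ∞
  · rw [htop, ENNReal.mul_top (by simpa using Real.pi_pos), ENNReal.mul_top (by simp)]
    exact le_top
  have hT : Integrable fun ξ : EN (n + 1) => ‖part ξ 0‖ * ‖Ψ ξ‖ ^ 2 :=
    ⟨hkm.aestronglyMeasurable,
      (hasFiniteIntegral_iff_ofReal (ae_of_all _ hk0)).2 (lt_top_iff_ne_top.2 htop)⟩
  have D := data_of_psi ψ hanti hnorm hT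
  set T : ℝ := ∫ ξ : EN (n + 1), ‖part ξ 0‖ * ‖Ψ ξ‖ ^ 2 with hTdef
  have hT0 : 0 ≤ T := integral_nonneg hk0
  have hn0 : (0 : ℝ) ≤ (n : ℝ) + 1 := by positivity
  have hkin : ∫ p : E3 × EN n, ‖p.1‖ * ‖((Real.sqrt (n + 1) : ℝ) : ℂ) * Ψ (glue p.1 p.2)‖ ^ 2
      ∂((volume : Measure E3).prod (volume : Measure (EN n))) = ((n : ℝ) + 1) * T := by
    rw [hTdef, ← (mp_glue n).integral_comp (measurableEmbedding_glue n), ← integral_const_mul]
    refine integral_congr_ae (ae_of_all _ fun p => ?_)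
    simp only [part_glue_zero, norm_mul, mul_pow, Complex.norm_real, Real.norm_eq_abs, sq_abs,
      Real.sq_sqrt hn0]
    ring
  have h1 := optimise D.rho_meas D.rho_nonneg (mul_nonneg hn0 hT0)
    (by norm_num : (0 : ℝ) < 711 / 400) fun V M r hV hr h0 hM hs =>
      dual_measurable D.rho_nonneg (mul_nonneg hn0 hT0) (by norm_num : (0 : ℝ) < 711 / 400)
        (fun V M r hl hr h0 hM hs => by
          have h2 := D.dual hl hr h0 hM hs
          rwa [hkin] at h2) hV hr h0 hM hs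
  have hL2 : MemLp (fun p : E3 × EN n => ψ (glue p.1 p.2)) 2
      ((volume : Measure E3).prod (volume : Measure (EN n))) :=
    (Lp.memLp ψ).comp_measurePreserving (mp_glue n)
  have hrho : ∫⁻ x : E3, (((n : ℝ≥0∞) + 1) * ∫⁻ y : EN n, ‖ψ (glue x y)‖ₑ ^ 2) ^ (4 / 3 : ℝ)
      = ∫⁻ x : E3, ENNReal.ofReal (((n : ℝ) + 1) * ∫ y : EN n, ‖ψ (glue x y)‖ ^ 2)
          ^ (4 / 3 : ℝ) := by
    refine lintegral_congr_ae ?_
    filter_upwards [ae_memLp_right hL2] with x hx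
    have h3 : Integrable fun y : EN n => ‖ψ (glue x y)‖ ^ 2 :=
      (memLp_two_iff_integrable_sq_norm hx.aestronglyMeasurable).1 hx
    rw [ENNReal.ofReal_mul hn0, ofReal_integral_eq_lintegral_ofReal h3
      (ae_of_all _ fun y => by positivity), ENNReal.ofReal_add (Nat.cast_nonneg n) zero_le_one,
      ENNReal.ofReal_natCast, ENNReal.ofReal_one]
    congr 2
    refine lintegral_congr fun y => ?_
    rw [ENNReal.ofReal_pow (norm_nonneg _), ofReal_norm]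
  rw [hrho, ← ofReal_integral_eq_lintegral_ofReal hT (ae_of_all _ hk0), ← hTdef]
  calc _ ≤ ENNReal.ofReal (2 * Real.pi * (3 / 4 * (4 * (711 / 400) : ℝ) ^ (-(1 / 3) : ℝ))) *
        ∫⁻ x : E3, ENNReal.ofReal (((n : ℝ) + 1) * ∫ y : EN n, ‖ψ (glue x y)‖ ^ 2)
          ^ (4 / 3 : ℝ) := mul_le_mul_left (ENNReal.ofReal_le_ofReal const_le) _
    _ ≤ ENNReal.ofReal (2 * Real.pi) * ENNReal.ofReal (((n : ℝ) + 1) * T) := by
        rw [ENNReal.ofReal_mul hpi.le, mul_assoc]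
        exact mul_le_mul_right h1 _
    _ = _ := by
        rw [ENNReal.ofReal_mul hn0, ENNReal.ofReal_add (Nat.cast_nonneg n) zero_le_one,
          ENNReal.ofReal_natCast, ENNReal.ofReal_one]
        ring

end Pool.Agent.P.MP_9f4f5e_mp.LT
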