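import Pool.Agent.P.MP_9f4f5e_mp.LT.Base

set_option autoImplicit false
set_option linter.unusedSectionVars false

open MeasureTheory Matrix
open scoped ENNReal ComplexOrder ComplexConjugate RealInnerProductSpace FourierTransform

noncomputable section

namespace Pool.Agent.P.MP_9f4f5e_mp.LT

variable {X Y : Type} [MeasurableSpace X] [MeasurableSpace Y] {μ : Measure X} {ν : Measure Y}
  [SFinite μ] [SFinite ν]

/-- slices are square integrable. Hint: memLp_two_iff_integrable_sq_norm, Integrable.prod_left_ae,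
AEStronglyMeasurable.prodMk_right. -/
theorem ae_memLp_left {Ψ : X × Y → ℂ} (hΨ : MemLp Ψ 2 (μ.prod ν)) :
    ∀ᵐ y ∂ν, MemLp (fun x => Ψ (x, y)) 2 μ := by
  have h1 := ((memLp_two_iff_integrable_sq_norm hΨ.1).1 hΨ).prod_left_ae
  filter_upwards [h1, hΨ.1.prodMk_right] with y hy hm
  exact (memLp_two_iff_integrable_sq_norm hm).2 hy

theorem ae_memLp_right {Ψ : X × Y → ℂ} (hΨ : MemLp Ψ 2 (μ.prod ν)) :
    ∀ᵐ x ∂μ, MemLp (fun y => Ψ (x, y)) 2 ν := by
  have h1 := ((memLp_two_iff_integrable_sq_norm hΨ.1).1 hΨ).prod_right_ae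
  filter_upwards [h1, hΨ.1.prodMk_left] with x hx hm
  exact (memLp_two_iff_integrable_sq_norm hm).2 hx

theorem p1_memLp_conj {f : X → ℂ} (hf : MemLp f 2 μ) : MemLp (fun x => conj (f x)) 2 μ :=
  hf.star

theorem p1_slice {g f : X → ℂ} (hg : MemLp g 2 μ) (hf : MemLp f 2 μ)
    (hf1 : ∫ x, ‖f x‖ ^ 2 ∂μ = 1) :
    ∫ x, ‖g x - f x * ∫ x, conj (f x) * g x ∂μ‖ ^ 2 ∂μ + ‖∫ x, conj (f x) * g x ∂μ‖ ^ 2
      = ∫ x, ‖g x‖ ^ 2 ∂μ := by
  set c : ℂ := ∫ x, conj (f x) * g x ∂μ with hc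
  have hi : Integrable (fun x => conj (f x) * g x) μ := (p1_memLp_conj hf).integrable_mul hg
  have hg2 := (memLp_two_iff_integrable_sq_norm hg.1).1 hg
  have hf2 := (memLp_two_iff_integrable_sq_norm hf.1).1 hf
  have hre : Integrable (fun x => (conj c * (conj (f x) * g x)).re) μ := (hi.const_mul _).re
  have h1 : ∀ x, ‖g x - f x * c‖ ^ 2
      = ‖g x‖ ^ 2 - 2 * (conj c * (conj (f x) * g x)).re + ‖c‖ ^ 2 * ‖f x‖ ^ 2 := by
    intro x
    simp only [← Complex.normSq_eq_norm_sq, Complex.normSq_apply, Complex.sub_re, Complex.sub_im,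
      Complex.mul_re, Complex.mul_im, Complex.conj_re, Complex.conj_im]
    ring
  have h2 : ∫ x, (conj c * (conj (f x) * g x)).re ∂μ = ‖c‖ ^ 2 := by
    have h3 := integral_re (hi.const_mul (conj c))
    simp only [RCLike.re_to_complex] at h3
    rw [h3, integral_const_mul, ← hc, Complex.conj_mul', ← Complex.ofReal_pow, Complex.ofReal_re]
  have h4 : Integrable (fun x => ‖g x‖ ^ 2 - 2 * (conj c * (conj (f x) * g x)).re) μ :=
    hg2.sub (hre.const_mul 2)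
  simp_rw [h1]
  rw [integral_add h4 (hf2.const_mul _), integral_sub hg2
    (hre.const_mul 2), integral_const_mul, integral_const_mul, h2, hf1]
  ring

/-- Pythagoras for the projection onto f in the first variable. Hint: for a.e. y (ae_memLp_left)
∫ x, ‖Ψ (x,y) - f x * G y‖^2 + ‖G y‖^2 = ∫ x, ‖Ψ (x,y)‖^2 (expand with
‖a - b‖^2 = ‖a‖^2 - 2 re (conj b * a) + ‖b‖^2); G is AEStronglyMeasurable
(AEStronglyMeasurable.integral_prod_right' on the swapped product), ‖G y‖^2 is dominated by the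
integrable y ↦ ∫ x, ‖Ψ (x,y)‖^2; Integrable.mul_prod; integral_prod_symm. -/
theorem pythagoras {Ψ : X × Y → ℂ} (hΨ : MemLp Ψ 2 (μ.prod ν)) {f : X → ℂ} (hf : MemLp f 2 μ)
    (hf1 : ∫ x, ‖f x‖ ^ 2 ∂μ = 1) :
    MemLp (fun y => ∫ x, conj (f x) * Ψ (x, y) ∂μ) 2 ν ∧
    MemLp (fun p : X × Y => Ψ p - f p.1 * ∫ x, conj (f x) * Ψ (x, p.2) ∂μ) 2 (μ.prod ν) ∧
    ∫ p, ‖Ψ p - f p.1 * ∫ x, conj (f x) * Ψ (x, p.2) ∂μ‖ ^ 2 ∂(μ.prod ν)
      + ∫ y, ‖∫ x, conj (f x) * Ψ (x, y) ∂μ‖ ^ 2 ∂ν = ∫ p, ‖Ψ p‖ ^ 2 ∂(μ.prod ν) := by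
  have hΨ2 := (memLp_two_iff_integrable_sq_norm hΨ.1).1 hΨ
  have hf2 := (memLp_two_iff_integrable_sq_norm hf.1).1 hf
  have hGm : AEStronglyMeasurable (fun y => ∫ x, conj (f x) * Ψ (x, y) ∂μ) ν :=
    (((p1_memLp_conj hf).1.comp_fst (ν := ν)).mul hΨ.1).prod_swap.integral_prod_right'
  have hs := (ae_memLp_left hΨ).mono fun y hy => p1_slice hy hf hf1
  have hG2 : Integrable (fun y => ‖∫ x, conj (f x) * Ψ (x, y) ∂μ‖ ^ 2) ν := by
    refine hΨ2.integral_prod_right.mono' (hGm.norm.pow 2) ?_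
    filter_upwards [hs] with y hy
    rw [Real.norm_of_nonneg (by positivity), ← hy]
    exact le_add_of_nonneg_left (integral_nonneg fun x => by positivity)
  have hG : MemLp (fun y => ∫ x, conj (f x) * Ψ (x, y) ∂μ) 2 ν :=
    (memLp_two_iff_integrable_sq_norm hGm).2 hG2
  have hP : MemLp (fun p : X × Y => f p.1 * ∫ x, conj (f x) * Ψ (x, p.2) ∂μ) 2 (μ.prod ν) := by
    refine (memLp_two_iff_integrable_sq_norm (hf.1.comp_fst.mul hGm.comp_snd)).2 ?_
    refine (hf2.mul_prod hG2).congr (ae_of_all _ fun p => ?_)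
    simp only [Pi.mul_apply, norm_mul, mul_pow]
  have hR := hΨ.sub hP
  refine ⟨hG, hR, ?_⟩
  have hR2 : Integrable (fun p : X × Y => ‖Ψ p - f p.1 * ∫ x, conj (f x) * Ψ (x, p.2) ∂μ‖ ^ 2)
      (μ.prod ν) := (memLp_two_iff_integrable_sq_norm hR.1).1 hR
  rw [integral_prod_symm _ hR2, integral_prod_symm _ hΨ2,
    ← integral_add hR2.integral_prod_right hG2]
  exact integral_congr_ae hs

end Pool.Agent.P.MP_9f4f5e_mp.LT
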