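import Pool.Agent.P.MP_9f4f5e_mp.LT.Defs

/-! Named pieces of the statement. -/

set_option autoImplicit false

open MeasureTheory
open scoped ENNReal FourierTransform

noncomputable section

namespace Pool.Agent.P.MP_9f4f5e_mp.LT

/-- Lebesgue measure on the configuration space -/
def vol (n : ℕ) : Measure (EN n) := volume

/-- square integrable wave functions of n particles -/
abbrev L2 (n : ℕ) : Type := Lp ℂ 2 (volume : Measure (EN n))

/-- a wave function as a function -/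
def fn {n : ℕ} (ψ : L2 n) : EN n → ℂ := ψ

/-- the L2 Fourier transform -/
def ft {n : ℕ} (ψ : L2 n) : L2 n := 𝓕 ψ

/-- antisymmetry under the exchange of any two particles -/
def Antisym {n : ℕ} (f : EN n → ℂ) : Prop :=
  ∀ i j : Fin n, i ≠ j → ∀ᵐ z ∂(vol n), f (sw i j z) = -f z

/-- the one-particle density -/
def dens {n : ℕ} (f : EN (n + 1) → ℂ) (x : E3) : ℝ≥0∞ :=
  ((n : ℝ≥0∞) + 1) * ∫⁻ y, ‖f (glue x y)‖ₑ ^ 2 ∂(vol n)

/-- the relativistic kinetic energy in terms of the Fourier transform g -/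
def kinetic {n : ℕ} (g : EN n → ℂ) : ℝ≥0∞ :=
  ∑ i : Fin n, ∫⁻ ξ, ENNReal.ofReal (2 * Real.pi * ‖part ξ i‖) * ‖g ξ‖ₑ ^ 2 ∂(vol n)

end Pool.Agent.P.MP_9f4f5e_mp.LT
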